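import Pool.Agent.Helper10.K3.Basic

/-!
# Projective `x`-coordinates of sums of points
-/

namespace Pool.Agent.Helper10.K3

open WeierstrassCurve Polynomial

variable {F : Type*} [Field F] [DecidableEq F]

theorem tw_add_X_ne {a b d X₁ Y₁ X₂ Y₂ : F} (h₁ : (TW a b d).Nonsingular X₁ Y₁)
    (h₂ : (TW a b d).Nonsingular X₂ Y₂) (hX : X₁ ≠ X₂) :
    ∃ X₃ Y₃, ∃ h₃ : (TW a b d).Nonsingular X₃ Y₃,
      (Affine.Point.some X₁ Y₁ h₁ + Affine.Point.some X₂ Y₂ h₂ : (TW a b d).Point)
        = Affine.Point.some X₃ Y₃ h₃ ∧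
      X₃ * (X₁ - X₂) ^ 2 = (Y₁ - Y₂) ^ 2 - (a * d + X₁ + X₂) * (X₁ - X₂) ^ 2 ∧
      Y₃ * (X₁ - X₂) = - ((Y₁ - Y₂) * (X₃ - X₁) + Y₁ * (X₁ - X₂)) := by
  refine ⟨_, _, _, Affine.Point.add_of_X_ne hX, ?_, ?_⟩
  · rw [Affine.slope_of_X_ne hX]
    have : X₁ - X₂ ≠ 0 := sub_ne_zero.2 hX
    simp only [Affine.addX, TW]
    field_simp
    ring
  · rw [Affine.slope_of_X_ne hX]
    have : X₁ - X₂ ≠ 0 := sub_ne_zero.2 hX
    simp only [Affine.addY, Affine.negY, Affine.negAddY, Affine.addX, TW]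
    field_simp
    ring

theorem tw_dbl {a b d X Y : F} (h : (TW a b d).Nonsingular X Y) (hY : 2 * Y ≠ 0) :
    ∃ X₃ Y₃, ∃ h₃ : (TW a b d).Nonsingular X₃ Y₃,
      (Affine.Point.some X Y h + Affine.Point.some X Y h : (TW a b d).Point)
        = Affine.Point.some X₃ Y₃ h₃ ∧
      X₃ * (2 * Y) ^ 2 = (X ^ 2 - b * d ^ 2) ^ 2 ∧
      Y₃ * (2 * Y) = - ((3 * X ^ 2 + 2 * (a * d) * X + b * d ^ 2) * (X₃ - X) + Y * (2 * Y)) := by
  have hY' : Y ≠ (TW a b d).negY X Y := by
    rw [tw_negY]
    intro hh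
    apply hY
    linear_combination hh
  refine ⟨_, _, _, Affine.Point.add_self_of_Y_ne hY', ?_, ?_⟩
  · rw [Affine.slope_of_Y_ne rfl hY', tw_negY]
    have heq := (tw_equation a b d X Y).1 h.1
    simp only [Affine.addX, TW]
    have h2 : Y - -Y ≠ 0 := by intro hh; apply hY; linear_combination hh
    have h3 : (2 : F) ≠ 0 := by intro hh; apply hY; rw [hh]; ring
    have h4 : Y ≠ 0 := by intro hh; apply hY; rw [hh]; ring
    have h5 : Y - -Y = 2 * Y := by ring
    rw [h5]
    field_simp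
    linear_combination (4 * (-2 * X - a * d)) * heq
  · rw [Affine.slope_of_Y_ne rfl hY', tw_negY]
    simp only [Affine.addY, Affine.negY, Affine.negAddY, Affine.addX, TW]
    have h3 : (2 : F) ≠ 0 := by intro hh; apply hY; rw [hh]; ring
    have h4 : Y ≠ 0 := by intro hh; apply hY; rw [hh]; ring
    have h5 : Y - -Y = 2 * Y := by ring
    rw [h5]
    field_simp
    ring

/-- `(u : v)` represents the (untwisted) `x`-coordinate `X / d` of `P`. -/
def Rep (a b d : F) (P : (TW a b d).Point) (u v : F) : Prop :=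
  (P = 0 ∧ v = 0 ∧ u ≠ 0) ∨
    ∃ X Y, ∃ h : (TW a b d).Nonsingular X Y, P = Affine.Point.some X Y h ∧ v ≠ 0 ∧ X * v = d * u

omit [DecidableEq F] in
theorem Rep.scale {a b d : F} {P : (TW a b d).Point} {u v c : F} (hc : c ≠ 0) :
    Rep a b d P (c * u) (c * v) ↔ Rep a b d P u v := by
  unfold Rep
  constructor
  · rintro (⟨h1, h2, h3⟩ | ⟨X, Y, h, h1, h2, h3⟩)
    · left
      refine ⟨h1, ?_, ?_⟩
      · rcases mul_eq_zero.1 h2 with h | h
        · exact absurd h hc
        · exact h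
      · exact (mul_ne_zero_iff.1 h3).2
    · right
      refine ⟨X, Y, h, h1, (mul_ne_zero_iff.1 h2).2, ?_⟩
      apply mul_left_cancel₀ hc
      linear_combination h3
  · rintro (⟨h1, h2, h3⟩ | ⟨X, Y, h, h1, h2, h3⟩)
    · left
      refine ⟨h1, by rw [h2, mul_zero], mul_ne_zero hc h3⟩
    · right
      refine ⟨X, Y, h, h1, mul_ne_zero hc h2, ?_⟩
      linear_combination c * h3

omit [DecidableEq F] in
theorem Rep.neg {a b d : F} {P : (TW a b d).Point} {u v : F} :
    Rep a b d P u v → Rep a b d (-P) u v := by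
  rintro (⟨h1, h2, h3⟩ | ⟨X, Y, h, h1, h2, h3⟩)
  · left
    exact ⟨by rw [h1, Affine.Point.neg_zero], h2, h3⟩
  · right
    subst h1
    exact ⟨_, _, _, Affine.Point.neg_some h, h2, h3⟩

theorem Rep.dbl {a b d : F} (h2 : (2 : F) ≠ 0) (hb : b ≠ 0) (hd : d ≠ 0)
    (hab : a ^ 2 - 4 * b ≠ 0) {P : (TW a b d).Point} {u v : F} (h : Rep a b d P u v) :
    Rep a b d (P + P) ((u ^ 2 - b * v ^ 2) ^ 2)
      (4 * u * v * (u ^ 2 + a * u * v + b * v ^ 2)) := by
  rcases h with ⟨h1, h2', h3⟩ | ⟨X, Y, h, h1, h2', h3⟩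
  · left
    refine ⟨by rw [h1, add_zero], by rw [h2']; ring, ?_⟩
    rw [h2']
    have : (u ^ 2 - b * 0 ^ 2) ^ 2 = u ^ 4 := by ring
    rw [this]
    exact pow_ne_zero 4 h3
  · subst h1
    have heq := (tw_equation a b d X Y).1 h.1
    have h4 : (4 : F) ≠ 0 := by
      have : (4 : F) = 2 * 2 := by norm_num
      rw [this]; exact mul_ne_zero h2 h2
    by_cases hY : 2 * Y = 0
    · have hY0 : Y = 0 := by
        rcases mul_eq_zero.1 hY with h | h
        · exact absurd h h2
        · exact h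
      left
      refine ⟨?_, ?_, ?_⟩
      · apply Affine.Point.add_self_of_Y_eq
        rw [tw_negY, hY0, neg_zero]
      · rw [hY0] at heq
        have e : d ^ 3 * (u * v * (u ^ 2 + a * u * v + b * v ^ 2)) = 0 := by
          have e1 : (X * v) * ((X * v) ^ 2 + a * d * (X * v) * v + b * d ^ 2 * v ^ 2) * v = 0 := by
            linear_combination (-v ^ 4) * heq
          rw [h3] at e1
          linear_combination e1
        rcases mul_eq_zero.1 e with h | h
        · exact absurd h (pow_ne_zero 3 hd)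
        · linear_combination 4 * h
      · intro hh
        have hz : u ^ 2 - b * v ^ 2 = 0 := pow_eq_zero_iff (two_ne_zero) |>.1 hh
        rw [hY0] at heq
        have e0 : X * (X ^ 2 + a * d * X + b * d ^ 2) = 0 := by linear_combination -heq
        have hz' : X ^ 2 - b * d ^ 2 = 0 := by
          have : v ^ 2 * (X ^ 2 - b * d ^ 2) = 0 := by
            linear_combination (X * v + d * u) * h3 + d ^ 2 * hz
          rcases mul_eq_zero.1 this with h | h
          · exact absurd h (pow_ne_zero 2 h2')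
          · exact h
        rcases mul_eq_zero.1 e0 with h | h
        · rw [h] at hz'
          have : b * d ^ 2 = 0 := by linear_combination -hz'
          exact (mul_ne_zero hb (pow_ne_zero 2 hd)) this
        · have e2 : X * (2 * X + a * d) = 0 := by linear_combination h + hz'
          rcases mul_eq_zero.1 e2 with h' | h'
          · rw [h'] at hz'
            have : b * d ^ 2 = 0 := by linear_combination -hz'
            exact (mul_ne_zero hb (pow_ne_zero 2 hd)) this
          · have : (a ^ 2 - 4 * b) * d ^ 2 = 0 := by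
              linear_combination (4 : F) * hz' + (a * d - 2 * X) * h'
            exact (mul_ne_zero hab (pow_ne_zero 2 hd)) this
    · obtain ⟨X₃, Y₃, h₃, e1, e2, -⟩ := tw_dbl h hY
      right
      refine ⟨X₃, Y₃, h₃, e1, ?_, ?_⟩
      · intro hh
        apply hY
        have e : d ^ 3 * (4 * u * v * (u ^ 2 + a * u * v + b * v ^ 2)) = v ^ 4 * (2 * Y) ^ 2 := by
          have e1 : (X * v) * ((X * v) ^ 2 + a * d * (X * v) * v + b * d ^ 2 * v ^ 2) * v
              = v ^ 4 * Y ^ 2 := by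
            linear_combination (-v ^ 4) * heq
          rw [h3] at e1
          linear_combination 4 * e1
        rw [hh, mul_zero] at e
        rcases mul_eq_zero.1 e.symm with h | h
        · exact absurd h (pow_ne_zero 4 h2')
        · exact pow_eq_zero_iff (two_ne_zero) |>.1 h
      · have e : d ^ 3 * (4 * u * v * (u ^ 2 + a * u * v + b * v ^ 2)) = v ^ 4 * (2 * Y) ^ 2 := by
          have e1 : (X * v) * ((X * v) ^ 2 + a * d * (X * v) * v + b * d ^ 2 * v ^ 2) * v
              = v ^ 4 * Y ^ 2 := by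
            linear_combination (-v ^ 4) * heq
          rw [h3] at e1
          linear_combination 4 * e1
        apply mul_left_cancel₀ (pow_ne_zero 3 hd)
        have e3 : v ^ 4 * (X ^ 2 - b * d ^ 2) ^ 2 = d ^ 4 * (u ^ 2 - b * v ^ 2) ^ 2 := by
          have : v ^ 2 * (X ^ 2 - b * d ^ 2) = d ^ 2 * (u ^ 2 - b * v ^ 2) := by
            linear_combination (X * v + d * u) * h3
          linear_combination (v ^ 2 * (X ^ 2 - b * d ^ 2) + d ^ 2 * (u ^ 2 - b * v ^ 2)) * this
        linear_combination X₃ * e + v ^ 4 * e2 + e3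

/-- differential addition: `P₁ - P₂ = P`, `x(P) = t ≠ 0`. -/
theorem Rep.dif {a b d : F} (h2 : (2 : F) ≠ 0) (hb : b ≠ 0) (hd : d ≠ 0)
    {P₁ P₂ : (TW a b d).Point} {u₁ v₁ u₂ v₂ t : F} {X Y : F} (ht : t ≠ 0)
    (hP : (TW a b d).Nonsingular X Y) (hXt : X = d * t)
    (hdif : P₁ - P₂ = Affine.Point.some X Y hP)
    (h₁ : Rep a b d P₁ u₁ v₁) (h₂ : Rep a b d P₂ u₂ v₂) :
    Rep a b d (P₁ + P₂) ((u₁ * u₂ - b * v₁ * v₂) ^ 2) (t * (u₁ * v₂ - v₁ * u₂) ^ 2) := by
  rcases h₁ with ⟨e1, e2, e3⟩ | ⟨X₁, Y₁, g₁, e1, e2, e3⟩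
  · -- P₁ = 0
    have hP2 : P₂ = -Affine.Point.some X Y hP := by
      rw [← hdif, e1, zero_sub, neg_neg]
    rw [Affine.Point.neg_some] at hP2
    rcases h₂ with ⟨f1, f2, f3⟩ | ⟨X₂, Y₂, g₂, f1, f2, f3⟩
    · rw [f1] at hP2
      exact absurd hP2.symm (Affine.Point.some_ne_zero _)
    · rw [f1] at hP2
      injection hP2 with hX hY
      subst e1
      subst e2
      right
      refine ⟨X₂, Y₂, g₂, by rw [zero_add, f1], ?_, ?_⟩
      · have : t * (u₁ * v₂ - 0 * u₂) ^ 2 = t * (u₁ * v₂) ^ 2 := by ring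
        rw [this]
        exact mul_ne_zero ht (pow_ne_zero 2 (mul_ne_zero e3 f2))
      · have hu : u₂ = t * v₂ := by
          apply mul_left_cancel₀ hd
          rw [← f3, hX, hXt]; ring
        rw [hu, hX, hXt]; ring
  · rcases h₂ with ⟨f1, f2, f3⟩ | ⟨X₂, Y₂, g₂, f1, f2, f3⟩
    · -- P₂ = 0
      rw [e1, f1, sub_zero] at hdif
      injection hdif with hX hY
      subst f1
      subst f2
      right
      refine ⟨X₁, Y₁, g₁, by rw [add_zero, e1], ?_, ?_⟩
      · have : t * (u₁ * 0 - v₁ * u₂) ^ 2 = t * (v₁ * u₂) ^ 2 := by ring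
        rw [this]
        exact mul_ne_zero ht (pow_ne_zero 2 (mul_ne_zero e2 f3))
      · have hu : u₁ = t * v₁ := by
          apply mul_left_cancel₀ hd
          rw [← e3, hX, hXt]; ring
        rw [hu, hX, hXt]; ring
    · subst e1
      subst f1
      have q₁ := (tw_equation a b d X₁ Y₁).1 g₁.1
      have q₂ := (tw_equation a b d X₂ Y₂).1 g₂.1
      by_cases hX : X₁ = X₂
      · -- then `P₁ = ± P₂`
        rcases (Affine.Point.X_eq_iff (h₁ := g₁) (h₂ := g₂)).1 hX with hh | hh
        · rw [hh, sub_self] at hdif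
          exact absurd hdif.symm (Affine.Point.some_ne_zero _)
        · left
          refine ⟨by rw [hh, neg_add_cancel], ?_, ?_⟩
          · have : v₁ * u₂ = u₁ * v₂ := by
              apply mul_left_cancel₀ hd
              linear_combination (-v₁) * f3 + v₂ * e3 - (v₁ * v₂) * hX
            rw [this]; ring
          · intro hz
            have hz1 : u₁ * u₂ - b * v₁ * v₂ = 0 := pow_eq_zero_iff (two_ne_zero) |>.1 hz
            have hz2 : X₁ ^ 2 - b * d ^ 2 = 0 := by
              have : v₁ * v₂ * (X₁ ^ 2 - b * d ^ 2) = 0 := by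
                have : X₂ * v₂ = d * u₂ := f3
                rw [← hX] at this
                linear_combination d ^ 2 * hz1 + (X₁ * v₂) * e3 + d * u₁ * this
              rcases mul_eq_zero.1 this with h | h
              · exact absurd h (mul_ne_zero e2 f2)
              · exact h
            -- `P = P₁ - P₂ = 2 P₁`
            have hdif2 : Affine.Point.some X₁ Y₁ g₁ + Affine.Point.some X₁ Y₁ g₁
                = Affine.Point.some X Y hP := by
              rw [← hdif, sub_eq_add_neg, ← hh]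
            by_cases hY : 2 * Y₁ = 0
            · have hY0 : Y₁ = 0 := by
                rcases mul_eq_zero.1 hY with h | h
                · exact absurd h h2
                · exact h
              have : Affine.Point.some X₁ Y₁ g₁ + Affine.Point.some X₁ Y₁ g₁
                = (0 : (TW a b d).Point) := by
                apply Affine.Point.add_self_of_Y_eq
                rw [tw_negY, hY0, neg_zero]
              rw [this] at hdif2
              exact absurd hdif2.symm (Affine.Point.some_ne_zero _)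
            · obtain ⟨X₃, Y₃, h₃, k1, k2, -⟩ := tw_dbl g₁ hY
              rw [k1] at hdif2
              injection hdif2 with hX3 _
              rw [hX3, hXt, hz2] at k2
              have : d * t * (2 * Y₁) ^ 2 = 0 := by linear_combination k2
              exact (mul_ne_zero (mul_ne_zero hd ht) (pow_ne_zero 2 hY)) this
      · obtain ⟨X₃, Y₃, g₃, k1, k2, -⟩ := tw_add_X_ne g₁ g₂ hX
        have g₂' := (Affine.nonsingular_neg (W' := TW a b d) X₂ Y₂).2 g₂
        have hdif' : (Affine.Point.some X₁ Y₁ g₁ : (TW a b d).Point)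
            + Affine.Point.some X₂ ((TW a b d).negY X₂ Y₂) g₂' = Affine.Point.some X Y hP := by
          rw [← hdif, sub_eq_add_neg, Affine.Point.neg_some]
        obtain ⟨X₄, Y₄, g₄, l1, l2, -⟩ := tw_add_X_ne g₁ g₂' hX
        rw [l1] at hdif'
        injection hdif' with hX4 _
        rw [tw_negY] at l2
        have hs : X₁ - X₂ ≠ 0 := sub_ne_zero.2 hX
        -- key identity
        have key : X₃ * X₄ * (X₁ - X₂) ^ 2 = (X₁ * X₂ - b * d ^ 2) ^ 2 := by
          have hs2 : (X₁ - X₂) ^ 2 ≠ 0 := pow_ne_zero 2 hs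
          apply mul_left_cancel₀ hs2
          have : (X₁ - X₂) ^ 2 * (X₃ * X₄ * (X₁ - X₂) ^ 2)
              = (X₃ * (X₁ - X₂) ^ 2) * (X₄ * (X₁ - X₂) ^ 2) := by ring
          rw [this, k2, l2]
          linear_combination (norm := skip) ((Y₁ ^ 2 - Y₂ ^ 2) + (X₁ ^ 3 + a * d * X₁ ^ 2 + b * d ^ 2 * X₁) - (X₂ ^ 3 + a * d * X₂ ^ 2 + b * d ^ 2 * X₂) - 2 * (a * d + X₁ + X₂) * (X₁ - X₂) ^ 2 ) * q₁ + (-(Y₁ ^ 2 - Y₂ ^ 2) - (X₁ ^ 3 + a * d * X₁ ^ 2 + b * d ^ 2 * X₁) + (X₂ ^ 3 + a * d * X₂ ^ 2 + b * d ^ 2 * X₂) - 2 * (a * d + X₁ + X₂) * (X₁ - X₂) ^ 2) * q₂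
          ring
        right
        refine ⟨X₃, Y₃, g₃, k1, ?_, ?_⟩
        · apply mul_ne_zero ht
          apply pow_ne_zero
          intro hh
          apply hX
          have : v₁ * v₂ * (X₁ - X₂) = 0 := by
            linear_combination v₂ * e3 - v₁ * f3 + d * hh
          rcases mul_eq_zero.1 this with h | h
          · exact absurd h (mul_ne_zero e2 f2)
          · exact sub_eq_zero.1 h
        · rw [hX4, hXt] at key
          have m1 : v₁ * v₂ * (X₁ - X₂) = d * (u₁ * v₂ - v₁ * u₂) := by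
            linear_combination v₂ * e3 - v₁ * f3
          have m2 : v₁ * v₂ * (X₁ * X₂ - b * d ^ 2) = d ^ 2 * (u₁ * u₂ - b * v₁ * v₂) := by
            linear_combination (X₂ * v₂) * e3 + d * u₁ * f3
          have m3 : (v₁ * v₂) ^ 2 * (X₃ * (d * t) * (X₁ - X₂) ^ 2)
              = (v₁ * v₂) ^ 2 * (X₁ * X₂ - b * d ^ 2) ^ 2 := by rw [key]
          have m4 : X₃ * (d * t) * (d * (u₁ * v₂ - v₁ * u₂)) ^ 2
              = (d ^ 2 * (u₁ * u₂ - b * v₁ * v₂)) ^ 2 := by
            rw [← m1, ← m2]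
            linear_combination m3
          apply mul_left_cancel₀ (pow_ne_zero 3 hd)
          linear_combination m4

end Pool.Agent.Helper10.K3
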