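import Pool.Agent.Helper10.K3.DivPoly

/-!
# The groups of points over a finite prime field
-/

namespace Pool.Agent.Helper10.K3

open WeierstrassCurve Polynomial Finset

/-! ### A criterion for cyclicity -/

theorem isAddCyclic_of_prime_torsion {G : Type*} [AddCommGroup G] [Finite G]
    (h : ∀ l : ℕ, l.Prime → Nat.card {x : G // l • x = 0} ≤ l) : IsAddCyclic G := by
  classical
  have := Fintype.ofFinite G
  apply isAddCyclic_of_card_nsmul_eq_zero_le
  intro n
  induction n using Nat.strong_induction_on with
  | _ n ih =>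
    intro hn
    by_cases h1 : n = 1
    · subst h1
      have : ({a : G | 1 • a = 0} : Finset G) ⊆ {0} := by
        intro x hx
        simp only [one_smul, mem_filter, mem_univ, true_and] at hx
        simp [hx]
      exact (card_le_card this).trans (by simp)
    · set l := n.minFac with hl
      have hlp : l.Prime := Nat.minFac_prime h1
      obtain ⟨m, hm⟩ := Nat.minFac_dvd n
      rw [← hl] at hm
      have hm0 : 0 < m := by
        rcases Nat.eq_zero_or_pos m with h | h
        · rw [h] at hm; omega
        · exact h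
      have hmn : m < n := by
        rw [hm]
        have := hlp.two_le
        nlinarith
      have ihm := ih m hmn hm0
      have key := Finset.card_le_mul_card_image (s := ({a : G | n • a = 0} : Finset G))
        (f := fun x => l • x) l (by
          intro y hy
          obtain ⟨x₀, hx₀, rfl⟩ := mem_image.1 hy
          have h1 := h l hlp
          rw [Nat.card_eq_fintype_card, Fintype.card_subtype] at h1
          refine (card_le_card_of_injOn (fun x => x - x₀) ?_ ?_).trans h1
          · intro x hx
            simp only [coe_filter, mem_filter, mem_univ, true_and, Set.mem_ofPred_eq] at hx ⊢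
            rw [smul_sub, hx.2, sub_self]
          · intro x _ y _ hxy
            exact sub_left_injective hxy)
      refine key.trans ?_
      have himg : (({a : G | n • a = 0} : Finset G).image (fun x => l • x)) ⊆
          ({a : G | m • a = 0} : Finset G) := by
        intro y hy
        obtain ⟨x, hx, rfl⟩ := mem_image.1 hy
        simp only [mem_filter, mem_univ, true_and] at hx ⊢
        rw [← mul_nsmul', mul_comm, ← hm]
        exact hx
      calc l * _ ≤ l * m := Nat.mul_le_mul_left _ ((card_le_card himg).trans ihm)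
        _ = n := hm.symm

/-! ### Torsion -/

section torsion

variable {F : Type*} [Field F] [DecidableEq F] [Finite F]

omit [DecidableEq F] in
instance instFinitePoint (W : WeierstrassCurve.Affine F) : Finite W.Point := by
  have : Finite (WithZero {xy : F × F // W.Nonsingular xy.fst xy.snd}) :=
    inferInstanceAs (Finite (Option _))
  exact Finite.of_equiv _ (WeierstrassCurve.Affine.nonsingularPointEquiv W).symm

/-- `x`-coordinates (untwisted) of the nonzero `l`-torsion points. -/
noncomputable def torX (a b d : F) (l : ℕ) : Set F :=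
  {t | ∃ X Y, ∃ h : (TW a b d).Nonsingular X Y,
    X = d * t ∧ l • (Affine.Point.some X Y h : (TW a b d).Point) = 0}

theorem card_tor_le (a b d : F) (hd : d ≠ 0) (l : ℕ) :
    Nat.card {P : (TW a b d).Point // l • P = 0} ≤ 1 + 2 * (torX a b d l).ncard := by
  classical
  have := Fintype.ofFinite (TW a b d).Point
  have := Fintype.ofFinite F
  rw [Nat.card_eq_fintype_card, Fintype.card_subtype]
  set s : Finset (TW a b d).Point := {P | l • P = 0} with hs
  have h1 : #s ≤ 1 + #(s.erase 0) := by
    have := Finset.pred_card_le_card_erase (s := s) (a := (0 : (TW a b d).Point))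
    omega
  refine h1.trans (Nat.add_le_add_left ?_ 1)
  let φ : (TW a b d).Point → F := fun P => match P with
    | .zero => 0
    | .some X _ _ => X / d
  have key := Finset.card_le_mul_card_image (s := s.erase 0) (f := φ) 2 (by
    intro t ht
    obtain ⟨P, hP, rfl⟩ := mem_image.1 ht
    have : ({x ∈ s.erase 0 | φ x = φ P} : Finset _) ⊆ {P, -P} := by
      intro Q hQ
      simp only [mem_filter, mem_erase, ne_eq] at hQ
      simp only [mem_erase, ne_eq] at hP
      rcases P with _ | ⟨X, Y, h⟩
      · exact absurd rfl hP.1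
      rcases Q with _ | ⟨X', Y', h'⟩
      · exact absurd rfl hQ.1.1
      have hXX : X' = X := by
        have := hQ.2
        simp only [φ] at this
        field_simp at this
        exact this
      simp only [mem_insert, mem_singleton]
      exact (Affine.Point.X_eq_iff (h₁ := h') (h₂ := h)).1 hXX
    exact (card_le_card this).trans (Finset.card_le_two))
  refine key.trans (Nat.mul_le_mul_left 2 ?_)
  rw [Set.ncard_eq_toFinset_card']
  apply card_le_card
  intro t ht
  obtain ⟨P, hP, rfl⟩ := mem_image.1 ht
  simp only [hs, mem_erase, ne_eq, mem_filter, mem_univ, true_and] at hP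
  rcases P with _ | ⟨X, Y, h⟩
  · exact absurd rfl hP.1
  · rw [Set.mem_toFinset]
    refine ⟨X, Y, h, ?_, hP.2⟩
    simp only [φ]
    field_simp

omit [Finite F] in
theorem torX_disjoint {a b d d' : F} (hd : d ≠ 0) (hd' : d' ≠ 0)
    (hdd : ¬ IsSquare (d * d')) {l : ℕ} (hl : l % 2 = 1) :
    Disjoint (torX a b d l) (torX a b d' l) := by
  rw [Set.disjoint_left]
  rintro t ⟨X, Y, h, hX, h0⟩ ⟨X', Y', h', hX', h0'⟩
  apply hdd
  have e := (tw_equation a b d X Y).1 h.1
  have e' := (tw_equation a b d' X' Y').1 h'.1
  rw [hX] at e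
  rw [hX'] at e'
  have hY : Y ≠ 0 := by
    intro hY
    have h2P : (Affine.Point.some X Y h : (TW a b d).Point) + Affine.Point.some X Y h = 0 := by
      apply Affine.Point.add_self_of_Y_eq
      rw [tw_negY, hY, neg_zero]
    obtain ⟨k, hk⟩ : ∃ k, l = 2 * k + 1 := ⟨l / 2, by omega⟩
    rw [hk, add_smul, one_smul, mul_comm, mul_nsmul', two_nsmul, h2P, smul_zero, zero_add] at h0
    exact Affine.Point.some_ne_zero _ h0
  have e1 : Y ^ 2 = d ^ 3 * (t ^ 3 + a * t ^ 2 + b * t) := by linear_combination e
  have e2 : Y' ^ 2 = d' ^ 3 * (t ^ 3 + a * t ^ 2 + b * t) := by linear_combination e'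
  set f := t ^ 3 + a * t ^ 2 + b * t with hf
  have hf0 : f ≠ 0 := by
    intro h0
    rw [h0, mul_zero] at e1
    exact hY (pow_eq_zero_iff (two_ne_zero) |>.1 e1)
  refine ⟨Y * Y' / (d * d' * f), ?_⟩
  field_simp
  linear_combination (-Y' ^ 2) * e1 - d ^ 3 * f * e2

omit [Finite F] in
theorem torX_subset_roots {a b d : F} (hd : d ≠ 0) {l : ℕ}
    (hl : l % 2 = 1) {Ψ : F[X]} (hΨ0 : Ψ ≠ 0)
    (hΨ : ∀ d : F, d ≠ 0 → ∀ t : F, t ≠ 0 → ∀ X Y : F, ∀ h : (TW a b d).Nonsingular X Y,
        X = d * t → l • Affine.Point.some X Y h = 0 → Ψ.eval t = 0) :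
    torX a b d l ⊆ (Ψ.roots.toFinset : Set F) := by
  rintro t ⟨X, Y, h, hX, h0⟩
  have ht : t ≠ 0 := by
    rintro rfl
    rw [mul_zero] at hX
    subst hX
    have e := (tw_equation a b d 0 Y).1 h.1
    have hY : Y = 0 := by
      have : Y ^ 2 = 0 := by linear_combination e
      exact pow_eq_zero_iff (two_ne_zero) |>.1 this
    have h2P : (Affine.Point.some 0 Y h : (TW a b d).Point) + Affine.Point.some 0 Y h = 0 := by
      apply Affine.Point.add_self_of_Y_eq
      rw [tw_negY, hY, neg_zero]
    obtain ⟨k, hk⟩ : ∃ k, l = 2 * k + 1 := ⟨l / 2, by omega⟩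
    rw [hk, add_smul, one_smul, mul_comm, mul_nsmul', two_nsmul, h2P, smul_zero, zero_add] at h0
    exact Affine.Point.some_ne_zero _ h0
  simp only [Finset.mem_coe, Multiset.mem_toFinset, mem_roots hΨ0, IsRoot.def]
  exact hΨ d hd t ht X Y h hX h0

/-- the bound for the `l`-torsion of two opposite twists. -/
theorem card_tor_add_le (h2 : (2 : F) ≠ 0) {a b d d' : F} (hb : b ≠ 0)
    (hab : a ^ 2 - 4 * b ≠ 0) (hd : d ≠ 0) (hd' : d' ≠ 0)
    (hdd : ¬ IsSquare (d * d')) {l : ℕ} (hl : l % 2 = 1) (hlF : (l : F) ≠ 0) :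
    Nat.card {P : (TW a b d).Point // l • P = 0} +
      Nat.card {P : (TW a b d').Point // l • P = 0} ≤ l ^ 2 + 1 := by
  classical
  have := Fintype.ofFinite F
  obtain ⟨Ψ, hΨ0, hdeg, hΨ⟩ := exists_divPoly h2 hb hab l hl hlF
  have s1 := torX_subset_roots hd hl hΨ0 hΨ
  have s2 := torX_subset_roots hd' hl hΨ0 hΨ
  have hdis := torX_disjoint (a := a) (b := b) hd hd' hdd hl
  have hcard : (torX a b d l).ncard + (torX a b d' l).ncard ≤ (l ^ 2 - 1) / 2 := by
    rw [← Set.ncard_union_eq hdis (Set.toFinite _) (Set.toFinite _)]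
    calc (torX a b d l ∪ torX a b d' l).ncard
        ≤ ((Ψ.roots.toFinset : Finset F) : Set F).ncard :=
          Set.ncard_le_ncard (Set.union_subset s1 s2) (Set.toFinite _)
      _ = #(Ψ.roots.toFinset) := Set.ncard_coe_finset _
      _ ≤ Multiset.card Ψ.roots := Multiset.toFinset_card_le _
      _ ≤ Ψ.natDegree := Ψ.card_roots'
      _ ≤ _ := hdeg
  have c1 := card_tor_le a b d hd l
  have c2 := card_tor_le a b d' hd' l
  have hl2 : 1 ≤ l ^ 2 := Nat.one_le_pow _ _ (by omega)
  omega

end torsion

end Pool.Agent.Helper10.K3
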