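import Pool.Agent.Helper10.K3.Reduc

/-!
# The reduction homomorphism and the structure of the unramified twists
-/

namespace Pool.Agent.Helper10.K3

open WeierstrassCurve PadicInt

variable {p : ℕ} [Fact p.Prime]

theorem scal_surjective {F : Type*} [Field F] [DecidableEq F] {a b d d' c : F} {h2 : (2 : F) ≠ 0}
    {hb : b ≠ 0} {hab : a ^ 2 - 4 * b ≠ 0} {hd0 : d' ≠ 0} {hd' : d' = d * c ^ 2} (hd : d ≠ 0) :
    Function.Surjective (scal a b d d' c h2 hb hab hd0 hd') := by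
  have hc : c ≠ 0 := by
    rintro rfl
    apply hd0
    rw [hd']; ring
  rintro (_ | ⟨X, Y, h⟩)
  · exact ⟨0, map_zero _⟩
  · have q := (tw_equation _ _ _ _ _).1 h.1
    have q' : (Y / c ^ 3) ^ 2 = (X / c ^ 2) ^ 3 + a * d * (X / c ^ 2) ^ 2 + b * d ^ 2 * (X / c ^ 2) := by
      rw [hd'] at q
      field_simp
      linear_combination q
    refine ⟨.some (X / c ^ 2) (Y / c ^ 3) (tw_nonsingular _ _ _ h2 hb hd hab q'), ?_⟩
    rw [scal_some]
    simp only [Affine.Point.some.injEq]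
    constructor <;> field_simp

theorem p_ne : ((p : ℤ_[p]) : ℚ_[p]) ≠ 0 := by
  have : (p : ℚ_[p]) ≠ 0 := by exact_mod_cast (Fact.out : p.Prime).ne_zero
  simpa using this

section

variable {a b d : ℤ_[p]}

/-- scaling by `p`. -/
noncomputable def scp (H : GoodRed a b d) :
    (TW (a : ℚ_[p]) b d).Point →+ (TW (a : ℚ_[p]) b ((d * p ^ 2 : ℤ_[p]) : ℚ_[p])).Point :=
  scal (a : ℚ_[p]) b d ((d * p ^ 2 : ℤ_[p]) : ℚ_[p]) (p : ℚ_[p]) two_ne_zero H.b_ne H.ab_ne
    (by
      push_cast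
      exact mul_ne_zero H.d_ne (pow_ne_zero 2 (by exact_mod_cast (Fact.out : p.Prime).ne_zero)))
    (by push_cast; ring)

theorem scp_surjective (H : GoodRed a b d) : Function.Surjective (scp H) :=
  scal_surjective H.d_ne

theorem norm_Y_sq' {X Y : ℚ_[p]} (hX : 1 < ‖X‖)
    (h : Y ^ 2 = X ^ 3 + a * d * X ^ 2 + b * d ^ 2 * X) : ‖Y‖ ^ 2 = ‖X‖ ^ 3 := by
  have hX0 : X ≠ 0 := by
    rintro rfl
    rw [norm_zero] at hX
    linarith
  have e : Y ^ 2 = X ^ 3 * (1 + ((a * d + b * d ^ 2 / X) / X)) := by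
    rw [h]; field_simp; ring
  have n1 : ‖(a : ℚ_[p]) * d‖ ≤ 1 := by
    have : ((a * d : ℤ_[p]) : ℚ_[p]) = a * d := by push_cast; rfl
    rw [← this]; exact norm_coe_le_one _
  have n2 : ‖(b : ℚ_[p]) * d ^ 2 / X‖ ≤ 1 := by
    have : ((b * d ^ 2 : ℤ_[p]) : ℚ_[p]) = b * d ^ 2 := by push_cast; rfl
    rw [← this, norm_div, div_le_one (by linarith)]
    exact (norm_coe_le_one _).trans hX.le
  have n3 : ‖((a : ℚ_[p]) * d + b * d ^ 2 / X) / X‖ < 1 := by
    rw [norm_div, div_lt_one (by linarith)]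
    exact ((Padic.nonarchimedean _ _).trans (max_le n1 n2)).trans_lt hX
  rw [← norm_pow, e, norm_mul, norm_one_add n3, norm_pow, mul_one]

/-- the kernel of reduction corresponds to the bottom of the filtration. -/
theorem inKer_iff (H : GoodRed a b d) (P : (TW (a : ℚ_[p]) b d).Point) :
    InKer a b d P ↔ scp H P ∈ Fil a b (d * p ^ 2) 0 := by
  have hδ : (p : ℤ_[p]) ∣ d * p ^ 2 := ⟨d * p, by ring⟩
  have hp1 := one_lt_p_real (p := p)
  have hp0 := p_pos_real (p := p)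
  constructor
  · rintro (rfl | ⟨X, Y, h, rfl, hX⟩)
    · rw [map_zero]
      exact Fil.zero_mem 0
    · rw [scp, scal_some]
      apply mem_Fil_of_norm hδ
      have q := (tw_equation _ _ _ _ _).1 h.1
      have hn := norm_Y_sq' hX q
      have hX0 : X ≠ 0 := by
        rintro rfl
        rw [norm_zero] at hX
        linarith
      have hY0 : Y ≠ 0 := by
        rintro rfl
        rw [norm_zero] at hn
        have : 0 < ‖X‖ ^ 3 := by positivity
        rw [← hn] at this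
        norm_num at this
      have vX := Padic.norm_eq_zpow_neg_valuation hX0
      have vY := Padic.norm_eq_zpow_neg_valuation hY0
      rw [vX, vY, ← zpow_natCast, ← zpow_natCast, ← zpow_mul, ← zpow_mul] at hn
      have hval := zpow_right_injective₀ hp0 hp1.ne' hn
      rw [vX] at hX
      have hpos : 0 < -X.valuation := by
        by_contra hc
        push Not at hc
        have : (p : ℝ) ^ (-X.valuation) ≤ 1 := zpow_le_one_of_nonpos₀ hp1.le hc
        linarith
      have h2 : 2 ≤ -X.valuation := by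
        push_cast at hval
        omega
      rw [pow_zero, one_pow, norm_mul, norm_pow, Padic.norm_p, vX]
      have h3 : (p : ℝ) ^ (2 : ℤ) ≤ (p : ℝ) ^ (-X.valuation) := zpow_le_zpow_right₀ hp1.le h2
      calc (1 : ℝ) = ((p : ℝ)⁻¹) ^ 2 * (p : ℝ) ^ (2 : ℤ) := by
            rw [zpow_ofNat]; field_simp
        _ ≤ _ := mul_le_mul_of_nonneg_left h3 (by positivity)
  · intro h
    rcases P with _ | ⟨X, Y, g⟩
    · exact Or.inl rfl
    · right
      refine ⟨X, Y, g, rfl, ?_⟩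
      rw [scp, scal_some] at h
      have h1 := (norm_of_mem_Fil hδ h).1
      rw [pow_zero, one_pow, norm_mul, norm_pow, Padic.norm_p] at h1
      by_contra hc
      push Not at hc
      have h2 : ((p : ℝ)⁻¹) ^ 2 < 1 := pow_lt_one₀ (by positivity) (inv_lt_one_of_one_lt₀ hp1) two_ne_zero
      nlinarith [norm_nonneg X, sq_nonneg ((p : ℝ)⁻¹)]

theorem InKer.add (H : GoodRed a b d) {P Q : (TW (a : ℚ_[p]) b d).Point} (h : InKer a b d P)
    (h' : InKer a b d Q) : InKer a b d (P + Q) := by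
  rw [inKer_iff H] at h h' ⊢
  rw [map_add]
  have hδ : (p : ℤ_[p]) ∣ d * p ^ 2 := ⟨d * p, by ring⟩
  exact Fil.add_mem hδ h h'

theorem InKer.neg {P : (TW (a : ℚ_[p]) b d).Point} (h : InKer a b d P) : InKer a b d (-P) := by
  rcases h with h1 | ⟨X, Y, h', e, hX⟩
  · left; rw [h1]; rfl
  · right
    rw [e]
    exact ⟨_, _, _, Affine.Point.neg_some h', hX⟩

theorem Red.zero_iff {P : (TW (a : ℚ_[p]) b d).Point} : Red a b d P 0 ↔ InKer a b d P := by
  constructor
  · rintro (⟨h, -⟩ | ⟨x, y, h, h', -, e⟩)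
    · exact h
    · exact absurd e.symm (Affine.Point.some_ne_zero _)
  · intro h
    exact Or.inl ⟨h, rfl⟩

theorem Red.add_ker (H : GoodRed a b d) {P₁ P₂ : (TW (a : ℚ_[p]) b d).Point}
    {R₂ : (TW (toZMod a) (toZMod b) (toZMod d)).Point} (h₁ : InKer a b d P₁)
    (h₂ : Red a b d P₂ R₂) : Red a b d (P₁ + P₂) R₂ := by
  rcases h₂ with ⟨h₂, rfl⟩ | ⟨x, y, g, g', rfl, rfl⟩
  · exact Or.inl ⟨InKer.add H h₁ h₂, rfl⟩
  · obtain ⟨P₃, hP₃⟩ : ∃ P₃, P₃ = P₁ + Affine.Point.some (x : ℚ_[p]) (y : ℚ_[p]) g := ⟨_, rfl⟩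
    rw [← hP₃]
    obtain ⟨R₃, h₃⟩ := Red.exists H P₃
    rcases h₃ with ⟨h₃, -⟩ | ⟨x₃, y₃, k, k', e, e'⟩
    · exfalso
      have : Affine.Point.some (x : ℚ_[p]) (y : ℚ_[p]) g = -P₁ + P₃ := by rw [hP₃]; abel
      have hk := InKer.add H h₁.neg h₃
      rw [← this] at hk
      exact hk.not_int
    · have r2 : Red a b d (Affine.Point.some (x : ℚ_[p]) (y : ℚ_[p]) g)
          (Affine.Point.some (toZMod x) (toZMod y) g') := Or.inr ⟨x, y, g, g', rfl, rfl⟩
      have r2n := r2.neg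
      -- write `-P₂` as an affine point
      have hP1 : P₁ = P₃ + -(Affine.Point.some (x : ℚ_[p]) (y : ℚ_[p]) g) := by rw [hP₃]; abel
      rcases r2n with ⟨r, -⟩ | ⟨x', y', m, m', f, f'⟩
      · exfalso
        have := r.neg
        rw [neg_neg] at this
        exact this.not_int
      · have r3 := Red.add_aff H k m k' m'
        rw [← e, ← f, ← f', ← hP1] at r3
        have r1 : Red a b d P₁ 0 := Or.inl ⟨h₁, rfl⟩
        have := r3.unique r1
        have e3 : Affine.Point.some (toZMod x₃) (toZMod y₃) k'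
            = Affine.Point.some (toZMod x) (toZMod y) g' := by
          rw [← sub_eq_zero, sub_eq_add_neg]
          exact this
        exact Or.inr ⟨x₃, y₃, k, k', e, e3.symm⟩

theorem Red.add (H : GoodRed a b d) {P₁ P₂ : (TW (a : ℚ_[p]) b d).Point}
    {R₁ R₂ : (TW (toZMod a) (toZMod b) (toZMod d)).Point} (h₁ : Red a b d P₁ R₁)
    (h₂ : Red a b d P₂ R₂) : Red a b d (P₁ + P₂) (R₁ + R₂) := by
  rcases h₁ with ⟨h₁, rfl⟩ | ⟨x, y, g, g', rfl, rfl⟩
  · rw [zero_add]
    exact Red.add_ker H h₁ h₂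
  · rcases h₂ with ⟨h₂, rfl⟩ | ⟨x₂, y₂, k, k', rfl, rfl⟩
    · rw [add_zero, add_comm]
      exact Red.add_ker H h₂ (Or.inr ⟨x, y, g, g', rfl, rfl⟩)
    · exact Red.add_aff H g k g' k'

/-- the reduction homomorphism. -/
noncomputable def redHom (H : GoodRed a b d) :
    (TW (a : ℚ_[p]) b d).Point →+ (TW (toZMod a) (toZMod b) (toZMod d)).Point :=
  AddMonoidHom.mk' (fun P => (Red.exists H P).choose) (fun P Q =>
    Red.unique (Red.exists H (P + Q)).choose_spec
      (Red.add H (Red.exists H P).choose_spec (Red.exists H Q).choose_spec))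

theorem redHom_spec (H : GoodRed a b d) (P : (TW (a : ℚ_[p]) b d).Point) :
    Red a b d P (redHom H P) := (Red.exists H P).choose_spec

theorem redHom_eq_zero_iff (H : GoodRed a b d) (P : (TW (a : ℚ_[p]) b d).Point) :
    redHom H P = 0 ↔ scp H P ∈ Fil a b (d * p ^ 2) 0 := by
  rw [← inKer_iff, ← Red.zero_iff]
  constructor
  · intro h
    have := redHom_spec H P
    rwa [h] at this
  · intro h
    exact Red.unique (redHom_spec H P) h

/-- structure of the unramified twists modulo the bottom of the filtration -/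
theorem unram_structure (H : GoodRed a b d)
    (hcyc : IsAddCyclic (TW (toZMod a) (toZMod b) (toZMod d)).Point) {N : ℕ}
    (hN : ∀ R : (TW (toZMod a) (toZMod b) (toZMod d)).Point, N • R = 0) :
    (∃ g₁ : (TW (a : ℚ_[p]) b ((d * p ^ 2 : ℤ_[p]) : ℚ_[p])).Point,
      ∀ P : (TW (a : ℚ_[p]) b ((d * p ^ 2 : ℤ_[p]) : ℚ_[p])).Point, ∃ k : ℤ,
        P - k • g₁ ∈ Fil a b (d * p ^ 2) 0) ∧
    ∀ P : (TW (a : ℚ_[p]) b ((d * p ^ 2 : ℤ_[p]) : ℚ_[p])).Point,
      N • P ∈ Fil a b (d * p ^ 2) 0 := by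
  constructor
  · obtain ⟨⟨R, hR⟩, hg⟩ := (inferInstance : IsAddCyclic (redHom H).range)
    obtain ⟨G, hG⟩ := hR
    refine ⟨scp H G, fun P => ?_⟩
    obtain ⟨P', rfl⟩ := scp_surjective H P
    obtain ⟨k, hk⟩ := hg ⟨redHom H P', ⟨P', rfl⟩⟩
    refine ⟨k, ?_⟩
    rw [← map_zsmul, ← map_sub, ← redHom_eq_zero_iff, map_sub, map_zsmul, hG, sub_eq_zero]
    have := congrArg Subtype.val hk
    exact this.symm
  · intro P
    obtain ⟨P', rfl⟩ := scp_surjective H P
    rw [← map_nsmul, ← redHom_eq_zero_iff, map_nsmul]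
    exact hN _

end

end Pool.Agent.Helper10.K3
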