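import Pool.Agent.Helper10.K3.XRep

/-!
# Polynomials for multiples of a point on the twists of a curve
-/

namespace Pool.Agent.Helper10.K3

open WeierstrassCurve Polynomial

variable {F : Type*} [Field F] [DecidableEq F]

omit [DecidableEq F] in
private theorem coeff_mul_top {p q : F[X]} {m n k : ℕ} (hk : m + n = k)
    (hp : p.natDegree ≤ m) (hq : q.natDegree ≤ n) :
    (p * q).natDegree ≤ k ∧ (p * q).coeff k = p.coeff m * q.coeff n := by
  subst hk
  exact ⟨natDegree_mul_le.trans (add_le_add hp hq), coeff_mul_add_eq_of_natDegree_le hp hq⟩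

omit [DecidableEq F] in
private theorem natDegree_sub_le_max {p q : F[X]} {m : ℕ} (hp : p.natDegree ≤ m)
    (hq : q.natDegree ≤ m) : (p - q).natDegree ≤ m := by
  have := natDegree_sub_le_of_le hp hq
  simpa using this

omit [DecidableEq F] in
private theorem coeff_lt {p : F[X]} {m n : ℕ} (hp : p.natDegree ≤ m) (h : m < n) :
    p.coeff n = 0 := coeff_eq_zero_of_natDegree_lt (hp.trans_lt h)

/-- the properties of the pair of polynomials describing `x(n P)`. -/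
structure MulData (a b : F) (n : ℕ) (U V : F[X]) : Prop where
  degU : U.natDegree ≤ n ^ 2
  topU : U.coeff (n ^ 2) = 1
  degV : V.natDegree ≤ n ^ 2 - 1
  topV : V.coeff (n ^ 2 - 1) = (n : F) ^ 2
  odd_dvd : n % 2 = 1 → (Polynomial.X : F[X]) ∣ U
  even_dvd : n % 2 = 0 → (Polynomial.X : F[X]) ∣ V
  odd_sq : n % 2 = 1 → ∃ C : F[X], V = C ^ 2 ∧ C.natDegree ≤ (n ^ 2 - 1) / 2 ∧
    C.coeff ((n ^ 2 - 1) / 2) = (n : F)
  rep : ∀ d : F, d ≠ 0 → ∀ t : F, t ≠ 0 → ∀ X Y : F, ∀ h : (TW a b d).Nonsingular X Y,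
    X = d * t → Rep a b d (n • Affine.Point.some X Y h) (U.eval t) (V.eval t)

theorem mulData_one (a b : F) : MulData a b 1 (Polynomial.X : F[X]) 1 where
  degU := by simp
  topU := by simp
  degV := by simp
  topV := by simp
  odd_dvd := fun _ => dvd_rfl
  even_dvd := fun h => by omega
  odd_sq := fun _ => ⟨1, by simp, by simp, by simp⟩
  rep := by
    intro d hd t ht X Y h hX
    right
    refine ⟨X, Y, h, by simp, by simp, by simp [hX]⟩

theorem mulData_even (h2 : (2 : F) ≠ 0) {a b : F} (hb : b ≠ 0) (hab : a ^ 2 - 4 * b ≠ 0)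
    {k : ℕ} (hk : 1 ≤ k) {U V : F[X]} (D : MulData a b k U V) :
    ∃ U' V' : F[X], MulData a b (2 * k) U' V' := by
  have hk2 : 1 ≤ k ^ 2 := Nat.one_le_pow _ _ hk
  refine ⟨(U ^ 2 - C b * V ^ 2) ^ 2, 4 * U * V * (U ^ 2 + C a * U * V + C b * V ^ 2), ?_⟩
  obtain ⟨du2, tu2⟩ := coeff_mul_top (k := 2 * k ^ 2) (by ring) D.degU D.degU
  obtain ⟨dv2, tv2⟩ := coeff_mul_top (k := 2 * k ^ 2 - 2) (by omega) D.degV D.degV
  obtain ⟨duv, tuv⟩ := coeff_mul_top (k := 2 * k ^ 2 - 1) (by omega) D.degU D.degV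
  have hA : (U ^ 2 - C b * V ^ 2).natDegree ≤ 2 * k ^ 2 := by
    refine natDegree_sub_le_max ?_ ?_
    · rw [sq]; exact du2
    · refine (natDegree_C_mul_le _ _).trans ?_
      rw [sq]; exact dv2.trans (by omega)
  have hAt : (U ^ 2 - C b * V ^ 2).coeff (2 * k ^ 2) = 1 := by
    rw [coeff_sub, coeff_C_mul, sq U, tu2, sq V, coeff_lt dv2 (by omega), D.topU]
    ring
  have hB : (U ^ 2 + C a * U * V + C b * V ^ 2).natDegree ≤ 2 * k ^ 2 := by
    refine natDegree_add_le_of_degree_le (natDegree_add_le_of_degree_le ?_ ?_) ?_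
    · rw [sq]; exact du2
    · rw [mul_assoc]
      exact (natDegree_C_mul_le _ _).trans (duv.trans (by omega))
    · refine (natDegree_C_mul_le _ _).trans ?_
      rw [sq]; exact dv2.trans (by omega)
  have hBt : (U ^ 2 + C a * U * V + C b * V ^ 2).coeff (2 * k ^ 2) = 1 := by
    rw [coeff_add, coeff_add, coeff_C_mul, mul_assoc, coeff_C_mul, sq U, tu2, sq V,
      coeff_lt dv2 (by omega), coeff_lt duv (by omega), D.topU]
    ring
  obtain ⟨dA, tA⟩ := coeff_mul_top (k := (2 * k) ^ 2) (by ring) hA hA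
  have hUV4 : (4 * U * V).natDegree ≤ 2 * k ^ 2 - 1 := by
    have : (4 * U * V : F[X]) = C 4 * (U * V) := by
      rw [show (C 4 : F[X]) = 4 from rfl]; ring
    rw [this]
    exact (natDegree_C_mul_le _ _).trans duv
  have hUV4t : (4 * U * V).coeff (2 * k ^ 2 - 1) = 4 * (k : F) ^ 2 := by
    have : (4 * U * V : F[X]) = C 4 * (U * V) := by
      rw [show (C 4 : F[X]) = 4 from rfl]; ring
    rw [this, coeff_C_mul, tuv, D.topU, D.topV]
    ring
  obtain ⟨dB, tB⟩ := coeff_mul_top (k := (2 * k) ^ 2 - 1)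
    (by have : (2 * k) ^ 2 = 4 * k ^ 2 := by ring
        omega) hUV4 hB
  refine ⟨by rw [sq (U ^ 2 - C b * V ^ 2)]; exact dA, ?_, dB, ?_, fun h => by omega, ?_,
    fun h => by omega, ?_⟩
  · rw [sq (U ^ 2 - C b * V ^ 2), tA, hAt]; ring
  · rw [tB, hUV4t, hBt]; push_cast; ring
  · intro _
    rcases Nat.mod_two_eq_zero_or_one k with h | h
    · exact Dvd.dvd.mul_right (Dvd.dvd.mul_left (D.even_dvd h) _) _
    · exact Dvd.dvd.mul_right (Dvd.dvd.mul_right (Dvd.dvd.mul_left (D.odd_dvd h) _) _) _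
  · intro d hd t ht X Y h hX
    have := Rep.dbl h2 hb hd hab (D.rep d hd t ht X Y h hX)
    rw [← two_nsmul, ← mul_nsmul'] at this
    convert this using 1
    · simp
    · simp

theorem mulData_odd (h2 : (2 : F) ≠ 0) {a b : F} (hb : b ≠ 0)
    {k : ℕ} (hk : 1 ≤ k) {U V U₁ V₁ : F[X]} (D : MulData a b k U V)
    (D₁ : MulData a b (k + 1) U₁ V₁) :
    ∃ U' V' : F[X], MulData a b (2 * k + 1) U' V' := by
  have hk2 : 1 ≤ k ^ 2 := Nat.one_le_pow _ _ hk
  have hk3 : (k + 1) ^ 2 = k ^ 2 + 2 * k + 1 := by ring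
  have hk4 : (2 * k + 1) ^ 2 = 4 * k ^ 2 + 4 * k + 1 := by ring
  have hdiv : (Polynomial.X : F[X]) ∣ U * U₁ - C b * V * V₁ := by
    rcases Nat.mod_two_eq_zero_or_one k with h | h
    · exact dvd_sub (Dvd.dvd.mul_left (D₁.odd_dvd (by omega)) _)
        (Dvd.dvd.mul_right (Dvd.dvd.mul_left (D.even_dvd h) _) _)
    · exact dvd_sub (Dvd.dvd.mul_right (D.odd_dvd h) _)
        (Dvd.dvd.mul_left (D₁.even_dvd (by omega)) _)
  obtain ⟨G, hG⟩ := hdiv
  obtain ⟨d1, t1⟩ := coeff_mul_top (k := 2 * k ^ 2 + 2 * k + 1) (by rw [hk3]; ring) D.degU D₁.degU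
  obtain ⟨d2, t2⟩ := coeff_mul_top (k := 2 * k ^ 2 + 2 * k - 1) (by rw [hk3]; omega) D.degV D₁.degV
  obtain ⟨d3, t3⟩ := coeff_mul_top (k := 2 * k ^ 2 + 2 * k) (by rw [hk3]; omega) D.degU D₁.degV
  obtain ⟨d4, t4⟩ := coeff_mul_top (k := 2 * k ^ 2 + 2 * k) (by rw [hk3]; omega) D.degV D₁.degU
  have hXG : (Polynomial.X * G).natDegree ≤ 2 * k ^ 2 + 2 * k + 1 := by
    rw [← hG]
    refine natDegree_sub_le_max d1 ?_
    rw [mul_assoc]
    exact (natDegree_C_mul_le _ _).trans (d2.trans (by omega))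
  have hXGt : (Polynomial.X * G).coeff (2 * k ^ 2 + 2 * k + 1) = 1 := by
    rw [← hG, coeff_sub, mul_assoc, coeff_C_mul, t1, coeff_lt d2 (by omega), D.topU, D₁.topU]
    ring
  have hGd : G.natDegree ≤ 2 * k ^ 2 + 2 * k := by
    by_cases hG0 : G = 0
    · rw [hG0]; simp
    · rw [natDegree_X_mul hG0] at hXG
      omega
  have hGt : G.coeff (2 * k ^ 2 + 2 * k) = 1 := by
    rw [← hXGt, coeff_X_mul]
  have hCd : (U * V₁ - V * U₁).natDegree ≤ 2 * k ^ 2 + 2 * k := natDegree_sub_le_max d3 d4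
  have hCt : (U * V₁ - V * U₁).coeff (2 * k ^ 2 + 2 * k) = (2 * k + 1 : ℕ) := by
    rw [coeff_sub, t3, t4, D.topU, D.topV, D₁.topU, D₁.topV]
    push_cast
    ring
  obtain ⟨dG2, tG2⟩ := coeff_mul_top (k := 4 * k ^ 2 + 4 * k) (by ring) hGd hGd
  obtain ⟨dC2, tC2⟩ := coeff_mul_top (k := 4 * k ^ 2 + 4 * k) (by ring) hCd hCd
  have hhalf : ((2 * k + 1) ^ 2 - 1) / 2 = 2 * k ^ 2 + 2 * k := by rw [hk4]; omega
  have hm1 : (2 * k + 1) ^ 2 - 1 = 4 * k ^ 2 + 4 * k := by rw [hk4]; omega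
  refine ⟨Polynomial.X * G ^ 2, (U * V₁ - V * U₁) ^ 2, ?_⟩
  refine ⟨?_, ?_, ?_, ?_, fun _ => dvd_mul_right _ _, fun h => by omega, fun _ => ?_, ?_⟩
  · rw [hk4, sq G]
    refine natDegree_mul_le.trans ?_
    have := natDegree_X_le (R := F)
    omega
  · rw [hk4, coeff_X_mul, sq G, tG2, hGt]; ring
  · rw [hm1, sq]; exact dC2
  · rw [hm1, sq, tC2, hCt]; ring
  · refine ⟨U * V₁ - V * U₁, rfl, by rw [hhalf]; exact hCd, ?_⟩
    rw [hhalf, hCt]
  · intro d hd t ht X Y h hX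
    have r1 := D.rep d hd t ht X Y h hX
    have r2 := D₁.rep d hd t ht X Y h hX
    have hdif : (k + 1) • Affine.Point.some X Y h - k • Affine.Point.some X Y h
        = Affine.Point.some X Y h := by
      rw [add_smul, one_smul]; abel
    have r3 := Rep.dif h2 hb hd ht h hX hdif r2 r1
    rw [← add_smul, show k + 1 + k = 2 * k + 1 by ring] at r3
    have hGe := congrArg (Polynomial.eval t) hG
    simp only [eval_sub, eval_mul, eval_C, eval_X] at hGe
    have e1 : (eval t U₁ * eval t U - b * eval t V₁ * eval t V) ^ 2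
        = t * (t * (eval t G) ^ 2) := by
      have : eval t U₁ * eval t U - b * eval t V₁ * eval t V = t * eval t G := by
        rw [← hGe]; ring
      rw [this]; ring
    rw [e1, Rep.scale ht] at r3
    convert r3 using 1
    · simp
    · simp only [eval_pow, eval_sub, eval_mul]; ring

theorem exists_mulData (h2 : (2 : F) ≠ 0) {a b : F} (hb : b ≠ 0) (hab : a ^ 2 - 4 * b ≠ 0) :
    ∀ n : ℕ, 1 ≤ n → ∃ U V : F[X], MulData a b n U V := by
  intro n
  induction n using Nat.strong_induction_on with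
  | _ n ih =>
    intro hn
    rcases Nat.even_or_odd' n with ⟨k, rfl | rfl⟩
    · obtain ⟨U, V, D⟩ := ih k (by omega) (by omega)
      exact mulData_even h2 hb hab (by omega) D
    · rcases Nat.eq_zero_or_pos k with rfl | hk
      · exact ⟨_, _, mulData_one a b⟩
      · obtain ⟨U, V, D⟩ := ih k (by omega) hk
        obtain ⟨U₁, V₁, D₁⟩ := ih (k + 1) (by omega) (by omega)
        exact mulData_odd h2 hb hk D D₁

/-- For odd `n` prime to the characteristic there is a nonzero polynomial of degree at most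
`(n² - 1) / 2` vanishing at all `x`-coordinates of `n`-torsion points on all twists. -/
theorem exists_divPoly (h2 : (2 : F) ≠ 0) {a b : F} (hb : b ≠ 0) (hab : a ^ 2 - 4 * b ≠ 0)
    (n : ℕ) (hodd : n % 2 = 1) (hn : (n : F) ≠ 0) :
    ∃ Ψ : F[X], Ψ ≠ 0 ∧ Ψ.natDegree ≤ (n ^ 2 - 1) / 2 ∧
      ∀ d : F, d ≠ 0 → ∀ t : F, t ≠ 0 → ∀ X Y : F, ∀ h : (TW a b d).Nonsingular X Y,
        X = d * t → n • Affine.Point.some X Y h = 0 → Ψ.eval t = 0 := by
  obtain ⟨U, V, D⟩ := exists_mulData h2 hb hab n (by omega)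
  obtain ⟨C, hC, hCd, hCt⟩ := D.odd_sq hodd
  refine ⟨C, ?_, hCd, ?_⟩
  · intro h0
    rw [h0, coeff_zero] at hCt
    exact hn hCt.symm
  · intro d hd t ht X Y h hX h0
    have r := D.rep d hd t ht X Y h hX
    rcases r with ⟨-, hv, -⟩ | ⟨X', Y', h', e, -, -⟩
    · rw [hC, eval_pow] at hv
      exact pow_eq_zero_iff (two_ne_zero) |>.1 hv
    · rw [h0] at e
      exact absurd e.symm (Affine.Point.some_ne_zero _)

end Pool.Agent.Helper10.K3
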