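import Pool.Agent.Helper10.K3.Padic2

/-!
# Closeness of points over the `p`-adic numbers
-/

namespace Pool.Agent.Helper10.K3

open WeierstrassCurve

variable {p : ℕ} [Fact p.Prime]

section

variable {a b δ : ℤ_[p]}

theorem norm_coe (x : ℤ_[p]) : ‖(x : ℚ_[p])‖ = ‖x‖ := rfl

theorem norm_coe_le_one (x : ℤ_[p]) : ‖(x : ℚ_[p])‖ ≤ 1 := x.2

theorem norm_lt_one_of_dvd (hδ : (p : ℤ_[p]) ∣ δ) : ‖(δ : ℚ_[p])‖ < 1 := by
  rw [norm_coe]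
  exact PadicInt.norm_lt_one_iff_dvd _ |>.2 hδ

theorem norm_one_add {x : ℚ_[p]} (hx : ‖x‖ < 1) : ‖1 + x‖ = 1 := by
  rw [Padic.add_eq_max_of_ne (by rw [norm_one]; exact hx.ne'), norm_one]
  exact max_eq_left hx.le

theorem exists_coe_of_norm_le {x : ℚ_[p]} (hx : ‖x‖ ≤ 1) : ∃ z : ℤ_[p], (z : ℚ_[p]) = x :=
  ⟨⟨x, hx⟩, rfl⟩

/-- the norm of `Y` for a point near the origin. -/
theorem norm_Y_sq (hδ : (p : ℤ_[p]) ∣ δ) {X Y : ℚ_[p]} (hX : 1 ≤ ‖X‖)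
    (h : Y ^ 2 = X ^ 3 + a * δ * X ^ 2 + b * δ ^ 2 * X) : ‖Y‖ ^ 2 = ‖X‖ ^ 3 := by
  have hX0 : X ≠ 0 := by
    rintro rfl
    rw [norm_zero] at hX
    linarith
  have hd := norm_lt_one_of_dvd hδ
  have e : Y ^ 2 = X ^ 3 * (1 + δ * ((a + b * (δ / X)) / X)) := by
    rw [h]; field_simp; ring
  have hn1 : ‖(δ : ℚ_[p]) / X‖ ≤ 1 := by
    rw [norm_div, div_le_one (by linarith)]
    linarith
  have hn2 : ‖((a : ℚ_[p]) + b * (δ / X)) / X‖ ≤ 1 := by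
    rw [norm_div, div_le_one (by linarith)]
    refine (Padic.nonarchimedean _ _).trans (max_le ?_ ?_)
    · exact (norm_coe_le_one a).trans hX
    · rw [norm_mul]
      calc ‖(b : ℚ_[p])‖ * ‖(δ : ℚ_[p]) / X‖ ≤ 1 * 1 :=
            mul_le_mul (norm_coe_le_one b) hn1 (norm_nonneg _) zero_le_one
        _ ≤ ‖X‖ := by linarith
  have hn3 : ‖(δ : ℚ_[p]) * ((a + b * (δ / X)) / X)‖ < 1 := by
    rw [norm_mul]
    calc ‖(δ : ℚ_[p])‖ * ‖((a : ℚ_[p]) + b * (δ / X)) / X‖ ≤ ‖(δ : ℚ_[p])‖ * 1 :=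
          mul_le_mul_of_nonneg_left hn2 (norm_nonneg _)
      _ < 1 := by linarith
  rw [← norm_pow, e, norm_mul, norm_one_add hn3, norm_pow, mul_one]

theorem p_pos_real : (0 : ℝ) < p := by exact_mod_cast (Fact.out : p.Prime).pos

theorem one_lt_p_real : (1 : ℝ) < p := by exact_mod_cast (Fact.out : p.Prime).one_lt

theorem dvd_of_norm_le {z : ℤ_[p]} {n : ℕ} (h : ‖z‖ * (p : ℝ) ^ n ≤ 1) :
    (p : ℤ_[p]) ^ n ∣ z := by
  rw [← Ideal.mem_span_singleton, ← PadicInt.norm_le_pow_iff_mem_span_pow]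
  rw [zpow_neg, zpow_natCast]
  have : (0 : ℝ) < (p : ℝ) ^ n := pow_pos p_pos_real n
  rw [← one_div, le_div_iff₀ this]
  exact h

theorem norm_le_of_dvd {z : ℤ_[p]} {n : ℕ} (h : (p : ℤ_[p]) ^ n ∣ z) :
    ‖z‖ * (p : ℝ) ^ n ≤ 1 := by
  rw [← Ideal.mem_span_singleton, ← PadicInt.norm_le_pow_iff_mem_span_pow] at h
  rw [zpow_neg, zpow_natCast] at h
  have : (0 : ℝ) < (p : ℝ) ^ n := pow_pos p_pos_real n
  rwa [← one_div, le_div_iff₀ this] at h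

/-- F0, first direction: points with large `X` are in the filtration. -/
theorem mem_Fil_of_norm (hδ : (p : ℤ_[p]) ∣ δ) {n : ℕ} {X Y : ℚ_[p]}
    {h : (TW (a : ℚ_[p]) b δ).Nonsingular X Y} (hX : ((p : ℝ) ^ n) ^ 2 ≤ ‖X‖) :
    Affine.Point.some X Y h ∈ Fil a b δ n := by
  have hpn : 1 ≤ (p : ℝ) ^ n := one_le_pow₀ one_lt_p_real.le
  have hX1 : 1 ≤ ‖X‖ := (one_le_pow₀ hpn).trans hX
  have heq := (tw_equation _ _ _ X Y).1 h.1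
  have hY := norm_Y_sq hδ hX1 heq
  have hY1 : 1 ≤ ‖Y‖ := by
    by_contra hc
    push Not at hc
    have h1 : ‖Y‖ ^ 2 < 1 := pow_lt_one₀ (norm_nonneg _) hc two_ne_zero
    have h2 : 1 ≤ ‖X‖ ^ 3 := one_le_pow₀ hX1
    linarith
  have hY0 : Y ≠ 0 := by
    rintro rfl
    rw [norm_zero] at hY1
    linarith
  have hX0 : X ≠ 0 := by
    rintro rfl
    rw [norm_zero] at hX1
    linarith
  have hXp : 0 < ‖X‖ := by linarith
  have hZn : ‖X / Y‖ ^ 2 * ‖X‖ = 1 := by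
    rw [norm_div, div_pow, hY]
    field_simp
  have hZ1 : ‖X / Y‖ ≤ 1 := by
    by_contra hc
    push Not at hc
    have h1 : 1 < ‖X / Y‖ ^ 2 := one_lt_pow₀ hc two_ne_zero
    nlinarith
  obtain ⟨Z, hZ⟩ := exists_coe_of_norm_le hZ1
  obtain ⟨w, hw⟩ := exists_coe_of_norm_le (x := 1 / Y) (by
    rw [norm_div, norm_one, div_le_one (by linarith)]; exact hY1)
  refine ⟨Z, w, ⟨?_, Or.inr ⟨?_, X, Y, h, rfl, ?_, ?_⟩⟩, ?_⟩
  · apply coe_inj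
    push_cast
    rw [hZ, hw]
    field_simp
    linear_combination heq
  · rintro rfl
    have : (1 : ℚ_[p]) / Y = 0 := by rw [← hw]; rfl
    exact one_div_ne_zero hY0 this
  · rw [hw]; field_simp
  · rw [hZ]; field_simp
  · apply dvd_of_norm_le
    have hZc : ‖Z‖ = ‖X / Y‖ := by rw [← hZ]; rfl
    rw [hZc]
    by_contra hc
    push Not at hc
    have h1 : 1 < (‖X / Y‖ * (p : ℝ) ^ n) ^ 2 := one_lt_pow₀ hc two_ne_zero
    have h2 : (‖X / Y‖ * (p : ℝ) ^ n) ^ 2 ≤ ‖X / Y‖ ^ 2 * ‖X‖ := by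
      rw [mul_pow]
      exact mul_le_mul_of_nonneg_left hX (sq_nonneg _)
    rw [hZn] at h2
    linarith

/-- norms of the coordinates of a point near the origin. -/
theorem Par.norms (hδ : (p : ℤ_[p]) ∣ δ) {X Y : ℚ_[p]} {h : (TW (a : ℚ_[p]) b δ).Nonsingular X Y}
    {Z w : ℤ_[p]} (hP : Par a b δ (Affine.Point.some X Y h) Z w) :
    ‖X‖ * ‖Z‖ ^ 2 = 1 ∧ ‖Y‖ * ‖Z‖ ^ 3 = 1 := by
  rcases hP.2 with ⟨-, h2⟩ | ⟨hw, X', Y', h', e, h3, h4⟩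
  · exact absurd h2 (Affine.Point.some_ne_zero _)
  · injection e with eX eY
    subst eX
    subst eY
    have hu := isUnit_one_add hδ (-(a * Z ^ 2 + b * δ * Z * w))
    have hwZ : w * (1 + δ * (-(a * Z ^ 2 + b * δ * Z * w))) = Z ^ 3 := by
      linear_combination hP.1
    have hn : ‖w‖ = ‖Z‖ ^ 3 := by
      have := congrArg norm hwZ
      rw [norm_mul, PadicInt.isUnit_iff.1 hu, mul_one, norm_pow] at this
      exact this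
    have h5 : ‖Y‖ * ‖Z‖ ^ 3 = 1 := by
      have := congrArg norm h3
      rw [norm_mul, norm_one, norm_coe, hn] at this
      exact this
    refine ⟨?_, h5⟩
    rw [h4, norm_mul, norm_coe]
    calc ‖Z‖ * ‖Y‖ * ‖Z‖ ^ 2 = ‖Y‖ * ‖Z‖ ^ 3 := by ring
      _ = 1 := h5

/-- F0, second direction. -/
theorem norm_of_mem_Fil (hδ : (p : ℤ_[p]) ∣ δ) {n : ℕ} {X Y : ℚ_[p]}
    {h : (TW (a : ℚ_[p]) b δ).Nonsingular X Y} (hP : Affine.Point.some X Y h ∈ Fil a b δ n) :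
    ((p : ℝ) ^ n) ^ 2 ≤ ‖X‖ ∧ ‖Y‖ ^ 2 = ‖X‖ ^ 3 := by
  obtain ⟨Z, w, hZ, hdvd⟩ := hP
  obtain ⟨h1, h2⟩ := hZ.norms hδ
  have h3 := norm_le_of_dvd hdvd
  have hZ0 : 0 < ‖Z‖ := by
    rcases (norm_nonneg Z).eq_or_lt with h | h
    · rw [← h] at h1; norm_num at h1
    · exact h
  constructor
  · have h4 : (‖Z‖ * (p : ℝ) ^ n) ^ 2 ≤ 1 := pow_le_one₀ (by positivity) h3
    have : (((p : ℝ) ^ n) ^ 2) * ‖Z‖ ^ 2 ≤ ‖X‖ * ‖Z‖ ^ 2 := by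
      rw [h1]
      calc _ = (‖Z‖ * (p : ℝ) ^ n) ^ 2 := by ring
        _ ≤ 1 := h4
    exact le_of_mul_le_mul_right this (by positivity)
  · have h4 : ‖Y‖ ^ 2 * ‖Z‖ ^ 6 = ‖X‖ ^ 3 * ‖Z‖ ^ 6 := by
      calc ‖Y‖ ^ 2 * ‖Z‖ ^ 6 = (‖Y‖ * ‖Z‖ ^ 3) ^ 2 := by ring
        _ = (‖X‖ * ‖Z‖ ^ 2) ^ 3 := by rw [h1, h2]; norm_num
        _ = _ := by ring
    exact mul_right_cancel₀ (by positivity) h4

end

end Pool.Agent.Helper10.K3
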