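import Pool.Agent.Helper10.K3.Basic
import Pool.Agent.Helper10.K3.XRep

/-!
# Scaling isomorphisms between twists
-/

namespace Pool.Agent.Helper10.K3

open WeierstrassCurve

variable {F : Type*} [Field F] [DecidableEq F]

omit [DecidableEq F] in
theorem scal_eq {a b d d' c X Y : F} (hd' : d' = d * c ^ 2)
    (h : Y ^ 2 = X ^ 3 + a * d * X ^ 2 + b * d ^ 2 * X) :
    (c ^ 3 * Y) ^ 2 = (c ^ 2 * X) ^ 3 + a * d' * (c ^ 2 * X) ^ 2 + b * d' ^ 2 * (c ^ 2 * X) := by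
  rw [hd']
  linear_combination c ^ 6 * h

/-- the underlying map of the scaling homomorphism. -/
def scalFun (a b d d' c : F) (h2 : (2 : F) ≠ 0) (hb : b ≠ 0) (hab : a ^ 2 - 4 * b ≠ 0)
    (hd0 : d' ≠ 0) (hd' : d' = d * c ^ 2) : (TW a b d).Point → (TW a b d').Point
  | .zero => 0
  | .some X Y h => .some (c ^ 2 * X) (c ^ 3 * Y)
      (tw_nonsingular a b d' h2 hb hd0 hab (scal_eq hd' ((tw_equation a b d X Y).1 h.1)))

/-- the scaling homomorphism `(X, Y) ↦ (c² X, c³ Y)` from the twist by `d` to the twist by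
`d c²`. -/
def scal (a b d d' c : F) (h2 : (2 : F) ≠ 0) (hb : b ≠ 0) (hab : a ^ 2 - 4 * b ≠ 0)
    (hd0 : d' ≠ 0) (hd' : d' = d * c ^ 2) : (TW a b d).Point →+ (TW a b d').Point where
  toFun := scalFun a b d d' c h2 hb hab hd0 hd'
  map_zero' := rfl
  map_add' := by
    have hc : c ≠ 0 := by
      rintro rfl
      apply hd0
      rw [hd']; ring
    rintro (_ | ⟨X₁, Y₁, h₁⟩) (_ | ⟨X₂, Y₂, h₂⟩)
    · rfl
    · change scalFun a b d d' c h2 hb hab hd0 hd' (0 + _) = 0 + _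
      rw [zero_add, zero_add]
    · change scalFun a b d d' c h2 hb hab hd0 hd' (_ + 0) = _ + 0
      rw [add_zero, add_zero]
    · have k₁ := tw_nonsingular a b d' h2 hb hd0 hab
        (scal_eq hd' ((tw_equation a b d X₁ Y₁).1 h₁.1))
      have k₂ := tw_nonsingular a b d' h2 hb hd0 hab
        (scal_eq hd' ((tw_equation a b d X₂ Y₂).1 h₂.1))
      change scalFun a b d d' c h2 hb hab hd0 hd' (_ + _) =
        (Affine.Point.some _ _ k₁ : (TW a b d').Point) + Affine.Point.some _ _ k₂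
      by_cases hX : X₁ = X₂
      · subst hX
        by_cases hY : Y₁ = (TW a b d).negY X₁ Y₂
        · rw [Affine.Point.add_of_Y_eq rfl hY]
          rw [tw_negY] at hY
          rw [Affine.Point.add_of_Y_eq rfl (by rw [tw_negY, hY]; ring)]
          rfl
        · have q₁ := (tw_equation a b d X₁ Y₁).1 h₁.1
          have q₂ := (tw_equation a b d X₁ Y₂).1 h₂.1
          rw [tw_negY] at hY
          have hYY : Y₁ = Y₂ := by
            have : (Y₁ - Y₂) * (Y₁ + Y₂) = 0 := by linear_combination q₁ - q₂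
            rcases mul_eq_zero.1 this with h | h
            · exact sub_eq_zero.1 h
            · exact absurd (by linear_combination h) hY
          subst hYY
          have hY2 : 2 * Y₁ ≠ 0 := by
            intro h
            apply hY
            linear_combination h
          have hcY2 : 2 * (c ^ 3 * Y₁) ≠ 0 := by
            have : 2 * (c ^ 3 * Y₁) = c ^ 3 * (2 * Y₁) := by ring
            rw [this]
            exact mul_ne_zero (pow_ne_zero 3 hc) hY2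
          obtain ⟨X₃, Y₃, h₃, e1, e2, e3⟩ := tw_dbl h₁ hY2
          obtain ⟨X₃', Y₃', h₃', e1', e2', e3'⟩ := tw_dbl k₁ hcY2
          have hX3 : X₃' = c ^ 2 * X₃ := by
            apply mul_right_cancel₀ (pow_ne_zero 2 hcY2)
            rw [e2', hd']
            linear_combination (-c ^ 8) * e2
          have hY3 : Y₃' = c ^ 3 * Y₃ := by
            apply mul_right_cancel₀ hcY2
            rw [e3', hd', hX3]
            linear_combination (-c ^ 6) * e3
          rw [e1, e1']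
          subst hX3
          subst hY3
          rfl
      · have hcX : c ^ 2 * X₁ ≠ c ^ 2 * X₂ := fun h =>
          hX (mul_left_cancel₀ (pow_ne_zero 2 hc) h)
        obtain ⟨X₃, Y₃, h₃, e1, e2, e3⟩ := tw_add_X_ne h₁ h₂ hX
        obtain ⟨X₃', Y₃', h₃', e1', e2', e3'⟩ := tw_add_X_ne k₁ k₂ hcX
        have hX3 : X₃' = c ^ 2 * X₃ := by
          apply mul_right_cancel₀ (pow_ne_zero 2 (sub_ne_zero.2 hcX))
          rw [e2', hd']
          linear_combination (-c ^ 6) * e2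
        have hY3 : Y₃' = c ^ 3 * Y₃ := by
          apply mul_right_cancel₀ (sub_ne_zero.2 hcX)
          rw [e3', hX3]
          linear_combination (-c ^ 5) * e3
        rw [e1, e1']
        subst hX3
        subst hY3
        rfl

theorem scal_some {a b d d' c : F} {h2 : (2 : F) ≠ 0} {hb : b ≠ 0} {hab : a ^ 2 - 4 * b ≠ 0}
    {hd0 : d' ≠ 0} {hd' : d' = d * c ^ 2} {X Y : F} (h : (TW a b d).Nonsingular X Y) :
    scal a b d d' c h2 hb hab hd0 hd' (.some X Y h) = .some (c ^ 2 * X) (c ^ 3 * Y)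
      (tw_nonsingular a b d' h2 hb hd0 hab (scal_eq hd' ((tw_equation a b d X Y).1 h.1))) := rfl

theorem scal_injective {a b d d' c : F} {h2 : (2 : F) ≠ 0} {hb : b ≠ 0} {hab : a ^ 2 - 4 * b ≠ 0}
    {hd0 : d' ≠ 0} {hd' : d' = d * c ^ 2} :
    Function.Injective (scal a b d d' c h2 hb hab hd0 hd') := by
  have hc : c ≠ 0 := by
    rintro rfl
    apply hd0
    rw [hd']; ring
  rw [injective_iff_map_eq_zero]
  rintro (_ | ⟨X, Y, h⟩) h0
  · rfl
  · exact absurd h0 (Affine.Point.some_ne_zero _)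

theorem scal_scal {a b d d' d'' c c' : F} {h2 : (2 : F) ≠ 0} {hb : b ≠ 0}
    {hab : a ^ 2 - 4 * b ≠ 0}
    {hd0 : d' ≠ 0} {hd' : d' = d * c ^ 2} {hd0' : d'' ≠ 0} {hd'' : d'' = d' * c' ^ 2}
    (P : (TW a b d).Point) :
    scal a b d' d'' c' h2 hb hab hd0' hd'' (scal a b d d' c h2 hb hab hd0 hd' P) =
      scal a b d d'' (c' * c) h2 hb hab hd0' (by rw [hd'', hd']; ring) P := by
  rcases P with _ | ⟨X, Y, h⟩
  · rfl
  · simp only [scal_some, Affine.Point.some.injEq]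
    constructor <;> ring

theorem scal_one {a b d : F} {h2 : (2 : F) ≠ 0} {hb : b ≠ 0}
    {hab : a ^ 2 - 4 * b ≠ 0} {hd0 : d ≠ 0} {hd' : d = d * 1 ^ 2} (P : (TW a b d).Point) :
    scal a b d d 1 h2 hb hab hd0 hd' P = P := by
  rcases P with _ | ⟨X, Y, h⟩
  · rfl
  · simp only [scal_some, Affine.Point.some.injEq]
    constructor <;> ring

/-- addition in terms of `Y₁ + Y₂`. -/
theorem tw_add_Y_ne {a b d X₁ Y₁ X₂ Y₂ : F} (h₁ : (TW a b d).Nonsingular X₁ Y₁)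
    (h₂ : (TW a b d).Nonsingular X₂ Y₂) (hS : Y₁ + Y₂ ≠ 0) :
    ∃ X₃ Y₃, ∃ h₃ : (TW a b d).Nonsingular X₃ Y₃,
      (Affine.Point.some X₁ Y₁ h₁ + Affine.Point.some X₂ Y₂ h₂ : (TW a b d).Point)
        = Affine.Point.some X₃ Y₃ h₃ ∧
      X₃ * (Y₁ + Y₂) ^ 2 = (X₁ ^ 2 + X₁ * X₂ + X₂ ^ 2 + a * d * (X₁ + X₂) + b * d ^ 2) ^ 2
        - (a * d + X₁ + X₂) * (Y₁ + Y₂) ^ 2 ∧
      Y₃ * (Y₁ + Y₂) = - ((X₁ ^ 2 + X₁ * X₂ + X₂ ^ 2 + a * d * (X₁ + X₂) + b * d ^ 2)
        * (X₃ - X₁) + Y₁ * (Y₁ + Y₂)) := by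
  have q₁ := (tw_equation a b d X₁ Y₁).1 h₁.1
  have q₂ := (tw_equation a b d X₂ Y₂).1 h₂.1
  by_cases hX : X₁ = X₂
  · subst hX
    have hYY : Y₁ = Y₂ := by
      have : (Y₁ - Y₂) * (Y₁ + Y₂) = 0 := by linear_combination q₁ - q₂
      rcases mul_eq_zero.1 this with h | h
      · exact sub_eq_zero.1 h
      · exact absurd h hS
    subst hYY
    have hY2 : 2 * Y₁ ≠ 0 := by rwa [two_mul]
    obtain ⟨X₃, Y₃, h₃, e1, e2, e3⟩ := tw_dbl h₁ hY2
    refine ⟨X₃, Y₃, h₃, e1, ?_, ?_⟩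
    · linear_combination e2 + (4 * (a * d + 2 * X₁)) * q₁
    · linear_combination e3
  · obtain ⟨X₃, Y₃, h₃, e1, e2, e3⟩ := tw_add_X_ne h₁ h₂ hX
    have hs : X₁ - X₂ ≠ 0 := sub_ne_zero.2 hX
    have hsl : (Y₁ - Y₂) * (Y₁ + Y₂)
        = (X₁ ^ 2 + X₁ * X₂ + X₂ ^ 2 + a * d * (X₁ + X₂) + b * d ^ 2) * (X₁ - X₂) := by
      linear_combination q₁ - q₂
    refine ⟨X₃, Y₃, h₃, e1, ?_, ?_⟩
    · apply mul_right_cancel₀ (pow_ne_zero 2 hs)
      linear_combination (Y₁ + Y₂) ^ 2 * e2 + ((Y₁ - Y₂) * (Y₁ + Y₂)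
        + (X₁ ^ 2 + X₁ * X₂ + X₂ ^ 2 + a * d * (X₁ + X₂) + b * d ^ 2) * (X₁ - X₂)) * hsl
    · apply mul_right_cancel₀ hs
      linear_combination (Y₁ + Y₂) * e3 - (X₃ - X₁) * hsl

end Pool.Agent.Helper10.K3
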