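import Pool.Agent.Helper10.K3.Local1
import Pool.Agent.Helper10.K3.Scal

/-!
# Reduction modulo `p`
-/

namespace Pool.Agent.Helper10.K3

open WeierstrassCurve PadicInt

variable {p : ℕ} [Fact p.Prime]

theorem toZMod_eq_zero_iff (x : ℤ_[p]) : toZMod x = 0 ↔ ‖x‖ < 1 := by
  rw [← RingHom.mem_ker, ker_toZMod, IsLocalRing.mem_maximalIdeal, PadicInt.mem_nonunits]

theorem toZMod_ne_zero_iff (x : ℤ_[p]) : toZMod x ≠ 0 ↔ ‖x‖ = 1 := by
  rw [Ne, toZMod_eq_zero_iff]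
  constructor
  · intro h
    exact le_antisymm x.2 (not_lt.1 h)
  · intro h h'
    rw [h] at h'
    exact lt_irrefl _ h'

theorem toZMod_surj (x : ZMod p) : ∃ z : ℤ_[p], toZMod z = x :=
  ⟨(x.val : ℤ_[p]), by rw [map_natCast, ZMod.natCast_val, ZMod.cast_id]⟩

/-- good reduction data. -/
structure GoodRed (a b d : ℤ_[p]) : Prop where
  h2 : (2 : ZMod p) ≠ 0
  hb : toZMod b ≠ 0
  hd : toZMod d ≠ 0
  hab : toZMod a ^ 2 - 4 * toZMod b ≠ 0

theorem ne_zero_of_toZMod {x : ℤ_[p]} (h : toZMod x ≠ 0) : (x : ℚ_[p]) ≠ 0 := by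
  apply coe_ne
  rintro rfl
  exact h (map_zero _)

theorem GoodRed.b_ne {a b d : ℤ_[p]} (H : GoodRed a b d) : (b : ℚ_[p]) ≠ 0 :=
  ne_zero_of_toZMod H.hb

theorem GoodRed.d_ne {a b d : ℤ_[p]} (H : GoodRed a b d) : (d : ℚ_[p]) ≠ 0 :=
  ne_zero_of_toZMod H.hd

theorem GoodRed.ab_ne {a b d : ℤ_[p]} (H : GoodRed a b d) :
    (a : ℚ_[p]) ^ 2 - 4 * (b : ℚ_[p]) ≠ 0 := by
  have h : toZMod (a ^ 2 - 4 * b) ≠ 0 := by
    rw [map_sub, map_mul, map_pow, map_ofNat]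
    exact H.hab
  have := ne_zero_of_toZMod h
  push_cast at this
  exact this

section

variable {a b d : ℤ_[p]}

/-- the algebra of integral addition. -/
theorem int_of_eqs {S L c x₁ y₁ : ℤ_[p]} (hS : toZMod S ≠ 0) {X₃ Y₃ : ℚ_[p]} {u₃ v₃ : ZMod p}
    (e1 : X₃ * (S : ℚ_[p]) ^ 2 = (L : ℚ_[p]) ^ 2 - c * (S : ℚ_[p]) ^ 2)
    (e2 : Y₃ * S = -((L : ℚ_[p]) * (X₃ - x₁) + y₁ * S))
    (f1 : u₃ * (toZMod S) ^ 2 = (toZMod L) ^ 2 - toZMod c * (toZMod S) ^ 2)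
    (f2 : v₃ * toZMod S = -(toZMod L * (u₃ - toZMod x₁) + toZMod y₁ * toZMod S)) :
    ∃ x₃ y₃ : ℤ_[p], (x₃ : ℚ_[p]) = X₃ ∧ (y₃ : ℚ_[p]) = Y₃ ∧ toZMod x₃ = u₃ ∧ toZMod y₃ = v₃ := by
  have hSu : IsUnit S := PadicInt.isUnit_iff.2 ((toZMod_ne_zero_iff S).1 hS)
  obtain ⟨u, hu⟩ := hSu
  have hv : (↑u⁻¹ : ℤ_[p]) * S = 1 := by rw [← hu, Units.inv_mul]
  set v : ℤ_[p] := (↑u⁻¹ : ℤ_[p]) with hvd
  have hS0 : (S : ℚ_[p]) ≠ 0 := ne_zero_of_toZMod hS
  have hv' : (v : ℚ_[p]) * S = 1 := by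
    have := congrArg (fun x : ℤ_[p] => (x : ℚ_[p])) hv
    push_cast at this
    exact this
  have hv'' : toZMod v * toZMod S = 1 := by rw [← map_mul, hv, map_one]
  have hX : (((L * v) ^ 2 - c : ℤ_[p]) : ℚ_[p]) = X₃ := by
    apply mul_right_cancel₀ (pow_ne_zero 2 hS0)
    push_cast
    linear_combination ((L : ℚ_[p]) ^ 2 * (v * S + 1)) * hv' - e1
  have hX' : toZMod ((L * v) ^ 2 - c) = u₃ := by
    apply mul_right_cancel₀ (pow_ne_zero 2 hS)
    rw [map_sub, map_pow, map_mul]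
    linear_combination ((toZMod L) ^ 2 * (toZMod v * toZMod S + 1)) * hv'' - f1
  refine ⟨(L * v) ^ 2 - c, -(L * (((L * v) ^ 2 - c) - x₁) * v + y₁), hX, ?_, hX', ?_⟩
  · apply mul_right_cancel₀ hS0
    rw [e2, ← hX]
    push_cast
    linear_combination (-(L : ℚ_[p]) * (((L * v) ^ 2 - c) - x₁)) * hv'
  · apply mul_right_cancel₀ hS
    rw [f2, ← hX']
    simp only [map_sub, map_pow, map_mul, map_neg, map_add]
    linear_combination (-(toZMod L) * (((toZMod L * toZMod v) ^ 2 - toZMod c) - toZMod x₁)) * hv''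

/-- the kernel of reduction. -/
def InKer (a b d : ℤ_[p]) (P : (TW (a : ℚ_[p]) b d).Point) : Prop :=
  P = 0 ∨ ∃ X Y, ∃ h : (TW (a : ℚ_[p]) b d).Nonsingular X Y, P = Affine.Point.some X Y h ∧ 1 < ‖X‖

/-- `R` is the reduction of `P`. -/
def Red (a b d : ℤ_[p]) (P : (TW (a : ℚ_[p]) b d).Point)
    (R : (TW (toZMod a) (toZMod b) (toZMod d)).Point) : Prop :=
  (InKer a b d P ∧ R = 0) ∨ ∃ x y : ℤ_[p], ∃ h : (TW (a : ℚ_[p]) b d).Nonsingular x y,
    ∃ h' : (TW (toZMod a) (toZMod b) (toZMod d)).Nonsingular (toZMod x) (toZMod y),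
    P = Affine.Point.some (x : ℚ_[p]) (y : ℚ_[p]) h ∧ R = Affine.Point.some (toZMod x) (toZMod y) h'

theorem Red.exists (H : GoodRed a b d) (P : (TW (a : ℚ_[p]) b d).Point) : ∃ R, Red a b d P R := by
  rcases P with _ | ⟨X, Y, h⟩
  · exact ⟨0, Or.inl ⟨Or.inl rfl, rfl⟩⟩
  · by_cases hX : 1 < ‖X‖
    · exact ⟨0, Or.inl ⟨Or.inr ⟨X, Y, h, rfl, hX⟩, rfl⟩⟩
    · push Not at hX
      obtain ⟨x, rfl⟩ := exists_coe_of_norm_le hX
      have heq := (tw_equation _ _ _ _ Y).1 h.1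
      have hY : ‖Y‖ ≤ 1 := by
        have e : Y ^ 2 = ((x ^ 3 + a * d * x ^ 2 + b * d ^ 2 * x : ℤ_[p]) : ℚ_[p]) := by
          rw [heq]; push_cast; ring
        by_contra hc
        push Not at hc
        have h1 : 1 < ‖Y‖ ^ 2 := one_lt_pow₀ hc two_ne_zero
        rw [← norm_pow, e] at h1
        exact absurd (norm_coe_le_one _) (not_le.2 h1)
      obtain ⟨y, rfl⟩ := exists_coe_of_norm_le hY
      have heq' : y ^ 2 = x ^ 3 + a * d * x ^ 2 + b * d ^ 2 * x := by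
        apply coe_inj
        push_cast
        exact heq
      have heq'' := congrArg toZMod heq'
      simp only [map_add, map_mul, map_pow] at heq''
      exact ⟨_, Or.inr ⟨x, y, h, tw_nonsingular _ _ _ H.h2 H.hb H.hd H.hab heq'', rfl, rfl⟩⟩

theorem InKer.not_int {x y : ℤ_[p]} {h : (TW (a : ℚ_[p]) b d).Nonsingular x y}
    (hk : InKer a b d (Affine.Point.some (x : ℚ_[p]) (y : ℚ_[p]) h)) : False := by
  rcases hk with hk | ⟨X, Y, h', e, hX⟩
  · exact Affine.Point.some_ne_zero _ hk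
  · injection e with e1 e2
    subst e1
    exact absurd (norm_coe_le_one x) (not_le.2 hX)

theorem Red.unique {P : (TW (a : ℚ_[p]) b d).Point}
    {R R' : (TW (toZMod a) (toZMod b) (toZMod d)).Point} (h : Red a b d P R) (h' : Red a b d P R') :
    R = R' := by
  rcases h with ⟨h1, h2⟩ | ⟨x, y, g, g', h1, h2⟩
  · rcases h' with ⟨k1, k2⟩ | ⟨x', y', k, k', k1, k2⟩
    · rw [h2, k2]
    · rw [k1] at h1
      exact (InKer.not_int h1).elim
  · rcases h' with ⟨k1, k2⟩ | ⟨x', y', k, k', k1, k2⟩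
    · rw [h1] at k1
      exact (InKer.not_int k1).elim
    · rw [h1] at k1
      injection k1 with e1 e2
      have e1' := coe_inj e1
      have e2' := coe_inj e2
      subst e1'
      subst e2'
      rw [h2, k2]

theorem Red.neg {P : (TW (a : ℚ_[p]) b d).Point}
    {R : (TW (toZMod a) (toZMod b) (toZMod d)).Point} (h : Red a b d P R) :
    Red a b d (-P) (-R) := by
  rcases h with ⟨h1, h2⟩ | ⟨x, y, g, g', h1, h2⟩
  · left
    constructor
    · rcases h1 with h1 | ⟨X, Y, h', e, hX⟩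
      · left; rw [h1]; rfl
      · right
        rw [e]
        exact ⟨_, _, _, Affine.Point.neg_some h', hX⟩
    · rw [h2]; rfl
  · right
    have q := (Affine.nonsingular_neg (W' := TW (a : ℚ_[p]) b d) _ _).2 g
    have q' := (Affine.nonsingular_neg (W' := TW (toZMod a) (toZMod b) (toZMod d)) _ _).2 g'
    have e : (TW (a : ℚ_[p]) b d).negY x y = ((-y : ℤ_[p]) : ℚ_[p]) := by
      rw [tw_negY]; push_cast; rfl
    have e' : (TW (toZMod a) (toZMod b) (toZMod d)).negY (toZMod x) (toZMod y) = toZMod (-y) := by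
      rw [tw_negY, map_neg]
    rw [e] at q
    rw [e'] at q'
    refine ⟨x, -y, q, q', ?_, ?_⟩
    · rw [h1, Affine.Point.neg_some]
      congr 1
    · rw [h2, Affine.Point.neg_some]
      congr 1

/-- addition of points with affine reductions -/
theorem Red.add_aff (H : GoodRed a b d) {x₁ y₁ x₂ y₂ : ℤ_[p]}
    (h₁ : (TW (a : ℚ_[p]) b d).Nonsingular x₁ y₁) (h₂ : (TW (a : ℚ_[p]) b d).Nonsingular x₂ y₂)
    (h₁' : (TW (toZMod a) (toZMod b) (toZMod d)).Nonsingular (toZMod x₁) (toZMod y₁))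
    (h₂' : (TW (toZMod a) (toZMod b) (toZMod d)).Nonsingular (toZMod x₂) (toZMod y₂)) :
    Red a b d (Affine.Point.some (x₁ : ℚ_[p]) (y₁ : ℚ_[p]) h₁
        + Affine.Point.some (x₂ : ℚ_[p]) (y₂ : ℚ_[p]) h₂)
      (Affine.Point.some (toZMod x₁) (toZMod y₁) h₁'
        + Affine.Point.some (toZMod x₂) (toZMod y₂) h₂') := by
  have q₁ := (tw_equation _ _ _ _ _).1 h₁.1
  have q₂ := (tw_equation _ _ _ _ _).1 h₂.1
  have q₁' := (tw_equation _ _ _ _ _).1 h₁'.1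
  by_cases hS : toZMod y₁ + toZMod y₂ ≠ 0
  · -- case A1
    have hSQ : (y₁ : ℚ_[p]) + y₂ ≠ 0 := by
      rw [← map_add] at hS
      have := ne_zero_of_toZMod hS
      push_cast at this
      exact this
    obtain ⟨X₃, Y₃, g, e1, e2, e3⟩ := tw_add_Y_ne h₁ h₂ hSQ
    obtain ⟨u₃, v₃, g', f1, f2, f3⟩ := tw_add_Y_ne h₁' h₂' hS
    obtain ⟨x₃, y₃, rfl, rfl, rfl, rfl⟩ := int_of_eqs (S := y₁ + y₂)
      (L := x₁ ^ 2 + x₁ * x₂ + x₂ ^ 2 + a * d * (x₁ + x₂) + b * d ^ 2) (c := a * d + x₁ + x₂)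
      (x₁ := x₁) (y₁ := y₁) (X₃ := X₃) (Y₃ := Y₃) (u₃ := u₃) (v₃ := v₃) (by rwa [map_add])
      (by push_cast; exact e2) (by push_cast; exact e3)
      (by simp only [map_add, map_mul, map_pow]; exact f2)
      (by simp only [map_add, map_mul, map_pow]; exact f3)
    exact Or.inr ⟨x₃, y₃, g, g', e1, f1⟩
  push Not at hS
  by_cases hX : toZMod x₁ ≠ toZMod x₂
  · -- case A2
    have hXQ : (x₁ : ℚ_[p]) ≠ x₂ := by
      intro h
      apply hX
      rw [coe_inj h]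
    obtain ⟨X₃, Y₃, g, e1, e2, e3⟩ := tw_add_X_ne h₁ h₂ hXQ
    obtain ⟨u₃, v₃, g', f1, f2, f3⟩ := tw_add_X_ne h₁' h₂' hX
    obtain ⟨x₃, y₃, rfl, rfl, rfl, rfl⟩ := int_of_eqs (S := x₁ - x₂)
      (L := y₁ - y₂) (c := a * d + x₁ + x₂)
      (x₁ := x₁) (y₁ := y₁) (X₃ := X₃) (Y₃ := Y₃) (u₃ := u₃) (v₃ := v₃)
      (by rw [map_sub]; exact sub_ne_zero.2 hX)
      (by push_cast; exact e2) (by push_cast; exact e3)
      (by simp only [map_add, map_mul, map_sub]; exact f2)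
      (by simp only [map_sub]; exact f3)
    exact Or.inr ⟨x₃, y₃, g, g', e1, f1⟩
  push Not at hX
  -- case A3
  have hR : (Affine.Point.some (toZMod x₁) (toZMod y₁) h₁'
        + Affine.Point.some (toZMod x₂) (toZMod y₂) h₂') = 0 :=
    Affine.Point.add_of_Y_eq hX (by rw [tw_negY]; linear_combination hS)
  rw [hR]
  left
  refine ⟨?_, rfl⟩
  have hc : ‖((a * d + x₁ + x₂ : ℤ_[p]) : ℚ_[p])‖ ≤ 1 := norm_coe_le_one _
  push_cast at hc
  by_cases hY : toZMod y₁ ≠ 0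
  · -- `D = y₁ - y₂` is a unit
    have hD : toZMod (y₁ - y₂) ≠ 0 := by
      rw [map_sub]
      intro h
      have : (2 : ZMod p) * toZMod y₁ = 0 := by linear_combination hS + h
      rcases mul_eq_zero.1 this with h | h
      · exact H.h2 h
      · exact hY h
    have hDn := (toZMod_ne_zero_iff _).1 hD
    have hDn' : ‖(y₁ : ℚ_[p]) - y₂‖ = 1 := by
      have : ((y₁ - y₂ : ℤ_[p]) : ℚ_[p]) = (y₁ : ℚ_[p]) - y₂ := by push_cast; rfl
      rw [← this]; exact hDn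
    by_cases hXQ : (x₁ : ℚ_[p]) = x₂
    · left
      apply Affine.Point.add_of_Y_eq hXQ
      rw [tw_negY]
      have : ((y₁ : ℚ_[p]) - y₂) * (y₁ + y₂) = 0 := by
        rw [hXQ] at q₁
        linear_combination q₁ - q₂
      rcases mul_eq_zero.1 this with h | h
      · rw [h, norm_zero] at hDn'
        exact absurd hDn' zero_ne_one
      · linear_combination h
    · obtain ⟨X₃, Y₃, g, e1, e2, -⟩ := tw_add_X_ne h₁ h₂ hXQ
      right
      refine ⟨X₃, Y₃, g, e1, ?_⟩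
      by_contra hc1
      push Not at hc1
      have hx : ‖(x₁ : ℚ_[p]) - x₂‖ < 1 := by
        have : ((x₁ - x₂ : ℤ_[p]) : ℚ_[p]) = (x₁ : ℚ_[p]) - x₂ := by push_cast; rfl
        rw [← this, norm_coe, ← toZMod_eq_zero_iff, map_sub, hX, sub_self]
      have e4 : ((y₁ : ℚ_[p]) - y₂) ^ 2 = (X₃ + (a * d + x₁ + x₂)) * (x₁ - x₂) ^ 2 := by
        linear_combination -e2
      have h5 : ‖X₃ + (a * d + x₁ + x₂)‖ ≤ 1 :=
        (Padic.nonarchimedean _ _).trans (max_le hc1 hc)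
      have h6 : ‖((y₁ : ℚ_[p]) - y₂) ^ 2‖ < 1 := by
        rw [e4, norm_mul, norm_pow]
        calc _ ≤ 1 * ‖(x₁ : ℚ_[p]) - x₂‖ ^ 2 := mul_le_mul_of_nonneg_right h5 (by positivity)
          _ < 1 := by rw [one_mul]; exact pow_lt_one₀ (norm_nonneg _) hx two_ne_zero
      rw [norm_pow, hDn', one_pow] at h6
      exact lt_irrefl _ h6
  · push Not at hY
    -- `L` is a unit
    have hL : toZMod (x₁ ^ 2 + x₁ * x₂ + x₂ ^ 2 + a * d * (x₁ + x₂) + b * d ^ 2) ≠ 0 := by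
      simp only [map_add, map_mul, map_pow]
      rw [← hX]
      have hns := h₁'
      rw [WeierstrassCurve.Affine.nonsingular_iff] at hns
      obtain ⟨-, hns⟩ := hns
      simp only [TW, hY, mul_zero, sub_zero, neg_zero, add_zero, zero_mul] at hns
      rcases hns with hns | hns
      · intro h
        apply hns
        linear_combination -h
      · exact absurd rfl hns
    have hLn := (toZMod_ne_zero_iff _).1 hL
    have hLn' : ‖(x₁ : ℚ_[p]) ^ 2 + x₁ * x₂ + x₂ ^ 2 + a * d * (x₁ + x₂) + b * d ^ 2‖ = 1 := by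
      have : ((x₁ ^ 2 + x₁ * x₂ + x₂ ^ 2 + a * d * (x₁ + x₂) + b * d ^ 2 : ℤ_[p]) : ℚ_[p])
        = (x₁ : ℚ_[p]) ^ 2 + x₁ * x₂ + x₂ ^ 2 + a * d * (x₁ + x₂) + b * d ^ 2 := by push_cast; rfl
      rw [← this]; exact hLn
    have hsl : ((y₁ : ℚ_[p]) - y₂) * (y₁ + y₂)
        = (x₁ ^ 2 + x₁ * x₂ + x₂ ^ 2 + a * d * (x₁ + x₂) + b * d ^ 2) * (x₁ - x₂) := by
      linear_combination q₁ - q₂
    by_cases hSQ : (y₁ : ℚ_[p]) + y₂ = 0
    · left
      apply Affine.Point.add_of_Y_eq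
      · rw [hSQ, mul_zero] at hsl
        rcases mul_eq_zero.1 hsl.symm with h | h
        · rw [h, norm_zero] at hLn'
          exact absurd hLn' zero_ne_one
        · exact sub_eq_zero.1 h
      · rw [tw_negY]; linear_combination hSQ
    · obtain ⟨X₃, Y₃, g, e1, e2, -⟩ := tw_add_Y_ne h₁ h₂ hSQ
      right
      refine ⟨X₃, Y₃, g, e1, ?_⟩
      by_contra hc1
      push Not at hc1
      have hx : ‖(y₁ : ℚ_[p]) + y₂‖ < 1 := by
        have : ((y₁ + y₂ : ℤ_[p]) : ℚ_[p]) = (y₁ : ℚ_[p]) + y₂ := by push_cast; rfl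
        rw [← this, norm_coe, ← toZMod_eq_zero_iff, map_add, hS]
      have e4 : ((x₁ : ℚ_[p]) ^ 2 + x₁ * x₂ + x₂ ^ 2 + a * d * (x₁ + x₂) + b * d ^ 2) ^ 2
          = (X₃ + (a * d + x₁ + x₂)) * (y₁ + y₂) ^ 2 := by
        linear_combination -e2
      have h5 : ‖X₃ + (a * d + x₁ + x₂)‖ ≤ 1 :=
        (Padic.nonarchimedean _ _).trans (max_le hc1 hc)
      have h6 : ‖((x₁ : ℚ_[p]) ^ 2 + x₁ * x₂ + x₂ ^ 2 + a * d * (x₁ + x₂) + b * d ^ 2) ^ 2‖ < 1 := by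
        rw [e4, norm_mul, norm_pow]
        calc _ ≤ 1 * ‖(y₁ : ℚ_[p]) + y₂‖ ^ 2 := mul_le_mul_of_nonneg_right h5 (by positivity)
          _ < 1 := by rw [one_mul]; exact pow_lt_one₀ (norm_nonneg _) hx two_ne_zero
      rw [norm_pow, hLn', one_pow] at h6
      exact lt_irrefl _ h6

end

end Pool.Agent.Helper10.K3
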