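import Mathlib

/-!
# Quadratic twists of a curve with a rational two-torsion point
-/

namespace Pool.Agent.Helper10.K3

open WeierstrassCurve Polynomial

variable {F : Type*} [Field F] [DecidableEq F]

/-- The curve `Y² = X³ + a d X² + b d² X`, the twist by `d` of `Y² = X³ + a X² + b X`. -/
def TW (a b d : F) : WeierstrassCurve.Affine F := ⟨0, a * d, 0, b * d ^ 2, 0⟩

omit [DecidableEq F] in
theorem tw_equation (a b d X Y : F) :
    (TW a b d).Equation X Y ↔ Y ^ 2 = X ^ 3 + a * d * X ^ 2 + b * d ^ 2 * X := by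
  rw [WeierstrassCurve.Affine.equation_iff]
  simp [TW]

omit [DecidableEq F] in
theorem tw_negY (a b d X Y : F) : (TW a b d).negY X Y = -Y := by
  simp [WeierstrassCurve.Affine.negY, TW]

omit [DecidableEq F] in
/-- every affine solution is a nonsingular point. -/
theorem tw_nonsingular (a b d : F) (h2 : (2 : F) ≠ 0) (hb : b ≠ 0) (hd : d ≠ 0)
    (hab : a ^ 2 - 4 * b ≠ 0) {X Y : F}
    (h : Y ^ 2 = X ^ 3 + a * d * X ^ 2 + b * d ^ 2 * X) :
    (TW a b d).Nonsingular X Y := by
  rw [WeierstrassCurve.Affine.nonsingular_iff]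
  refine ⟨(tw_equation a b d X Y).2 h, ?_⟩
  simp only [TW, zero_mul, sub_zero]
  by_contra hcon
  push Not at hcon
  obtain ⟨h1, h2'⟩ := hcon
  have hY : Y = 0 := by
    have : 2 * Y = 0 := by linear_combination h2'
    rcases mul_eq_zero.1 this with h | h
    · exact absurd h h2
    · exact h
  rw [hY] at h
  have e1 : X * (X ^ 2 + a * d * X + b * d ^ 2) = 0 := by linear_combination -h
  have e2 : 3 * X ^ 2 + 2 * a * d * X + b * d ^ 2 = 0 := by linear_combination -h1
  rcases mul_eq_zero.1 e1 with hX | hX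
  · rw [hX] at e2
    have : b * d ^ 2 = 0 := by linear_combination e2
    exact (mul_ne_zero hb (pow_ne_zero 2 hd)) this
  · have e3 : X * (2 * X + a * d) = 0 := by linear_combination e2 - hX
    rcases mul_eq_zero.1 e3 with h | h
    · rw [h] at e2
      have : b * d ^ 2 = 0 := by linear_combination e2
      exact (mul_ne_zero hb (pow_ne_zero 2 hd)) this
    · have : (a ^ 2 - 4 * b) * d ^ 2 = 0 := by
        linear_combination (-4 : F) * hX + (2 * X + a * d) * h
      exact (mul_ne_zero hab (pow_ne_zero 2 hd)) this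

end Pool.Agent.Helper10.K3
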