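import Pool.Agent.Helper10.K3.FF

/-!
# The number of points of the twists of `Y² = X³ + 4 X² + 2 X` over `𝔽_p`, `p ≡ 5 mod 8`
-/

namespace Pool.Agent.Helper10.K3

open WeierstrassCurve Polynomial Finset

variable {F : Type*} [Field F] [DecidableEq F] [Fintype F]

/-- the character sum `∑ χ(x³ + a x² + b x)`. -/
noncomputable def chiSum (a b : F) : ℤ := ∑ x : F, quadraticChar F (x ^ 3 + a * x ^ 2 + b * x)

theorem card_sqrts (hF : ringChar F ≠ 2) (c : F) :
    (#({y : F | y ^ 2 = c} : Finset F) : ℤ) = quadraticChar F c + 1 := by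
  rw [← quadraticChar_card_sqrts hF c]
  congr 2
  ext y
  simp

theorem card_point (hF : ringChar F ≠ 2) {a b d : F} (hb : b ≠ 0) (hab : a ^ 2 - 4 * b ≠ 0)
    (hd : d ≠ 0) :
    (Nat.card (TW a b d).Point : ℤ) = Fintype.card F + 1 + quadraticChar F d * chiSum a b := by
  have h2 : (2 : F) ≠ 0 := Ring.two_ne_zero hF
  have e1 : Nat.card (TW a b d).Point
      = Nat.card {xy : F × F // (TW a b d).Nonsingular xy.fst xy.snd} + 1 := by
    rw [Nat.card_congr (WeierstrassCurve.Affine.nonsingularPointEquiv (TW a b d))]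
    exact Finite.card_option
  have e2 : Nat.card {xy : F × F // (TW a b d).Nonsingular xy.fst xy.snd}
      = #({xy : F × F | xy.2 ^ 2 = xy.1 ^ 3 + a * d * xy.1 ^ 2 + b * d ^ 2 * xy.1}
        : Finset (F × F)) := by
    classical
    rw [Nat.card_eq_fintype_card, Fintype.card_subtype]
    congr 1
    ext xy
    simp only [mem_filter, mem_univ, true_and]
    constructor
    · intro h
      exact (tw_equation a b d _ _).1 h.1
    · intro h
      exact tw_nonsingular a b d h2 hb hd hab h
  have e3 : (#({xy : F × F | xy.2 ^ 2 = xy.1 ^ 3 + a * d * xy.1 ^ 2 + b * d ^ 2 * xy.1}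
        : Finset (F × F)) : ℤ)
      = ∑ x : F, (quadraticChar F (x ^ 3 + a * d * x ^ 2 + b * d ^ 2 * x) + 1) := by
    rw [Finset.card_filter]
    rw [← univ_product_univ, Finset.sum_product]
    push_cast
    apply Finset.sum_congr rfl
    intro x _
    rw [← card_sqrts hF, Finset.card_filter]
    push_cast
    rfl
  rw [e1, Nat.cast_add, e2, e3, Finset.sum_add_distrib]
  have e4 : ∑ x : F, quadraticChar F (x ^ 3 + a * d * x ^ 2 + b * d ^ 2 * x)
      = quadraticChar F d * chiSum a b := by
    rw [chiSum, Finset.mul_sum]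
    rw [← Equiv.sum_comp (Equiv.mulLeft₀ d hd)]
    apply Finset.sum_congr rfl
    intro x _
    rw [show (Equiv.mulLeft₀ d hd) x = d * x from rfl]
    have : (d * x) ^ 3 + a * d * (d * x) ^ 2 + b * d ^ 2 * (d * x)
        = d ^ 2 * (d * (x ^ 3 + a * x ^ 2 + b * x)) := by ring
    rw [this, map_mul, map_mul, quadraticChar_sq_one' hd, one_mul]
  rw [e4]
  simp only [sum_const, card_univ, mul_one, nsmul_eq_mul]
  ring

/-- number of `x ≠ 0` with `x + b / x = s`. -/
theorem card_add_div (hF : ringChar F ≠ 2) {b : F} (hb : b ≠ 0) (s : F) :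
    (#({x : F | x ≠ 0 ∧ x + b / x = s} : Finset F) : ℤ) = quadraticChar F (s ^ 2 - 4 * b) + 1 := by
  have h2 : (2 : F) ≠ 0 := Ring.two_ne_zero hF
  rw [← card_sqrts hF]
  congr 1
  refine Finset.card_bij' (fun x _ => 2 * x - s) (fun y _ => (y + s) / 2) ?_ ?_ ?_ ?_
  · intro x hx
    simp only [mem_filter, mem_univ, true_and] at hx ⊢
    obtain ⟨h0, h1⟩ := hx
    have : x ^ 2 + b = s * x := by
      rw [← h1]; field_simp
    linear_combination 4 * this
  · intro y hy
    simp only [mem_filter, mem_univ, true_and] at hy ⊢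
    have hq : ((y + s) / 2) ^ 2 - s * ((y + s) / 2) + b = 0 := by
      field_simp
      linear_combination hy
    have h0 : (y + s) / 2 ≠ 0 := by
      intro h0
      rw [h0] at hq
      apply hb
      linear_combination hq
    refine ⟨h0, ?_⟩
    field_simp at hq ⊢
    have h00 : y + s ≠ 0 := by
      intro h; apply h0; rw [h]; simp
    field_simp
    linear_combination hq
  · intro x hx
    field_simp
    ring
  · intro y hy
    field_simp
    ring

theorem sum_quadraticChar_add (hF : ringChar F ≠ 2) (a : F) :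
    ∑ s : F, quadraticChar F (s + a) = 0 := by
  rw [← quadraticChar_sum_zero hF]
  exact Equiv.sum_comp (Equiv.addRight a) (fun x => quadraticChar F x)

/-- the 2-isogeny identity. -/
theorem chiSum_isogeny (hF : ringChar F ≠ 2) {a b : F} (hb : b ≠ 0) :
    chiSum a b = chiSum (-2 * a) (a ^ 2 - 4 * b) := by
  have e1 : chiSum a b = ∑ x ∈ ({x : F | x ≠ 0} : Finset F), quadraticChar F (x + b / x + a) := by
    rw [chiSum, ← Finset.sum_filter_add_sum_filter_not univ (fun x : F => x ≠ 0)]
    have : ∑ x ∈ ({x : F | ¬ x ≠ 0} : Finset F), quadraticChar F (x ^ 3 + a * x ^ 2 + b * x)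
        = 0 := by
      apply Finset.sum_eq_zero
      intro x hx
      simp only [mem_filter, mem_univ, true_and, not_not] at hx
      rw [hx]; simp
    rw [this, add_zero]
    apply Finset.sum_congr rfl
    intro x hx
    simp only [mem_filter, mem_univ, true_and] at hx
    have : x ^ 3 + a * x ^ 2 + b * x = x ^ 2 * (x + b / x + a) := by field_simp; ring
    rw [this, map_mul, quadraticChar_sq_one' hx, one_mul]
  have e2 : ∑ x ∈ ({x : F | x ≠ 0} : Finset F), quadraticChar F (x + b / x + a)
      = ∑ s : F, (quadraticChar F (s ^ 2 - 4 * b) + 1) * quadraticChar F (s + a) := by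
    rw [← Finset.sum_fiberwise_of_maps_to (s := ({x : F | x ≠ 0} : Finset F)) (t := univ)
      (g := fun x => x + b / x) (by simp)]
    apply Finset.sum_congr rfl
    intro s _
    rw [← card_add_div hF hb]
    have : ∀ x ∈ ({i ∈ ({x : F | x ≠ 0} : Finset F) | i + b / i = s} : Finset F),
        quadraticChar F (x + b / x + a) = quadraticChar F (s + a) := by
      intro x hx
      rw [(mem_filter.1 hx).2]
    rw [Finset.sum_congr rfl this, sum_const, nsmul_eq_mul, Finset.filter_filter]
  rw [e1, e2]
  simp_rw [add_mul, one_mul]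
  rw [Finset.sum_add_distrib, sum_quadraticChar_add hF, add_zero, chiSum]
  rw [← Equiv.sum_comp (Equiv.addRight (-a))]
  apply Finset.sum_congr rfl
  intro x _
  rw [← map_mul]
  congr 1
  simp only [Equiv.coe_addRight]
  ring

theorem chiSum_scale {a b c : F} (hc : c ≠ 0) :
    chiSum (c * a) (c ^ 2 * b) = quadraticChar F c * chiSum a b := by
  rw [chiSum, chiSum, Finset.mul_sum, ← Equiv.sum_comp (Equiv.mulLeft₀ c hc)]
  apply Finset.sum_congr rfl
  intro x _
  rw [show (Equiv.mulLeft₀ c hc) x = c * x from rfl]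
  have : (c * x) ^ 3 + c * a * (c * x) ^ 2 + c ^ 2 * b * (c * x)
      = c ^ 2 * (c * (x ^ 3 + a * x ^ 2 + b * x)) := by ring
  rw [this, map_mul, map_mul, quadraticChar_sq_one' hc, one_mul]


/-! ### The primes `p ≡ 5 mod 8` -/

section prime

variable {p : ℕ} [Fact p.Prime]

theorem ringChar_ne_two (hp : p % 8 = 5) : ringChar (ZMod p) ≠ 2 := by
  rw [ZMod.ringChar_zmod_n]
  omega

theorem chi_neg_one (hp : p % 8 = 5) : quadraticChar (ZMod p) (-1) = 1 := by
  have h2 : (-1 : ZMod p) ≠ 0 := by simp
  rw [quadraticChar_one_iff_isSquare h2, FiniteField.isSquare_neg_one_iff, ZMod.card]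
  omega

theorem two_ne_zero' (hp : p % 8 = 5) : (2 : ZMod p) ≠ 0 := Ring.two_ne_zero (ringChar_ne_two hp)

theorem chi_two (hp : p % 8 = 5) : quadraticChar (ZMod p) 2 = -1 := by
  have h2 : ¬ IsSquare (2 : ZMod p) := by
    rw [FiniteField.isSquare_two_iff, ZMod.card]
    omega
  exact quadraticChar_neg_one_iff_not_isSquare.2 h2

theorem chi_neg_two (hp : p % 8 = 5) : quadraticChar (ZMod p) (-2) = -1 := by
  have : (-2 : ZMod p) = (-1) * 2 := by ring
  rw [this, map_mul, chi_neg_one hp, chi_two hp]
  norm_num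

theorem chiSum_eq_zero (hp : p % 8 = 5) : chiSum (4 : ZMod p) 2 = 0 := by
  have h2 := two_ne_zero' hp
  have h := chiSum_isogeny (ringChar_ne_two hp) (a := (4 : ZMod p)) h2
  have e : chiSum (-2 * (4 : ZMod p)) ((4 : ZMod p) ^ 2 - 4 * 2)
      = chiSum ((-2) * (4 : ZMod p)) ((-2) ^ 2 * 2) := by
    congr 1
    ring
  rw [e, chiSum_scale (neg_ne_zero.2 h2), chi_neg_two hp] at h
  linarith

theorem ab_ne_zero (hp : p % 8 = 5) : (4 : ZMod p) ^ 2 - 4 * 2 ≠ 0 := by
  have h2 := two_ne_zero' hp
  have : (4 : ZMod p) ^ 2 - 4 * 2 = 2 * 2 * 2 := by ring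
  rw [this]
  exact mul_ne_zero (mul_ne_zero h2 h2) h2

theorem card_tw (hp : p % 8 = 5) {d : ZMod p} (hd : d ≠ 0) :
    Nat.card (TW (4 : ZMod p) 2 d).Point = p + 1 := by
  have h2 := two_ne_zero' hp
  have h := card_point (ringChar_ne_two hp) (a := (4 : ZMod p)) h2 (ab_ne_zero hp) hd
  rw [chiSum_eq_zero hp, mul_zero, add_zero, ZMod.card] at h
  exact_mod_cast h

theorem torsion_of_not_dvd {G : Type*} [AddCommGroup G] [Finite G] {l : ℕ} (hl : l.Prime)
    (h : ¬ l ∣ Nat.card G) : Nat.card {x : G // l • x = 0} ≤ l := by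
  have : Subsingleton {x : G // l • x = 0} := by
    constructor
    rintro ⟨x, hx⟩ ⟨y, hy⟩
    have key : ∀ z : G, l • z = 0 → z = 0 := by
      intro z hz
      have h1 : addOrderOf z ∣ l := addOrderOf_dvd_of_nsmul_eq_zero hz
      have h2 : addOrderOf z ∣ Nat.card G := addOrderOf_dvd_natCard z
      rcases (Nat.dvd_prime hl).1 h1 with h3 | h3
      · exact AddMonoid.addOrderOf_eq_one_iff.1 h3
      · rw [h3] at h2
        exact absurd h2 h
    rw [Subtype.mk.injEq, key x hx, key y hy]
  calc Nat.card {x : G // l • x = 0} ≤ 1 := Finite.card_le_one_iff_subsingleton.2 this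
    _ ≤ l := hl.one_lt.le

theorem card_torsion_pow {G : Type*} [AddCommGroup G] [Finite G] {l : ℕ} (hl : l.Prime)
    (h : Nat.card {x : G // l • x = 0} < l ^ 2) : Nat.card {x : G // l • x = 0} ≤ l := by
  have : Fact l.Prime := ⟨hl⟩
  let H : AddSubgroup G := (nsmulAddMonoidHom (α := G) l).ker
  have hH : ∀ x : G, x ∈ H ↔ l • x = 0 := fun x => by simp [H]
  have e : Nat.card {x : G // l • x = 0} = Nat.card H :=
    Nat.card_congr (Equiv.subtypeEquivRight fun x => (hH x).symm)
  rw [e] at h ⊢
  let _ : Module (ZMod l) H := AddCommGroup.zmodModule (n := l) (by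
    rintro ⟨x, hx⟩
    apply Subtype.ext
    simpa using (hH x).1 hx)
  have hfin : Module.Finite (ZMod l) H := Module.Finite.of_finite
  have hc : Nat.card H = Nat.card (ZMod l) ^ Module.finrank (ZMod l) H := by
    have := Fintype.ofFinite H
    rw [Nat.card_eq_fintype_card, Nat.card_eq_fintype_card]
    exact Module.card_eq_pow_finrank (K := ZMod l) (V := H)
  rw [Nat.card_zmod] at hc
  rw [hc] at h ⊢
  have : Module.finrank (ZMod l) H < 2 := (Nat.pow_lt_pow_iff_right hl.one_lt).1 h
  calc l ^ Module.finrank (ZMod l) H ≤ l ^ 1 := Nat.pow_le_pow_right hl.pos (by omega)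
    _ = l := pow_one l

theorem eight_not_square (hp : p % 8 = 5) {d r : ZMod p} (hd : d ≠ 0)
    (h : r ^ 2 = (4 ^ 2 - 4 * 2) * d ^ 2) : False := by
  have h2 := two_ne_zero' hp
  have hns : ¬ IsSquare (2 : ZMod p) := quadraticChar_neg_one_iff_not_isSquare.1 (chi_two hp)
  apply hns
  refine ⟨r / (2 * d), ?_⟩
  field_simp
  linear_combination -h

/-- the point `T = (0, 0)`. -/
noncomputable def ptT (a b d : ZMod p) (h2 : (2 : ZMod p) ≠ 0) (hb : b ≠ 0) (hd : d ≠ 0)
    (hab : a ^ 2 - 4 * b ≠ 0) : (TW a b d).Point :=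
  Affine.Point.some 0 0 (tw_nonsingular a b d h2 hb hd hab (by ring))

theorem two_torsion_iff (hp : p % 8 = 5) {d : ZMod p} (hd : d ≠ 0)
    (P : (TW (4 : ZMod p) 2 d).Point) :
    2 • P = 0 ↔ P = 0 ∨ P = ptT 4 2 d (two_ne_zero' hp) (two_ne_zero' hp) hd (ab_ne_zero hp) := by
  have h2 := two_ne_zero' hp
  constructor
  · intro h
    rcases P with _ | ⟨X, Y, hP⟩
    · left; rfl
    · right
      rw [two_nsmul] at h
      have hY : 2 * Y = 0 := by
        by_contra hY
        obtain ⟨X₃, Y₃, h₃, e, -, -⟩ := tw_dbl hP hY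
        rw [e] at h
        exact Affine.Point.some_ne_zero _ h
      have hY0 : Y = 0 := by
        rcases mul_eq_zero.1 hY with h | h
        · exact absurd h h2
        · exact h
      have e := (tw_equation (4 : ZMod p) 2 d X Y).1 hP.1
      rw [hY0] at e
      have e1 : X * (X ^ 2 + 4 * d * X + 2 * d ^ 2) = 0 := by linear_combination -e
      rcases mul_eq_zero.1 e1 with hX | hX
      · subst hX
        subst hY0
        rfl
      · exfalso
        apply eight_not_square hp hd (r := 2 * X + 4 * d)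
        linear_combination 4 * hX
  · rintro (rfl | rfl)
    · simp
    · rw [two_nsmul]
      apply Affine.Point.add_self_of_Y_eq
      rw [tw_negY, neg_zero]

theorem card_two_torsion_le (hp : p % 8 = 5) {d : ZMod p} (hd : d ≠ 0) :
    Nat.card {x : (TW (4 : ZMod p) 2 d).Point // 2 • x = 0} ≤ 2 := by
  classical
  have := Fintype.ofFinite (TW (4 : ZMod p) 2 d).Point
  rw [Nat.card_eq_fintype_card, Fintype.card_subtype]
  refine (card_le_card (t := {0, ptT 4 2 d (two_ne_zero' hp) (two_ne_zero' hp) hd
    (ab_ne_zero hp)}) ?_).trans Finset.card_le_two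
  intro P hP
  simp only [mem_filter, mem_univ, true_and] at hP
  simpa using (two_torsion_iff hp hd P).1 hP

/-- the groups of points of all twists are cyclic. -/
theorem isAddCyclic_tw (hp : p % 8 = 5) {d : ZMod p} (hd : d ≠ 0) :
    IsAddCyclic (TW (4 : ZMod p) 2 d).Point := by
  have h2 := two_ne_zero' hp
  have hab := ab_ne_zero hp
  apply isAddCyclic_of_prime_torsion
  intro l hl
  by_cases hdvd : l ∣ p + 1
  · rcases hl.eq_two_or_odd with rfl | hodd
    · -- two-torsion
      exact card_two_torsion_le hp hd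
    · -- odd `l`
      have hns : ∃ u : ZMod p, ¬ IsSquare u := FiniteField.exists_nonsquare (ringChar_ne_two hp)
      obtain ⟨u, hu⟩ := hns
      have hu0 : u ≠ 0 := by
        rintro rfl
        exact hu ⟨0, by simp⟩
      have hdd : ¬ IsSquare (d * (d * u)) := by
        rintro ⟨r, hr⟩
        apply hu
        refine ⟨r / d, ?_⟩
        field_simp
        linear_combination hr
      have hlp : l ≠ p := by
        rintro rfl
        have : l ∣ 1 := (Nat.dvd_add_right (dvd_refl l)).1 hdvd
        exact hl.one_lt.ne' (Nat.dvd_one.1 this)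
      have hlF : (l : ZMod p) ≠ 0 := by
        rw [Ne, ZMod.natCast_eq_zero_iff]
        intro h
        exact hlp ((Nat.prime_dvd_prime_iff_eq (Fact.out : p.Prime) hl).1 h).symm
      have key := card_tor_add_le h2 h2 hab hd (mul_ne_zero hd hu0) hdd hodd hlF
      -- Cauchy on the other twist
      have hcau : l ≤ Nat.card {P : (TW (4 : ZMod p) 2 (d * u)).Point // l • P = 0} := by
        have : Fact l.Prime := ⟨hl⟩
        have hd2 : l ∣ Nat.card (TW (4 : ZMod p) 2 (d * u)).Point := by
          rw [card_tw hp (mul_ne_zero hd hu0)]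
          exact hdvd
        obtain ⟨x, hx⟩ := exists_prime_addOrderOf_dvd_card' l hd2
        have hx0 : l • x = 0 := by rw [← hx]; exact addOrderOf_nsmul_eq_zero x
        have hcz : Nat.card (AddSubgroup.zmultiples x) = l := by
          rw [Nat.card_zmultiples, hx]
        have hinj : Function.Injective
            (fun y : AddSubgroup.zmultiples x =>
              (⟨y.1, by
                obtain ⟨k, hk⟩ := y.2
                rw [← hk]
                show l • (k • x) = 0
                rw [smul_comm, hx0, zsmul_zero]⟩ :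
                {P : (TW (4 : ZMod p) 2 (d * u)).Point // l • P = 0})) := by
          intro y z h
          exact Subtype.ext (Subtype.mk.inj h)
        exact hcz.symm.le.trans (Nat.card_le_card_of_injective _ hinj)
      apply card_torsion_pow hl
      have := hl.two_le
      omega
  · apply torsion_of_not_dvd hl
    rw [card_tw hp hd]
    exact hdvd

end prime

end Pool.Agent.Helper10.K3
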