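import Pool.Agent.Helper10.K3.Reduc2
import Pool.Agent.Helper10.K3.Count
import Pool.Agent.Helper9.KumWA.Level

/-!
# The structure of the unramified twists, in the notation of `KumWA`
-/

namespace KumWA

open Classical

variable {p : ℕ} [hp : Fact p.Prime]

theorem goodRed (h8 : p % 8 = 5) {d₀ : ℤ_[p]} (hd : ‖d₀‖ = 1) :
    Pool.Agent.Helper10.K3.GoodRed (4 : ℤ_[p]) 2 d₀ where
  h2 := Pool.Agent.Helper10.K3.two_ne_zero' h8
  hb := by rw [map_ofNat]; exact Pool.Agent.Helper10.K3.two_ne_zero' h8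
  hd := (Pool.Agent.Helper10.K3.toZMod_ne_zero_iff d₀).2 hd
  hab := by rw [map_ofNat, map_ofNat]; exact Pool.Agent.Helper10.K3.ab_ne_zero h8

theorem mem_Fil_iff {d₀ : ℤ_[p]} (hd : (p : ℤ_[p]) ∣ d₀) (n : ℕ) (P : E ((d₀ : ℤ_[p]) : ℚ_[p])) :
    P ∈ Pool.Agent.Helper10.K3.Fil (4 : ℤ_[p]) 2 d₀ n ↔ fil n P := by
  rcases P with _ | ⟨X, Y, h⟩
  · exact ⟨fun _ => Or.inl rfl, fun _ => Pool.Agent.Helper10.K3.Fil.zero_mem n⟩
  · constructor
    · intro h'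
      right
      have := (Pool.Agent.Helper10.K3.norm_of_mem_Fil hd h').1
      rw [mul_comm, pow_mul]
      exact this
    · rintro (h' | h')
      · exact absurd h' (WeierstrassCurve.Affine.Point.some_ne_zero _)
      · apply Pool.Agent.Helper10.K3.mem_Fil_of_norm hd
        rw [← pow_mul, mul_comm]
        exact h'

theorem unram (h8 : p % 8 = 5) {d : ℚ_[p]} (hd : ‖d‖ = ((p : ℝ) ^ 2)⁻¹) :
    (∃ g₁ : E d, ∀ P : E d, ∃ k : ℤ, fil 0 (P - k • g₁)) ∧ ∀ P : E d, fil 0 ((p + 1) • P) := by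
  have hp0 : (p : ℚ_[p]) ≠ 0 := by exact_mod_cast hp.1.ne_zero
  have hpr : (p : ℝ) ≠ 0 := by exact_mod_cast hp.1.ne_zero
  have hn : ‖d / (p : ℚ_[p]) ^ 2‖ = 1 := by
    rw [norm_div, hd, norm_pow, Padic.norm_p]
    field_simp
  obtain ⟨d₀, hd₀⟩ := Pool.Agent.Helper10.K3.exists_coe_of_norm_le hn.le
  have hdd : d = ((d₀ * p ^ 2 : ℤ_[p]) : ℚ_[p]) := by
    push_cast
    rw [hd₀]
    field_simp
  subst hdd
  have hn0 : ‖d₀‖ = 1 := by
    rw [← hd₀] at hn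
    exact hn
  have H := goodRed h8 hn0
  have hcyc : IsAddCyclic (Pool.Agent.Helper10.K3.TW (PadicInt.toZMod (4 : ℤ_[p])) (PadicInt.toZMod (2 : ℤ_[p]))
      (PadicInt.toZMod d₀)).Point := by
    rw [map_ofNat, map_ofNat]
    exact Pool.Agent.Helper10.K3.isAddCyclic_tw h8 H.hd
  have hN : ∀ R : (Pool.Agent.Helper10.K3.TW (PadicInt.toZMod (4 : ℤ_[p])) (PadicInt.toZMod (2 : ℤ_[p]))
      (PadicInt.toZMod d₀)).Point, (p + 1) • R = 0 := by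
    intro R
    have hc : Nat.card (Pool.Agent.Helper10.K3.TW (PadicInt.toZMod (4 : ℤ_[p])) (PadicInt.toZMod (2 : ℤ_[p]))
      (PadicInt.toZMod d₀)).Point = p + 1 := by
      rw [map_ofNat, map_ofNat]
      exact Pool.Agent.Helper10.K3.card_tw h8 H.hd
    rw [← hc]
    exact card_nsmul_eq_zero'
  have hdiv : (p : ℤ_[p]) ∣ d₀ * p ^ 2 := ⟨d₀ * p, by ring⟩
  obtain ⟨⟨g₁, hg⟩, hexp⟩ := Pool.Agent.Helper10.K3.unram_structure H hcyc hN
  refine ⟨⟨g₁, fun P => ?_⟩, fun P => ?_⟩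
  · obtain ⟨k, hk⟩ := hg P
    exact ⟨k, (mem_Fil_iff hdiv 0 _).1 hk⟩
  · exact (mem_Fil_iff hdiv 0 _).1 (hexp P)

end KumWA
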