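import Pool.Agent.Helper10.K3.Trans
import Pool.Agent.Helper9.KumWA.Ends

/-!
# Weak approximation at all primes `p = 5 mod 8`
-/

namespace KumWA

open Classical Topology

/-- the primes `5 mod 8` -/
abbrev P5 := {p : ℕ // p.Prime ∧ p % 8 = 5}

instance (p : P5) : Fact (p : ℕ).Prime := ⟨p.2.1⟩

/-- the place attached to a prime `5 mod 8` -/
noncomputable def plq (p : P5) : Abs.Place ℤ (ZMod 2) := pl (p : ℕ)

theorem others {S : Finset P5} {v : P5} (hv : ∀ w ∈ S, w < v) :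
    Abs.Others plq S v (fun w => ((w : ℕ) : ℤ) + 1) (fun w => ((w : ℕ) : ℤ)) where
  weak w hw := weak w.2.2
  cop w hw := by
    have h1 : (w : ℕ) < (v : ℕ) := hv w hw
    have h2 := w.2.2
    have h3 := v.2.2
    have h4 : ¬ (v : ℕ) ∣ ((w : ℕ) + 1) * (w : ℕ) := by
      rw [v.2.1.dvd_mul]
      rintro (h | h)
      · have := Nat.le_of_dvd (by omega) h
        omega
      · have := Nat.le_of_dvd w.2.1.pos h
        omega
    have h5 := ((Nat.Prime.coprime_iff_not_dvd v.2.1).2 h4).symm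
    have h6 := Nat.isCoprime_iff_coprime.2 h5
    push_cast at h6
    exact h6
  a0 w hw := by positivity
  ϖ0 w hw := by have := w.2.1.pos; positivity

theorem ind_all (S : Finset P5) : Abs.Ind plq S := by
  induction S using Finset.induction_on_max with
  | empty => exact Abs.ind_empty plq
  | insert v S hv ih =>
    exact Abs.Ind.insert (P := plq) (a := fun w => ((w : ℕ) : ℤ) + 1)
      (ϖ := fun w => ((w : ℕ) : ℤ)) (others hv) (fun j => by revert j; decide) (strong v.2.2)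
      two_ne_zero ih

/-- the approximable families of local data -/
def AppS (S : Finset P5) (l : ∀ i : S, Loc ((i : P5) : ℕ)) : Prop :=
  App (fun i : S => ((i : P5) : ℕ)) (fun i => (l i).d) (fun i => (l i).Q) (fun i => (l i).R)

/-- the corresponding predicate on systems -/
def FS (S : Finset P5) (s : Abs.Sys plq) : Prop := AppS S (fun i => toL ((i : P5) : ℕ) (s i))

theorem AppS.lin {S : Finset P5} {l : ∀ i : S, Loc ((i : P5) : ℕ)} (h : AppS S l)
    (α β γ δ : ℤ) : AppS S (fun i => ⟨(l i).d, (l i).hd, α • (l i).Q + β • (l i).R,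
      γ • (l i).Q + δ • (l i).R⟩) :=
  App.lin (fun i => nd_okl (l i).hd 0) h α β γ δ

theorem AppS.closed {S : Finset P5} {l : ∀ i : S, Loc ((i : P5) : ℕ)}
    (h : ∀ n, ∃ l', AppS S l' ∧ ∀ i, LNear n (l' i) (l i)) : AppS S l := by
  apply App.closed (fun i => nd_okl (l i).hd 0)
  intro n
  obtain ⟨l', h1, h2⟩ := h n
  choose Q' R' h3 h4 h5 using h2
  have e : l' = fun i => ⟨(l i).d, (l i).hd, Q' i, R' i⟩ := funext h3
  subst e
  refine ⟨Q', R', h1, fun i => ?_⟩
  have hok := nd_okl (l i).hd n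
  constructor
  · have := fil_neg (h4 i)
    rwa [neg_sub] at this
  · have := fil_neg (h5 i)
    rwa [neg_sub] at this

theorem AppS.addT {S : Finset P5} {l : ∀ i : S, Loc ((i : P5) : ℕ)} (h : AppS S l) :
    AppS S (fun i => ⟨(l i).d, (l i).hd, (l i).Q + T (nd_ne (l i).hd), (l i).R⟩) :=
  App.addT (fun i => nd_ne (l i).hd) h

theorem AppS.addT' {S : Finset P5} {l : ∀ i : S, Loc ((i : P5) : ℕ)} (h : AppS S l) :
    AppS S (fun i => ⟨(l i).d, (l i).hd, (l i).Q, (l i).R + T (nd_ne (l i).hd)⟩) :=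
  App.addT' (fun i => nd_ne (l i).hd) h

theorem AppS.sig {S : Finset P5} {l l' : ∀ i : S, Loc ((i : P5) : ℕ)} (h : AppS S l)
    (hs : ∀ i, SigL (l i) (l' i)) : AppS S l' := by
  choose u hu h1 h2 using hs
  have h3 : Near (fun i : S => ((i : P5) : ℕ)) u :=
    near_of_app (fun i => nd_okl (l i).hd 0) h h1
  have h4 := near_iota h3 hu
  exact app_of_near (q := fun i : S => ((i : P5) : ℕ)) (fun i => p_ne_two (i : P5).2.2) h4 h2

theorem inj_P5 (S : Finset P5) : Function.Injective (fun i : S => ((i : P5) : ℕ)) :=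
  fun _ _ h => Subtype.ext (Subtype.ext h)

theorem AppS.base {S : Finset P5} {l : ∀ i : S, Loc ((i : P5) : ℕ)} (h : ∀ i, (l i).R = 0) :
    AppS S l := by
  apply AppS.closed
  intro n
  have h1 : ∀ i : S, ∃ Q' : E (l i).d, yc Q' ≠ 0 ∧ fil n (Q' - (l i).Q) := by
    intro i
    obtain ⟨Q', h2, h3⟩ := exists_near_avoid (i : P5).2.2 (l i).hd _
      (finite_yc (nd_ne (l i).hd)) (l i).Q n
    rw [Set.mem_ofPred_eq, not_or] at h2
    exact ⟨Q', h2.2, h3⟩
  choose Q' hy hQ using h1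
  refine ⟨fun i => ⟨(l i).d, (l i).hd, Q' i, 0⟩, ?_, fun i => ⟨Q' i, 0, rfl, hQ i, ?_⟩⟩
  · have h2 : AppS S (fun i => ⟨(l i).d, (l i).hd, Q' i, Q' i⟩) := by
      apply app_of_near (q := fun i : S => ((i : P5) : ℕ)) (fun i => p_ne_two (i : P5).2.2)
        (v := fun i => mkPt (nd_ne (l i).hd) (Q' i) (Q' i) (hy i) (hy i))
      · apply near_diag _ (inj_P5 S)
        intro i
        refine ⟨rfl, ?_⟩
        have hd := nd_ne (l i).hd
        change yc (Q' i) * yc (Q' i) / (l i).d ^ 3 = ff (xc (Q' i) / (l i).d)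
        rw [← sq, yc_sq_ff hd, mul_div_cancel_left₀ _ (pow_ne_zero 3 hd)]
      · intro i
        exact rep_mkPt _ _ _
    have h3 := h2.lin 1 0 1 (-1)
    have e : (fun i : S => (⟨(l i).d, (l i).hd, (1 : ℤ) • Q' i + (0 : ℤ) • Q' i,
        (1 : ℤ) • Q' i + (-1 : ℤ) • Q' i⟩ : Loc ((i : P5) : ℕ))) =
        fun i => ⟨(l i).d, (l i).hd, Q' i, 0⟩ := by
      funext i
      have e1 : (1 : ℤ) • Q' i + (0 : ℤ) • Q' i = Q' i := by simp
      have e2 : (1 : ℤ) • Q' i + (-1 : ℤ) • Q' i = 0 := by simp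
      rw [e1, e2]
    exact e ▸ h3
  · rw [h i, sub_zero]
    exact fil_zero' n

section

variable {p : ℕ} [Fact p.Prime]

theorem toL_tr1_zero (l : Abs.Loc (prePl p)) : toL p (l.tr1 0) = toL p l := by
  rw [Abs.Loc.tr1_zero]

theorem toL_tr2_zero (l : Abs.Loc (prePl p)) : toL p (l.tr2 0) = toL p l := by
  rw [Abs.Loc.tr2_zero]

theorem toL_tr1_one (l : Abs.Loc (prePl p)) : toL p (l.tr1 1) =
    ⟨(toL p l).d, (toL p l).hd, (toL p l).Q + T (nd_ne (toL p l).hd), (toL p l).R⟩ := by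
  obtain ⟨d, Q, R⟩ := l
  let Q' : E d.1 := Q
  change (⟨d.1, d.2, Q' + torHom p d 1, R⟩ : Loc p) = _
  rw [tor_one]
  rfl

theorem toL_tr2_one (l : Abs.Loc (prePl p)) : toL p (l.tr2 1) =
    ⟨(toL p l).d, (toL p l).hd, (toL p l).Q, (toL p l).R + T (nd_ne (toL p l).hd)⟩ := by
  obtain ⟨d, Q, R⟩ := l
  let R' : E d.1 := R
  change (⟨d.1, d.2, Q, R' + torHom p d 1⟩ : Loc p) = _
  rw [tor_one]
  rfl

end

theorem FS.stable (S : Finset P5) : Abs.Stable plq S (FS S) where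
  cl s h := by
    apply AppS.closed
    intro n
    obtain ⟨s', h1, h2⟩ := h n
    exact ⟨_, h1, fun i => near_iff.1 (h2 i i.2)⟩
  sh1 s a h := by
    have h1 := AppS.lin h 1 a 0 1
    refine cast (congrArg (AppS S) (funext fun i => ?_)) h1
    have e1 : ∀ Q R : E (toL ((i : P5) : ℕ) (s i)).d, (1 : ℤ) • Q + a • R = Q + a • R := by
      intro Q R; rw [one_zsmul]
    have e2 : ∀ Q R : E (toL ((i : P5) : ℕ) (s i)).d, (0 : ℤ) • Q + (1 : ℤ) • R = R := by
      intro Q R; rw [zero_zsmul, one_zsmul, zero_add]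
    rw [e1, e2]
    rfl
  sh2 s a h := by
    have h1 := AppS.lin h 1 0 a 1
    refine cast (congrArg (AppS S) (funext fun i => ?_)) h1
    have e1 : ∀ Q R : E (toL ((i : P5) : ℕ) (s i)).d, (1 : ℤ) • Q + (0 : ℤ) • R = Q := by
      intro Q R; rw [one_zsmul, zero_zsmul, add_zero]
    have e2 : ∀ Q R : E (toL ((i : P5) : ℕ) (s i)).d, a • Q + (1 : ℤ) • R = R + a • Q := by
      intro Q R; rw [one_zsmul, add_comm]
    rw [e1, e2]
    rfl
  tr1 s j h := by
    rcases zmod2_cases j with rfl | rfl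
    · refine cast (congrArg (AppS S) (funext fun i => ?_)) h
      exact (toL_tr1_zero _).symm
    · refine cast (congrArg (AppS S) (funext fun i => ?_)) (AppS.addT h)
      exact (toL_tr1_one _).symm
  tr2 s j h := by
    rcases zmod2_cases j with rfl | rfl
    · refine cast (congrArg (AppS S) (funext fun i => ?_)) h
      exact (toL_tr2_zero _).symm
    · refine cast (congrArg (AppS S) (funext fun i => ?_)) (AppS.addT' h)
      exact (toL_tr2_one _).symm
  un1 s ε h := by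
    have h1 := AppS.lin h (ε : ℤ) 0 0 1
    refine cast (congrArg (AppS S) (funext fun i => ?_)) h1
    have e1 : ∀ Q R : E (toL ((i : P5) : ℕ) (s i)).d, (ε : ℤ) • Q + (0 : ℤ) • R = (ε : ℤ) • Q := by
      intro Q R; rw [zero_zsmul, add_zero]
    have e2 : ∀ Q R : E (toL ((i : P5) : ℕ) (s i)).d, (0 : ℤ) • Q + (1 : ℤ) • R = R := by
      intro Q R; rw [zero_zsmul, one_zsmul, zero_add]
    rw [e1, e2]
    rfl
  un2 s ε h := by
    have h1 := AppS.lin h 1 0 0 (ε : ℤ)
    refine cast (congrArg (AppS S) (funext fun i => ?_)) h1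
    have e1 : ∀ Q R : E (toL ((i : P5) : ℕ) (s i)).d, (1 : ℤ) • Q + (0 : ℤ) • R = Q := by
      intro Q R; rw [one_zsmul, zero_zsmul, add_zero]
    have e2 : ∀ Q R : E (toL ((i : P5) : ℕ) (s i)).d, (0 : ℤ) • Q + (ε : ℤ) • R = (ε : ℤ) • R := by
      intro Q R; rw [zero_zsmul, zero_add]
    rw [e1, e2]
    rfl
  sig s s' h hs := AppS.sig h (fun i => hs i i.2)
  base s h := AppS.base (fun i => h i i.2)

theorem appS_all (S : Finset P5) (l : ∀ i : S, Loc ((i : P5) : ℕ)) : AppS S l := by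
  set s : Abs.Sys plq := fun p => if hp : p ∈ S then ofL (p : ℕ) (l ⟨p, hp⟩) else
    ⟨⟨(p : ℕ), Or.inl (by rw [Padic.norm_p])⟩, 0, 0⟩ with hs
  have h1 : FS S s := ind_all S _ (FS.stable S) s
  refine cast (congrArg (AppS S) (funext fun i => ?_)) h1
  have e : s i = ofL ((i : P5) : ℕ) (l i) := by
    rw [hs]
    exact dif_pos i.2
  rw [e]
  rfl

/-- density at finitely many primes `5 mod 8` -/
theorem near_P5 (S : Finset P5) (v : ∀ i : S, Pt ℚ_[((i : P5) : ℕ)]) :
    Near (fun i : S => ((i : P5) : ℕ)) v := by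
  choose d P Q hd hrep using fun i => exists_rep (v i)
  exact near_of_app (fun i => nd_okl (hd i) 0) (appS_all S (fun i => ⟨d i, hd i, P i, Q i⟩)) hrep

/-- the element of `P5` as a prime number in a subtype of `Nat.Primes` -/
def toPr (i : P5) : {p : Nat.Primes // (p : ℕ) % 8 = 5} := ⟨⟨(i : ℕ), i.2.1⟩, i.2.2⟩

/-- inverse of `toPr` -/
def ofPr (p : {p : Nat.Primes // (p : ℕ) % 8 = 5}) : P5 := ⟨((p : Nat.Primes) : ℕ), p.1.2, p.2⟩

/-- density in the product over all primes `5 mod 8` -/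
theorem dense_P5 :
    DenseRange (fun (u : Pt ℚ) (p : {p : Nat.Primes // (p : ℕ) % 8 = 5}) =>
      Pt.map (Rat.castHom ℚ_[((p : Nat.Primes) : ℕ)]) u) := by
  intro v
  rw [mem_closure_iff_nhds]
  intro N hN
  rw [nhds_pi, Filter.mem_pi] at hN
  obtain ⟨I, hI, U, hU, hUN⟩ := hN
  obtain ⟨u, hu⟩ := near_P5 (hI.toFinset.image ofPr) (fun i => v (toPr (i : P5)))
    (fun i => U (toPr (i : P5))) (fun i => hU (toPr (i : P5)))
  refine ⟨_, hUN ?_, u, rfl⟩
  intro p hp
  exact hu ⟨ofPr p, Finset.mem_image_of_mem _ (hI.mem_toFinset.2 hp)⟩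

end KumWA
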