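import Pool.Agent.Helper9.KumWA.Kappa

/-!
# Local data for systems of points at several primes: definitions
-/

namespace KumWA

open Classical

/-- a local datum: a normalised twisting parameter and two points of `E d` -/
structure Loc (p : ℕ) [Fact p.Prime] where
  d : ℚ_[p]
  hd : nd d
  Q : E d
  R : E d

variable {p : ℕ} [hp : Fact p.Prime]

/-- closeness of local data (same twisting parameter) -/
def LNear (n : ℕ) (l' l : Loc p) : Prop :=
  ∃ Q' R' : E l.d, l' = ⟨l.d, l.hd, Q', R'⟩ ∧ fil n (Q' - l.Q) ∧ fil n (R' - l.R)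

/-- two local data related by the involution `iota` of the surface -/
def SigL (l l' : Loc p) : Prop :=
  ∃ (u : Pt ℚ_[p]) (h : IOK u), Rep u l.d l.Q l.R ∧ Rep (iota u h) l'.d l'.Q l'.R

/-- the point is `0` or `T` modulo the formal part -/
def nk {d : ℚ_[p]} (hd : nd d) (P : E d) : Prop := fil 0 P ∨ fil 0 (P + T (nd_ne hd))

/-- the datum is near one of the four rational nodes -/
def NN (l : Loc p) : Prop := nk l.hd l.Q ∧ nk l.hd l.R

theorem SigL.symm {l l' : Loc p} (h : SigL l l') : SigL l' l := by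
  obtain ⟨u, hu, h1, h2⟩ := h
  refine ⟨iota u hu, IOK_iota u hu, h2, ?_⟩
  rw [iota_iota]
  exact h1

theorem LNear.refl (n : ℕ) (l : Loc p) : LNear n l l := by
  refine ⟨l.Q, l.R, rfl, ?_, ?_⟩ <;> rw [sub_self] <;> exact fil_zero' n

end KumWA
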