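import Pool.Agent.Helper10.K3.AbsInd
import Pool.Agent.Helper10.K3.SysDefs
import Pool.Agent.Helper89.K3A
import Pool.Agent.Helper26.K3B
import Pool.Agent.Helper98.K3C
import Pool.Agent.Helper78.K3D
import Pool.Agent.Helper23.K3E

/-!
# The places `p = 5 mod 8` satisfy the axioms of the abstract induction
-/

namespace KumWA

open Classical

section place

variable (p : ℕ) [hp : Fact p.Prime]

/-- the point `T` as a map from `ℤ / 2` -/
noncomputable def torHom (d : {d : ℚ_[p] // nd d}) : ZMod 2 →+ E d.1 :=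
  ZMod.lift 2 ⟨zmultiplesHom (E d.1) (T (nd_ne d.2)), by
    rw [zmultiplesHom_apply]
    have := T_add_T (nd_ne d.2)
    rw [← two_zsmul] at this
    exact_mod_cast this⟩

/-- modules of local points -/
noncomputable def prePl : Abs.PrePlace ℤ (ZMod 2) where
  D := {d : ℚ_[p] // nd d}
  M d := E d.1
  fil d n := AddSubgroup.toIntSubmodule (Fil (nd_okl d.2 n))
  tor d := (torHom p d).toIntLinearMap

/-- concrete local datum -/
noncomputable def toL (l : Abs.Loc (prePl p)) : Loc p := ⟨l.d.1, l.d.2, l.Q, l.R⟩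

/-- the local theory at `p` -/
noncomputable def pl : Abs.Place ℤ (ZMod 2) where
  toPrePlace := prePl p
  Sig l l' := SigL (toL p l) (toL p l')

/-- abstract local datum -/
noncomputable def ofL (l : Loc p) : Abs.Loc (prePl p) := ⟨⟨l.d, l.hd⟩, l.Q, l.R⟩

end place

variable {p : ℕ} [hp : Fact p.Prime]

theorem toL_ofL (l : Loc p) : toL p (ofL p l) = l := rfl

theorem ofL_toL (l : Abs.Loc (prePl p)) : ofL p (toL p l) = l := rfl

theorem mem_fil_iff {d : {d : ℚ_[p] // nd d}} {n : ℕ} {P : E d.1} :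
    (P : (prePl p).M d) ∈ (prePl p).fil d n ↔ fil n P := Iff.rfl

theorem tor_zero (d : {d : ℚ_[p] // nd d}) : torHom p d 0 = (0 : E d.1) :=
  map_zero (torHom p d)

theorem tor_one (d : {d : ℚ_[p] // nd d}) : torHom p d 1 = T (nd_ne d.2) := by
  have : (1 : ZMod 2) = ((1 : ℤ) : ZMod 2) := by simp
  rw [this, torHom, ZMod.lift_coe]
  change zmultiplesHom (E d.1) (T (nd_ne d.2)) 1 = _
  rw [zmultiplesHom_apply, one_zsmul]

theorem near_iff {n : ℕ} {l' l : Abs.Loc (prePl p)} :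
    Abs.Loc.Near n l' l ↔ LNear n (toL p l') (toL p l) := by
  obtain ⟨d, Q, R⟩ := l
  obtain ⟨d', Q', R'⟩ := l'
  constructor
  · rintro ⟨Q₁, R₁, h1, h2, h3⟩
    cases h1
    exact ⟨_, _, rfl, h2, h3⟩
  · rintro ⟨Q₁, R₁, h1, h2, h3⟩
    refine ⟨Q₁, R₁, ?_, h2, h3⟩
    have := congrArg (ofL p) h1
    exact this

/-! ### weak axioms -/

theorem weak (h8 : p % 8 = 5) : Abs.Weak (pl p) ((p : ℤ) + 1) p where
  anti d := by
    intro m n hmn P hP
    exact fil_mono (d := d.1) hmn hP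
  exp d x n := by
    have h := loc_exp h8 d.2 x n
    have e : (((p : ℤ) + 1) * (p : ℤ) ^ n) • (x : E d.1) = (((p + 1) * p ^ n : ℕ)) • (x : E d.1) := by
      rw [← natCast_zsmul]; push_cast; rfl
    change fil n ((((p : ℤ) + 1) * (p : ℤ) ^ n) • (x : E d.1))
    rw [e]
    exact h
  sig_base d Q n := by
    obtain ⟨d₀, hd₀, Q₀, M, h1, h2⟩ := sig_base h8 d.2 Q n
    refine ⟨⟨d₀, hd₀⟩, Q₀, M, ?_, ?_⟩
    · intro a ha h0
      apply h1 a.natAbs (Int.natAbs_ne_zero.2 ha)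
      have h3 : a • Q₀ = 0 := h0
      rcases Int.natAbs_eq a with h | h
      · rw [h, natCast_zsmul] at h3
        exact h3
      · rw [h, neg_zsmul, natCast_zsmul, neg_eq_zero] at h3
        exact h3
    · intro R₀ hR₀ hf
      obtain ⟨l', h3, h4⟩ := h2 R₀ hR₀ hf
      exact ⟨ofL p l', h3, near_iff.2 h4⟩
  dense l n := by
    obtain ⟨l₀, l', h1, h2⟩ := exists_sig_near h8 (toL p l) n
    exact ⟨ofL p l₀, ofL p l', h1, near_iff.2 h2⟩

/-! ### levels -/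

theorem three_lt (h8 : p % 8 = 5) : 3 < p := by
  have : 5 ≤ p := by omega
  omega

theorem lev_two (h8 : p % 8 = 5) {d : ℚ_[p]} (hd : nd d) {c : ℕ} {W : E d} (hW : lev c W) :
    lev c (2 • W) := by
  have hok := nd_okl hd c
  have h1 := tt_nsmul_rough hok hW.1 2
  refine ⟨fil_nsmul hok hW.1 2, ?_⟩
  have h2 : ‖((2 : ℕ) : ℚ_[p]) * tt W‖ = ((p : ℝ) ^ c)⁻¹ := by
    rw [norm_mul, hW.2]
    have := norm_two (p := p) (by have := three_lt h8; omega)
    push_cast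
    rw [this, one_mul]
  rw [← h2]
  apply neq_of_sub_lt
  rw [h2]
  exact h1.trans_lt (inv_pow_lt (by omega))

theorem gen_two_smul (h8 : p % 8 = 5) {d : ℚ_[p]} (hd : nd d) {c : ℕ} {W ξ : E d} (hW : lev c W)
    (hξ : fil c ξ) (k : ℕ) : ∃ j : ℤ, fil k (ξ - j • (2 • W)) := by
  obtain ⟨j, hj⟩ := lev_gen (by have := three_lt h8; omega) k (nd_okl hd c) (lev_two h8 hd hW) hξ
  refine ⟨j, fil_mono (Nat.le_add_left k c) ?_⟩
  rw [natCast_zsmul]
  exact hj

theorem Lev_of_lev (h8 : p % 8 = 5) {d : {d : ℚ_[p] // nd d}} {c : ℕ} {W : E d.1} (hW : lev c W) :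
    Abs.Lev (prePl p) d c W := by
  refine ⟨hW.1, fun ξ hξ k => ?_⟩
  obtain ⟨j, hj⟩ := gen_two_smul h8 d.2 hW hξ k
  refine ⟨j, ?_⟩
  let ξ' : E d.1 := ξ
  change fil k (ξ' - (2 * j) • W)
  have e : (2 * j) • W = j • (2 • W) := by
    rw [mul_comm, mul_zsmul]
    rfl
  rw [e]
  exact hj

theorem content (h8 : p % 8 = 5) (d : {d : ℚ_[p] // nd d}) (x y : (prePl p).M d)
    (hx : x ∈ (prePl p).fil d 0) (hy : y ∈ (prePl p).fil d 0) :
    (x = 0 ∧ y = 0) ∨ ∃ c, Abs.Cont (prePl p) d c x y := by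
  by_cases hx0 : x = 0
  · by_cases hy0 : y = 0
    · exact Or.inl ⟨hx0, hy0⟩
    · right
      obtain ⟨c, hc⟩ := exists_lev_of_fil_aux h8 d.2 hy hy0
      refine ⟨c, ?_, hc.1, Or.inr (Lev_of_lev h8 hc)⟩
      rw [hx0]; exact Submodule.zero_mem _
  · right
    obtain ⟨c, hc⟩ := exists_lev_of_fil_aux h8 d.2 hx hx0
    by_cases hy0 : y = 0
    · refine ⟨c, hc.1, ?_, Or.inl (Lev_of_lev h8 hc)⟩
      rw [hy0]; exact Submodule.zero_mem _
    · obtain ⟨c', hc'⟩ := exists_lev_of_fil_aux h8 d.2 hy hy0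
      rcases le_total c c' with h | h
      · exact ⟨c, hc.1, fil_mono h hc'.1, Or.inl (Lev_of_lev h8 hc)⟩
      · exact ⟨c', fil_mono h hc.1, hc'.1, Or.inr (Lev_of_lev h8 hc')⟩

/-! ### nodes -/

theorem link_0011 (h8 : p % 8 = 5) : Abs.NLink (pl p) 0 0 1 1 := by
  intro d c
  obtain ⟨η, hη⟩ := exists_lev h8 d.2 c
  obtain ⟨η', hη', hy', hx'⟩ := exists_opp h8 d.2 hη
  obtain ⟨-, hy, -⟩ := lev_norm d.2 hη
  refine ⟨⟨d, η, η'⟩, η, η', ?_, ?_, ?_⟩
  · constructor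
    · change fil 0 (η - torHom p d 0)
      rw [tor_zero]
      change fil 0 (η - 0)
      rw [sub_zero]
      exact fil_mono (Nat.zero_le _) hη.1
    · change fil 0 (η' - torHom p d 0)
      rw [tor_zero]
      change fil 0 (η' - 0)
      rw [sub_zero]
      exact fil_mono (Nat.zero_le _) hη'.1
  · exact ⟨hη.1, hη'.1, Or.inl (Lev_of_lev h8 hη)⟩
  · change SigL ⟨d.1, d.2, η, η'⟩ ⟨d.1, d.2, torHom p d 1 + η, torHom p d 1 + η'⟩
    rw [tor_one]
    have := sig_opp d.2 hy hy' hx'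
    change SigL ⟨d.1, d.2, η, η'⟩ ⟨d.1, d.2, T (nd_ne d.2) + η, T (nd_ne d.2) + η'⟩
    rwa [add_comm (T _) η, add_comm (T _) η']

theorem link_1100 (h8 : p % 8 = 5) : Abs.NLink (pl p) 1 1 0 0 := by
  intro d c
  obtain ⟨η, hη⟩ := exists_lev h8 d.2 c
  obtain ⟨η', hη', hy', hx'⟩ := exists_opp h8 d.2 hη
  obtain ⟨-, hy, -⟩ := lev_norm d.2 hη
  refine ⟨⟨d, η + T (nd_ne d.2), η' + T (nd_ne d.2)⟩, η, η', ?_, ?_, ?_⟩
  · constructor
    · change fil 0 (η + T (nd_ne d.2) - torHom p d 1)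
      rw [tor_one]
      change fil 0 (η + T (nd_ne d.2) - T (nd_ne d.2))
      rw [add_sub_cancel_right]
      exact fil_mono (Nat.zero_le _) hη.1
    · change fil 0 (η' + T (nd_ne d.2) - torHom p d 1)
      rw [tor_one]
      change fil 0 (η' + T (nd_ne d.2) - T (nd_ne d.2))
      rw [add_sub_cancel_right]
      exact fil_mono (Nat.zero_le _) hη'.1
  · exact ⟨hη.1, hη'.1, Or.inl (Lev_of_lev h8 hη)⟩
  · change SigL ⟨d.1, d.2, η + T (nd_ne d.2), η' + T (nd_ne d.2)⟩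
      ⟨d.1, d.2, torHom p d 0 + η, torHom p d 0 + η'⟩
    rw [tor_zero]
    change SigL _ ⟨d.1, d.2, 0 + η, 0 + η'⟩
    rw [zero_add, zero_add]
    exact (sig_opp d.2 hy hy' hx').symm

theorem link_0101 (h8 : p % 8 = 5) : Abs.NLink (pl p) 0 1 0 1 := by
  intro d c
  obtain ⟨η, hη⟩ := exists_lev h8 d.2 c
  obtain ⟨η', hη', hy', hx'⟩ := exists_opp h8 d.2 hη
  obtain ⟨-, hy, -⟩ := lev_norm d.2 hη
  refine ⟨⟨d, η, η + T (nd_ne d.2)⟩, η', η', ?_, ?_, ?_⟩
  · constructor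
    · change fil 0 (η - torHom p d 0)
      rw [tor_zero]
      change fil 0 (η - 0)
      rw [sub_zero]
      exact fil_mono (Nat.zero_le _) hη.1
    · change fil 0 (η + T (nd_ne d.2) - torHom p d 1)
      rw [tor_one]
      change fil 0 (η + T (nd_ne d.2) - T (nd_ne d.2))
      rw [add_sub_cancel_right]
      exact fil_mono (Nat.zero_le _) hη.1
  · exact ⟨hη'.1, hη'.1, Or.inl (Lev_of_lev h8 hη')⟩
  · change SigL ⟨d.1, d.2, η, η + T (nd_ne d.2)⟩
      ⟨d.1, d.2, torHom p d 0 + η', torHom p d 1 + η'⟩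
    rw [tor_zero, tor_one]
    change SigL _ ⟨d.1, d.2, 0 + η', T (nd_ne d.2) + η'⟩
    rw [zero_add, add_comm (T _) η']
    exact sig_trans h8 d.2 hy hy' hx'

theorem link_1010 (h8 : p % 8 = 5) : Abs.NLink (pl p) 1 0 1 0 := by
  intro d c
  obtain ⟨η, hη⟩ := exists_lev h8 d.2 c
  obtain ⟨η', hη', hy', hx'⟩ := exists_opp h8 d.2 hη
  obtain ⟨-, hy, -⟩ := lev_norm d.2 hη
  have hd0 := nd_ne d.2
  obtain ⟨-, a2, a3, -, a5⟩ := yc_add_T_ne hd0 hy
  obtain ⟨-, b2, b3, -, b5⟩ := yc_add_T_ne hd0 hy'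
  have hx2 : xc (η' + T hd0) = - xc (η + T hd0) := by
    rw [b3, a3, hx', div_neg]
  have h1 := sig_trans h8 d.2 a5 b5 hx2
  have e : ∀ P : E d.1, P + T hd0 + T hd0 = P := by
    intro P
    rw [add_assoc, T_add_T, add_zero]
  rw [e, e] at h1
  refine ⟨⟨d, η + T (nd_ne d.2), η⟩, η', η', ?_, ?_, ?_⟩
  · constructor
    · change fil 0 (η + T (nd_ne d.2) - torHom p d 1)
      rw [tor_one]
      change fil 0 (η + T (nd_ne d.2) - T (nd_ne d.2))
      rw [add_sub_cancel_right]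
      exact fil_mono (Nat.zero_le _) hη.1
    · change fil 0 (η - torHom p d 0)
      rw [tor_zero]
      change fil 0 (η - 0)
      rw [sub_zero]
      exact fil_mono (Nat.zero_le _) hη.1
  · exact ⟨hη'.1, hη'.1, Or.inl (Lev_of_lev h8 hη')⟩
  · change SigL ⟨d.1, d.2, η + T (nd_ne d.2), η⟩
      ⟨d.1, d.2, torHom p d 1 + η', torHom p d 0 + η'⟩
    rw [tor_zero, tor_one]
    change SigL _ ⟨d.1, d.2, T (nd_ne d.2) + η', 0 + η'⟩
    rw [zero_add, add_comm (T _) η']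
    exact h1

theorem zmod2_cases (i : ZMod 2) : i = 0 ∨ i = 1 := by
  revert i; decide

theorem nlink_all (h8 : p % 8 = 5) (i' j' : ZMod 2) : ∃ i j, Abs.NLink (pl p) i j i' j' := by
  rcases zmod2_cases i' with rfl | rfl <;> rcases zmod2_cases j' with rfl | rfl
  · exact ⟨1, 1, link_1100 h8⟩
  · exact ⟨0, 1, link_0101 h8⟩
  · exact ⟨1, 0, link_1010 h8⟩
  · exact ⟨0, 0, link_0011 h8⟩

theorem nodes_all (h8 : p % 8 = 5) (H : ZMod 2 → ZMod 2 → Prop) (h0 : ∀ i, H i 0)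
    (h1 : ∀ i j (a : ℤ), H i j → H (i + a • j) j)
    (h2 : ∀ i j i' j', Abs.NLink (pl p) i j i' j' → H i j → H i' j') : ∀ i j, H i j := by
  have h3 : H 1 1 := h2 0 0 1 1 (link_0011 h8) (h0 0)
  have h4 : H 0 1 := by
    have := h1 1 1 1 h3
    have e : (1 : ZMod 2) + (1 : ℤ) • (1 : ZMod 2) = 0 := by decide
    rwa [e] at this
  intro i j
  rcases zmod2_cases j with rfl | rfl
  · exact h0 i
  · rcases zmod2_cases i with rfl | rfl
    · exact h4
    · exact h3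

end KumWA
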