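import Pool.Agent.Helper10.K3.Reduc2

/-!
# The local structure: a topological generator
-/

namespace Pool.Agent.Helper10.K3

open WeierstrassCurve PadicInt

section General

variable {F : Type*} [Field F] [DecidableEq F]

/-- The two-torsion point `(0, 0)`. -/
def ptO (a b d : F) (h2 : (2 : F) ≠ 0) (hb : b ≠ 0) (hd : d ≠ 0) (hab : a ^ 2 - 4 * b ≠ 0) :
    (TW a b d).Point :=
  .some 0 0 (tw_nonsingular a b d h2 hb hd hab (by ring))

theorem two_ptO {a b d : F} {h2 : (2 : F) ≠ 0} {hb : b ≠ 0} {hd : d ≠ 0}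
    {hab : a ^ 2 - 4 * b ≠ 0} : (2 : ℕ) • ptO a b d h2 hb hd hab = 0 := by
  rw [two_nsmul]
  apply Affine.Point.add_of_Y_eq rfl
  rw [tw_negY, neg_zero]

theorem add_ptO {a b d : F} {h2 : (2 : F) ≠ 0} {hb : b ≠ 0} {hd : d ≠ 0}
    {hab : a ^ 2 - 4 * b ≠ 0} {X Y : F} (h : (TW a b d).Nonsingular X Y) (hX : X ≠ 0) :
    ∃ X₃ Y₃, ∃ h₃ : (TW a b d).Nonsingular X₃ Y₃,
      (Affine.Point.some X Y h + ptO a b d h2 hb hd hab : (TW a b d).Point)
        = Affine.Point.some X₃ Y₃ h₃ ∧ X₃ * X = b * d ^ 2 ∧ Y₃ * X = -(Y * X₃) := by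
  have h0 := tw_nonsingular a b d h2 hb hd hab (X := 0) (Y := 0) (by ring)
  obtain ⟨X₃, Y₃, h₃, e1, e2, e3⟩ := tw_add_X_ne h h0 hX
  have q := (tw_equation _ _ _ _ _).1 h.1
  refine ⟨X₃, Y₃, h₃, e1, ?_, ?_⟩
  · apply mul_right_cancel₀ hX
    linear_combination e2 + q
  · linear_combination e3

end General

section AbstractGroup

/-- abstract consequences of the existence of a topological generator. -/
theorem abs_T {G : Type*} [AddCommGroup G] {H : AddSubgroup G} {g T : G} {M : ℕ} (hM : Odd M)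
    (hg : ∃ k : ℤ, T - k • g ∈ H) (hexp : (2 * M) • g ∈ H) (hT : T ∉ H) (hT2 : 2 • T ∈ H) :
    M • g - T ∈ H := by
  obtain ⟨k, hk⟩ := hg
  obtain ⟨m, rfl⟩ := hM
  -- `k` is odd
  have hMT : (2 * m + 1) • T - T ∈ H := by
    have : (2 * m + 1) • T - T = m • (2 • T) := by
      rw [add_smul, one_smul, add_sub_cancel_right, mul_comm, mul_nsmul']
    rw [this]
    exact H.nsmul_mem hT2 m
  have h1 : (2 * m + 1) • (T - k • g) ∈ H := H.nsmul_mem hk _
  have h2 : (2 * m + 1) • (k • g) = k • ((2 * m + 1) • g) := by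
    rw [smul_comm]
  have h3 : T - k • ((2 * m + 1) • g) ∈ H := by
    have e : T - k • ((2 * m + 1) • g) = (2 * m + 1) • (T - k • g) - ((2 * m + 1) • T - T) := by
      rw [smul_sub, h2]; abel
    rw [e]
    exact H.sub_mem h1 hMT
  have hexp' : (2 : ℤ) • ((2 * m + 1) • g) ∈ H := by
    have e : (2 : ℤ) • ((2 * m + 1) • g) = (2 * (2 * m + 1)) • g := by
      rw [mul_nsmul', ofNat_zsmul]
    rw [e]; exact hexp
  rcases Int.even_or_odd' k with ⟨j, rfl | rfl⟩
  · exfalso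
    apply hT
    have e : (2 * j) • ((2 * m + 1) • g) = j • ((2 : ℤ) • ((2 * m + 1) • g)) := by
      rw [mul_comm, mul_zsmul']
    rw [e] at h3
    have := H.add_mem h3 (H.zsmul_mem hexp' j)
    rwa [sub_add_cancel] at this
  · have e : (2 * j + 1) • ((2 * m + 1) • g)
        = j • ((2 : ℤ) • ((2 * m + 1) • g)) + (2 * m + 1) • g := by
      rw [add_smul, one_smul, mul_comm, mul_zsmul']
    rw [e] at h3
    have h4 := H.neg_mem (H.add_mem h3 (H.zsmul_mem hexp' j))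
    have e2 : (2 * m + 1) • g - T = -(T - (j • ((2 : ℤ) • ((2 * m + 1) • g)) + (2 * m + 1) • g)
        + j • ((2 : ℤ) • ((2 * m + 1) • g))) := by abel
    rw [e2]
    exact h4

end AbstractGroup

end Pool.Agent.Helper10.K3
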