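import Pool.Agent.Helper10.K3.Local0

/-!
# Closeness in the group and closeness of coordinates
-/

namespace Pool.Agent.Helper10.K3

open WeierstrassCurve

variable {p : ℕ} [Fact p.Prime]

section

variable {a b δ : ℤ_[p]}

/-- Group-close implies coordinate-close. -/
theorem close_of_Fil (hδ : (p : ℤ_[p]) ∣ δ) {X Y : ℚ_[p]}
    (h : (TW (a : ℚ_[p]) b δ).Nonsingular X Y) {ε : ℝ} (hε : 0 < ε) :
    ∃ n : ℕ, ∀ P' : (TW (a : ℚ_[p]) b δ).Point, P' - Affine.Point.some X Y h ∈ Fil a b δ n →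
      ∃ X' Y', ∃ h' : (TW (a : ℚ_[p]) b δ).Nonsingular X' Y',
        P' = Affine.Point.some X' Y' h' ∧ ‖X' - X‖ < ε ∧ ‖Y' - Y‖ < ε := by
  -- constants
  set A : ℚ_[p] := a * δ with hA
  set B : ℚ_[p] := b * δ ^ 2 with hB
  set c : ℚ_[p] := Y ^ 2 - A * X ^ 2 - 2 * X ^ 3 with hc
  set f' : ℚ_[p] := B + 2 * A * X + 3 * X ^ 2 with hf'
  obtain ⟨C, hC1, hCa, hCb⟩ : ∃ C : ℝ, 1 ≤ C ∧ ‖c‖ + ‖2 * Y‖ + ‖f'‖ ≤ C ∧
      (‖2 * Y * X ^ 3‖ + ‖6 * Y * X ^ 2‖ + ‖6 * Y * X‖ + ‖2 * Y * A‖ + ‖2 * Y * B‖ +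
        ‖Y * c‖ + ‖Y * f'‖ + ‖c‖ + ‖f'‖ + ‖2 * Y ^ 2‖) ≤ C := by
    refine ⟨1 + (‖c‖ + ‖2 * Y‖ + ‖f'‖) + (‖2 * Y * X ^ 3‖ + ‖6 * Y * X ^ 2‖ + ‖6 * Y * X‖ +
      ‖2 * Y * A‖ + ‖2 * Y * B‖ + ‖Y * c‖ + ‖Y * f'‖ + ‖c‖ + ‖f'‖ + ‖2 * Y ^ 2‖), ?_, ?_, ?_⟩
    · have : 0 ≤ (‖c‖ + ‖2 * Y‖ + ‖f'‖) + (‖2 * Y * X ^ 3‖ + ‖6 * Y * X ^ 2‖ + ‖6 * Y * X‖ +
        ‖2 * Y * A‖ + ‖2 * Y * B‖ + ‖Y * c‖ + ‖Y * f'‖ + ‖c‖ + ‖f'‖ + ‖2 * Y ^ 2‖) := by positivity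
      linarith
    · have : 0 ≤ (‖2 * Y * X ^ 3‖ + ‖6 * Y * X ^ 2‖ + ‖6 * Y * X‖ +
        ‖2 * Y * A‖ + ‖2 * Y * B‖ + ‖Y * c‖ + ‖Y * f'‖ + ‖c‖ + ‖f'‖ + ‖2 * Y ^ 2‖) := by positivity
      linarith
    · have : 0 ≤ (‖c‖ + ‖2 * Y‖ + ‖f'‖) := by positivity
      linarith
  -- choose n
  obtain ⟨n, hn⟩ : ∃ n : ℕ, max (C / ε) ‖X‖ < (p : ℝ) ^ n :=
    pow_unbounded_of_one_lt _ one_lt_p_real
  have hpn : 1 ≤ (p : ℝ) ^ n := one_le_pow₀ one_lt_p_real.le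
  refine ⟨n, fun P' hP' => ?_⟩
  obtain ⟨η, hη⟩ : ∃ η, η = P' - Affine.Point.some X Y h := ⟨_, rfl⟩
  rw [← hη] at hP'
  have hPη : P' = Affine.Point.some X Y h + η := by rw [hη]; abel
  rcases η with _ | ⟨u, v, g⟩
  · refine ⟨X, Y, h, ?_, by simpa using hε, by simpa using hε⟩
    rw [hPη]
    exact add_zero _
  · obtain ⟨hu, hv⟩ := norm_of_mem_Fil hδ hP'
    have hu1 : 1 ≤ ‖u‖ := (one_le_pow₀ hpn).trans hu
    have hXu : ‖X‖ < ‖u‖ := by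
      calc ‖X‖ ≤ max (C / ε) ‖X‖ := le_max_right _ _
        _ < (p : ℝ) ^ n := hn
        _ ≤ ((p : ℝ) ^ n) ^ 2 := by nlinarith
        _ ≤ ‖u‖ := hu
    have hne : X ≠ u := by
      rintro rfl
      exact lt_irrefl _ hXu
    obtain ⟨X', Y', h', e1, e2, e3⟩ := tw_add_X_ne h g hne
    have q₁ := (tw_equation _ _ _ X Y).1 h.1
    have q₂ := (tw_equation _ _ _ u v).1 g.1
    rw [← hA, ← hB] at q₁ q₂
    rw [← hA] at e2
    have hXun : ‖X - u‖ = ‖u‖ := by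
      rw [sub_eq_add_neg, Padic.add_eq_max_of_ne (by rw [norm_neg]; exact hXu.ne), norm_neg]
      exact max_eq_right hXu.le
    have hs : X - u ≠ 0 := sub_ne_zero.2 hne
    -- set `r = ‖v‖ / ‖u‖ = sqrt ‖u‖`
    obtain ⟨r, hr⟩ : ∃ r : ℝ, r = ‖v‖ / ‖u‖ := ⟨_, rfl⟩
    have hup : 0 < ‖u‖ := by linarith
    have hr2 : r ^ 2 = ‖u‖ := by
      rw [hr, div_pow, hv]; field_simp
    have hvr : ‖v‖ = r * ‖u‖ := by rw [hr]; field_simp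
    have hr0 : 0 ≤ r := by rw [hr]; positivity
    have hrpn : (p : ℝ) ^ n ≤ r := by
      have : ((p : ℝ) ^ n) ^ 2 ≤ r ^ 2 := by rw [hr2]; exact hu
      exact (pow_le_pow_iff_left₀ (by positivity) hr0 two_ne_zero).1 this
    have hr1 : 1 ≤ r := hpn.trans hrpn
    have hrC : C / ε < r := (le_max_left _ _).trans_lt (hn.trans_le hrpn)
    have hCr : C / r < ε := by
      rw [div_lt_iff₀ (by linarith)]
      rw [div_lt_iff₀ hε] at hrC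
      linarith
    -- the difference of the `X` coordinates
    have i1 : (X' - X) * (X - u) ^ 2 = c - 2 * Y * v + u * f' := by
      rw [hc, hf']
      linear_combination e2 + q₂
    have i1n : ‖X' - X‖ * ‖u‖ ^ 2 ≤ C * ‖v‖ := by
      have e : ‖X' - X‖ * ‖u‖ ^ 2 = ‖c - 2 * Y * v + u * f'‖ := by
        rw [← i1, norm_mul, norm_pow, hXun]
      rw [e]
      have hv1 : 1 ≤ ‖v‖ := by rw [hvr]; nlinarith
      have hvu : ‖u‖ ≤ ‖v‖ := by rw [hvr]; nlinarith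
      calc ‖c - 2 * Y * v + u * f'‖ ≤ ‖c - 2 * Y * v‖ + ‖u * f'‖ := norm_add_le _ _
        _ ≤ ‖c‖ + ‖2 * Y * v‖ + ‖u * f'‖ := by gcongr; exact norm_sub_le _ _
        _ = ‖c‖ + ‖2 * Y‖ * ‖v‖ + ‖u‖ * ‖f'‖ := by rw [norm_mul (2 * Y) v, norm_mul u f']
        _ ≤ ‖c‖ * ‖v‖ + ‖2 * Y‖ * ‖v‖ + ‖v‖ * ‖f'‖ := by
            gcongr
            exact le_mul_of_one_le_right (norm_nonneg _) hv1
        _ = (‖c‖ + ‖2 * Y‖ + ‖f'‖) * ‖v‖ := by ring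
        _ ≤ C * ‖v‖ := by gcongr
    have hX'X : ‖X' - X‖ < ε := by
      refine lt_of_le_of_lt ?_ hCr
      rw [le_div_iff₀ (by linarith)]
      have : ‖X' - X‖ * ‖u‖ ≤ C * r := by
        apply le_of_mul_le_mul_right _ hup
        calc ‖X' - X‖ * ‖u‖ * ‖u‖ = ‖X' - X‖ * ‖u‖ ^ 2 := by ring
          _ ≤ C * ‖v‖ := i1n
          _ = C * r * ‖u‖ := by rw [hvr]; ring
      apply le_of_mul_le_mul_right _ (show 0 < r by linarith)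
      calc ‖X' - X‖ * r * r = ‖X' - X‖ * ‖u‖ := by rw [← hr2]; ring
        _ ≤ C * r := this
    -- the difference of the `Y` coordinates
    have i2 : (Y' - Y) * (X - u) ^ 3 = -(2 * Y * X ^ 3) + 6 * Y * X ^ 2 * u - 6 * Y * X * u ^ 2
        - 2 * Y * A * u ^ 2 - 2 * Y * B * u - (Y * c + Y * f' * u - c * v - f' * (u * v))
        + 2 * Y ^ 2 * v := by
      have e3' : (Y' - Y) * (X - u) ^ 3 = -((Y - v) * ((X' - X) * (X - u) ^ 2))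
          - 2 * Y * (X - u) ^ 3 := by
        linear_combination (X - u) ^ 2 * e3
      rw [e3', i1]
      linear_combination (-2 * Y) * q₂
    have i2n : ‖Y' - Y‖ * ‖u‖ ^ 3 ≤ C * (‖u‖ * ‖v‖) := by
      have e : ‖Y' - Y‖ * ‖u‖ ^ 3 = ‖-(2 * Y * X ^ 3) + 6 * Y * X ^ 2 * u - 6 * Y * X * u ^ 2
        - 2 * Y * A * u ^ 2 - 2 * Y * B * u - (Y * c + Y * f' * u - c * v - f' * (u * v))
        + 2 * Y ^ 2 * v‖ := by
        rw [← i2, norm_mul, norm_pow, hXun]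
      rw [e]
      have hv1 : 1 ≤ ‖v‖ := by rw [hvr]; nlinarith
      have hvu : ‖u‖ ≤ ‖v‖ := by rw [hvr]; nlinarith
      have m1 : 1 ≤ ‖u‖ * ‖v‖ := by nlinarith
      have m2 : ‖u‖ ≤ ‖u‖ * ‖v‖ := le_mul_of_one_le_right (norm_nonneg _) hv1
      have m3 : ‖v‖ ≤ ‖u‖ * ‖v‖ := le_mul_of_one_le_left (norm_nonneg _) hu1
      have m4 : ‖u‖ ^ 2 ≤ ‖u‖ * ‖v‖ := by nlinarith
      calc _ ≤ ‖2 * Y * X ^ 3‖ + ‖6 * Y * X ^ 2 * u‖ + ‖6 * Y * X * u ^ 2‖ +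
              ‖2 * Y * A * u ^ 2‖ + ‖2 * Y * B * u‖ + (‖Y * c‖ + ‖Y * f' * u‖ + ‖c * v‖
                + ‖f' * (u * v)‖) + ‖2 * Y ^ 2 * v‖ := by
            refine (norm_add_le _ _).trans ?_
            gcongr
            refine (norm_sub_le _ _).trans ?_
            gcongr
            · refine (norm_sub_le _ _).trans ?_
              gcongr
              refine (norm_sub_le _ _).trans ?_
              gcongr
              refine (norm_sub_le _ _).trans ?_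
              gcongr
              refine (norm_add_le _ _).trans ?_
              rw [norm_neg]
            · refine (norm_sub_le _ _).trans ?_
              gcongr
              refine (norm_sub_le _ _).trans ?_
              gcongr
              exact norm_add_le _ _
        _ = ‖2 * Y * X ^ 3‖ * 1 + ‖6 * Y * X ^ 2‖ * ‖u‖ + ‖6 * Y * X‖ * ‖u‖ ^ 2 +
              ‖2 * Y * A‖ * ‖u‖ ^ 2 + ‖2 * Y * B‖ * ‖u‖ + (‖Y * c‖ * 1 + ‖Y * f'‖ * ‖u‖ + ‖c‖ * ‖v‖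
                + ‖f'‖ * (‖u‖ * ‖v‖)) + ‖2 * Y ^ 2‖ * ‖v‖ := by
            rw [norm_mul (6 * Y * X ^ 2) u, norm_mul (6 * Y * X) (u ^ 2), norm_mul (2 * Y * A) (u ^ 2),
              norm_mul (2 * Y * B) u, norm_mul (Y * f') u, norm_mul c v, norm_mul f' (u * v),
              norm_mul u v, norm_mul (2 * Y ^ 2) v, norm_pow u 2, mul_one, mul_one]
        _ ≤ ‖2 * Y * X ^ 3‖ * (‖u‖ * ‖v‖) + ‖6 * Y * X ^ 2‖ * (‖u‖ * ‖v‖)
              + ‖6 * Y * X‖ * (‖u‖ * ‖v‖) +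
              ‖2 * Y * A‖ * (‖u‖ * ‖v‖) + ‖2 * Y * B‖ * (‖u‖ * ‖v‖) + (‖Y * c‖ * (‖u‖ * ‖v‖)
                + ‖Y * f'‖ * (‖u‖ * ‖v‖) + ‖c‖ * (‖u‖ * ‖v‖)
                + ‖f'‖ * (‖u‖ * ‖v‖)) + ‖2 * Y ^ 2‖ * (‖u‖ * ‖v‖) := by
            gcongr
        _ = (‖2 * Y * X ^ 3‖ + ‖6 * Y * X ^ 2‖ + ‖6 * Y * X‖ + ‖2 * Y * A‖ + ‖2 * Y * B‖ +
              ‖Y * c‖ + ‖Y * f'‖ + ‖c‖ + ‖f'‖ + ‖2 * Y ^ 2‖) * (‖u‖ * ‖v‖) := by ring
        _ ≤ C * (‖u‖ * ‖v‖) := by gcongr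
    have hY'Y : ‖Y' - Y‖ < ε := by
      refine lt_of_le_of_lt ?_ hCr
      rw [le_div_iff₀ (by linarith)]
      apply le_of_mul_le_mul_right _ (show 0 < r * ‖u‖ ^ 2 by positivity)
      calc ‖Y' - Y‖ * r * (r * ‖u‖ ^ 2) = ‖Y' - Y‖ * ‖u‖ ^ 3 := by
            rw [show ‖u‖ ^ 3 = ‖u‖ ^ 2 * ‖u‖ by ring, ← hr2]; ring
        _ ≤ C * (‖u‖ * ‖v‖) := i2n
        _ = C * (r * ‖u‖ ^ 2) := by rw [hvr]; ring
    exact ⟨X', Y', h', by rw [hPη]; exact e1, hX'X, hY'Y⟩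

/-- Coordinate-close implies group-close. -/
theorem Fil_of_close (hδ : (p : ℤ_[p]) ∣ δ) (hp2 : p ≠ 2) {X Y : ℚ_[p]}
    (h : (TW (a : ℚ_[p]) b δ).Nonsingular X Y) (hY : Y ≠ 0) (n : ℕ) :
    ∃ ε : ℝ, 0 < ε ∧ ∀ X' Y', ∀ h' : (TW (a : ℚ_[p]) b δ).Nonsingular X' Y',
      ‖X' - X‖ < ε → ‖Y' - Y‖ < ε →
      Affine.Point.some X' Y' h' - Affine.Point.some X Y h ∈ Fil a b δ n := by
  have hYp : 0 < ‖Y‖ := norm_pos_iff.2 hY
  set A : ℚ_[p] := a * δ with hA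
  have h2n : ‖(2 : ℚ_[p])‖ = 1 := by
    have : ‖((2 : ℕ) : ℚ_[p])‖ = 1 := by
      rw [Padic.norm_natCast_eq_one_iff]
      exact (Nat.coprime_primes Fact.out Nat.prime_two).2 hp2
    exact_mod_cast this
  -- choose ε
  obtain ⟨M, hM1, hM2⟩ : ∃ M : ℝ, 1 ≤ M ∧ ((p : ℝ) ^ n) ^ 2 + ‖A‖ + ‖X‖ + ‖X‖ + 1 ≤ M := by
    refine ⟨((p : ℝ) ^ n) ^ 2 + ‖A‖ + ‖X‖ + ‖X‖ + 1, ?_, le_rfl⟩
    have : 0 ≤ ((p : ℝ) ^ n) ^ 2 + ‖A‖ + ‖X‖ + ‖X‖ := by positivity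
    linarith
  refine ⟨min (min 1 ‖Y‖) (‖Y‖ / M), by positivity, fun X' Y' h' hX' hY' => ?_⟩
  have hX1 : ‖X' - X‖ < 1 := hX'.trans_le ((min_le_left _ _).trans (min_le_left _ _))
  have hXM : ‖X' - X‖ < ‖Y‖ / M := hX'.trans_le (min_le_right _ _)
  have hY1 : ‖Y' - Y‖ < ‖Y‖ := hY'.trans_le ((min_le_left _ _).trans (min_le_right _ _))
  have q₁ := (tw_equation _ _ _ X Y).1 h.1
  have q₂ := (tw_equation _ _ _ X' Y').1 h'.1
  have hsum : ‖Y' + Y‖ = ‖Y‖ := by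
    have e : Y' + Y = 2 * Y + (Y' - Y) := by ring
    have n1 : ‖2 * Y‖ = ‖Y‖ := by rw [norm_mul, h2n, one_mul]
    rw [e, Padic.add_eq_max_of_ne (by rw [n1]; exact hY1.ne'), n1]
    exact max_eq_left hY1.le
  by_cases hXX : X' = X
  · subst hXX
    have hYY : Y' = Y := by
      have : (Y' - Y) * (Y' + Y) = 0 := by linear_combination q₂ - q₁
      rcases mul_eq_zero.1 this with h | h
      · exact sub_eq_zero.1 h
      · rw [h, norm_zero] at hsum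
        linarith
    subst hYY
    rw [sub_self]
    exact Fil.zero_mem n
  · have hneg := (Affine.nonsingular_neg (W' := TW (a : ℚ_[p]) b δ) X Y).2 h
    have e0 : Affine.Point.some X' Y' h' - Affine.Point.some X Y h
        = Affine.Point.some X' Y' h' + Affine.Point.some X ((TW (a : ℚ_[p]) b δ).negY X Y) hneg := by
      rw [sub_eq_add_neg]; rfl
    obtain ⟨X₃, Y₃, h₃, e1, e2, -⟩ := tw_add_X_ne h' hneg hXX
    rw [e0, e1]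
    apply mem_Fil_of_norm hδ
    rw [tw_negY] at e2
    rw [← hA] at e2
    have hs : X' - X ≠ 0 := sub_ne_zero.2 hXX
    have hsp : 0 < ‖X' - X‖ := norm_pos_iff.2 hs
    have e3 : X₃ = ((Y' + Y) / (X' - X)) ^ 2 - (A + X' + X) := by
      field_simp
      linear_combination e2
    have n1 : ‖(Y' + Y) / (X' - X)‖ = ‖Y‖ / ‖X' - X‖ := by rw [norm_div, hsum]
    have n2 : M < ‖Y‖ / ‖X' - X‖ := by
      rw [lt_div_iff₀ hsp]
      rw [lt_div_iff₀ (by linarith)] at hXM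
      linarith
    have n3 : ‖A + X' + X‖ ≤ ‖A‖ + ‖X‖ + ‖X‖ + 1 := by
      have : A + X' + X = A + X + X + (X' - X) := by ring
      rw [this]
      calc ‖A + X + X + (X' - X)‖ ≤ ‖A‖ + ‖X‖ + ‖X‖ + ‖X' - X‖ := by
            refine (norm_add_le _ _).trans ?_
            gcongr
            refine (norm_add_le _ _).trans ?_
            gcongr
            exact norm_add_le _ _
        _ ≤ _ := by linarith
    have n4 : (‖Y‖ / ‖X' - X‖) ^ 2 ≤ ‖X₃‖ + ‖A + X' + X‖ := by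
      rw [← n1, ← norm_pow]
      have : ((Y' + Y) / (X' - X)) ^ 2 = X₃ + (A + X' + X) := by rw [e3]; ring
      rw [this]
      exact norm_add_le _ _
    have n5 : M ≤ (‖Y‖ / ‖X' - X‖) ^ 2 := by nlinarith
    linarith

end

end Pool.Agent.Helper10.K3
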