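import Pool.Agent.Helper10.K3.Bridge

/-!
# Local structure: exponent and topological generators
-/

namespace KumWA

open Classical

variable {p : ℕ} [hp : Fact p.Prime]

/-- normalised twisting parameter: valuation 1 or 2 (so `okl d 0`, i.e. {X : 1 ≤ ‖X‖} is the formal part) -/
def nd (d : ℚ_[p]) : Prop := ‖d‖ = (p : ℝ)⁻¹ ∨ ‖d‖ = ((p : ℝ) ^ 2)⁻¹

/-- topological generator of the `par` part by even multiples -/
def Gen {d : ℚ_[p]} (Q : E d) : Prop := ∀ (n : ℕ) (R : E d), par R → ∃ j : ℤ, fil n (R - (2 * j) • Q)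

theorem nd_le {d : ℚ_[p]} (hd : nd d) : ‖d‖ ≤ (p : ℝ)⁻¹ := by
  have hp1 := one_lt_p (p := p)
  rcases hd with h | h
  · exact h.le
  · rw [h]
    apply inv_anti₀ (by positivity)
    nlinarith

theorem nd_lt {d : ℚ_[p]} (hd : nd d) : ‖d‖ < 1 :=
  (nd_le hd).trans_lt (inv_lt_one_of_one_lt₀ (one_lt_p (p := p)))

theorem nd_okl {d : ℚ_[p]} (hd : nd d) (n : ℕ) : okl d n := ⟨(nd_lt hd).le, Or.inr (nd_le hd)⟩

theorem nd_ne {d : ℚ_[p]} (hd : nd d) : d ≠ 0 := by
  have hp1 := one_lt_p (p := p)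
  rintro rfl
  rcases hd with h | h
  · rw [norm_zero] at h
    have : (0 : ℝ) < (p : ℝ)⁻¹ := by positivity
    linarith
  · rw [norm_zero] at h
    have : (0 : ℝ) < ((p : ℝ) ^ 2)⁻¹ := by positivity
    linarith

theorem nd_coe {d : ℚ_[p]} (hd : nd d) : ∃ d₀ : ℤ_[p], (p : ℤ_[p]) ∣ d₀ ∧ (d₀ : ℚ_[p]) = d := by
  obtain ⟨d₀, rfl⟩ := Pool.Agent.Helper10.K3.exists_coe_of_norm_le (nd_lt hd).le
  refine ⟨d₀, ?_, rfl⟩
  exact PadicInt.norm_lt_one_iff_dvd _ |>.1 (nd_lt hd)

theorem fil_p_pow (h3 : 3 < p) {d : ℚ_[p]} (hd : nd d) {P : E d} (hP : fil 0 P) (n : ℕ) :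
    fil n (p ^ n • P) := by
  obtain ⟨d₀, h1, rfl⟩ := nd_coe hd
  have h2 := (mem_Fil_iff h1 0 P).2 hP
  have h4 := Pool.Agent.Helper10.K3.Fil.p_pow_smul_mem h1 h3 n h2
  rw [zero_add] at h4
  exact (mem_Fil_iff h1 n _).1 h4

theorem par_of_fil (h8 : p % 8 = 5) {d : ℚ_[p]} (hd : nd d) {P : E d} (hP : fil 0 P) : par P := by
  have hd1 := nd_lt hd
  rcases hP with hP | hP
  · exact Or.inl hP
  · right
    rw [mul_zero, pow_zero] at hP
    have hx : xc P ≠ 0 := by
      intro h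
      rw [h, norm_zero] at hP
      linarith
    refine ⟨hx, ?_⟩
    have e := curve_eq P
    have hclose : ‖(xc P ^ 2 + 4 * d * xc P + 2 * d ^ 2) - xc P ^ 2‖ < ‖xc P ^ 2‖ := by
      have e1 : (xc P ^ 2 + 4 * d * xc P + 2 * d ^ 2) - xc P ^ 2 = 4 * (d * xc P) + 2 * (d * d) := by
        ring
      rw [e1, norm_pow]
      apply nadd_lt
      · refine lt_of_le_of_lt (norm_nat_mul_le 4 _) ?_
        rw [norm_mul, sq]
        exact mul_lt_mul_of_pos_right (by linarith) (by linarith)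
      · refine lt_of_le_of_lt (norm_nat_mul_le 2 _) ?_
        rw [norm_mul, sq]
        exact mul_lt_mul'' (by linarith) (by linarith) (norm_nonneg _) (norm_nonneg _)
    have hsq := isSquare_of_close (p_ne_two h8) hclose (IsSquare.sq _)
    have hne : xc P ^ 2 + 4 * d * xc P + 2 * d ^ 2 ≠ 0 := by
      intro h
      rw [h, zero_sub, norm_neg] at hclose
      exact lt_irrefl _ hclose
    have e2 : xc P = yc P ^ 2 / (xc P ^ 2 + 4 * d * xc P + 2 * d ^ 2) := by
      rw [eq_div_iff hne]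
      linear_combination -e
    rw [e2]
    exact (IsSquare.sq _).div hsq

theorem exists_lev_zero (h8 : p % 8 = 5) {d : ℚ_[p]} (hd : nd d) :
    ∃ h₀ : E d, lev 0 h₀ ∧ h₀ ≠ 0 ∧ xc h₀ = 1 := by
  have hd1 := nd_lt hd
  have hclose : ‖(1 + 4 * d + 2 * d ^ 2) - 1‖ < ‖(1 : ℚ_[p])‖ := by
    have e1 : (1 + 4 * d + 2 * d ^ 2) - 1 = 4 * d + 2 * (d * d) := by ring
    rw [e1, norm_one]
    apply nadd_lt
    · exact lt_of_le_of_lt (norm_nat_mul_le 4 _) hd1
    · refine lt_of_le_of_lt (norm_nat_mul_le 2 _) ?_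
      rw [norm_mul]
      nlinarith [norm_nonneg d]
  obtain ⟨y, hy⟩ := isSquare_of_close (p_ne_two h8) hclose IsSquare.one
  have hyn : ‖y‖ = 1 := by
    have h1 := neq_of_sub_lt hclose
    rw [hy, norm_mul, norm_one] at h1
    nlinarith [norm_nonneg y]
  refine ⟨mkP (nd_ne hd) 1 y (by linear_combination -hy), ⟨Or.inr ?_, ?_⟩, mkP_ne _ _ _ _, rfl⟩
  · rw [xc_mkP, norm_one, mul_zero, pow_zero]
  · rw [tt, xc_mkP, yc_mkP, norm_div, norm_one, hyn, pow_zero, inv_one, div_one]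

theorem ram_cases (h8 : p % 8 = 5) {d : ℚ_[p]} (hd : ‖d‖ = (p : ℝ)⁻¹) (P : E d) :
    fil 0 P ∨ fil 0 (P + T (nd_ne (Or.inl hd))) := by
  have hK := kHyp_padic h8
  have hp1 := one_lt_p (p := p)
  by_cases hP : P = 0
  · exact Or.inl (Or.inl hP)
  by_cases hPT : P = T (nd_ne (Or.inl hd))
  · right; left
    rw [hPT, T_add_T]
  obtain ⟨h1, h2, h3, -⟩ := add_T (nd_ne (Or.inl hd)) hP hPT
  -- the norm of `xc P` is an even power of `p`
  obtain ⟨k, hk⟩ : ∃ k : ℤ, ‖xc P‖ = (p : ℝ) ^ (2 * k) := by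
    rcases hK.xc_cases (P := P) (nd_ne (Or.inl hd)) with h | h
    · exact norm_of_isSquare h2 h
    · obtain ⟨k, hk⟩ := norm_of_isSquare (mul_ne_zero two_ne_zero h2) h
      rw [norm_mul, norm_two (p_ne_two h8), one_mul] at hk
      exact ⟨k, hk⟩
  by_cases hk0 : 0 ≤ k
  · left; right
    rw [mul_zero, pow_zero, hk]
    exact one_le_zpow₀ hp1.le (by omega)
  · right; right
    push Not at hk0
    rw [mul_zero, pow_zero, h3, norm_div, norm_mul, norm_pow, norm_two (p_ne_two h8), hd, hk,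
      one_mul]
    rw [one_le_div (by positivity)]
    have : (p : ℝ) ^ (2 * k) ≤ (p : ℝ) ^ (-2 : ℤ) := zpow_le_zpow_right₀ hp1.le (by omega)
    refine this.trans (le_of_eq ?_)
    rw [zpow_neg, inv_pow]
    norm_cast

/-- L3 : exponent -/
theorem loc_exp (h8 : p % 8 = 5) {d : ℚ_[p]} (hd : nd d) (P : E d) (n : ℕ) :
    fil n (((p + 1) * p ^ n) • P) := by
  have h3 : 3 < p := by omega
  have key : fil 0 ((p + 1) • P) := by
    rcases hd with hd | hd
    · rcases ram_cases h8 hd P with h | h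
      · exact fil_nsmul (nd_okl (Or.inl hd) 0) h _
      · have h1 := fil_nsmul (nd_okl (Or.inl hd) 0) h (p + 1)
        have e : (p + 1) • (P + T (nd_ne (Or.inl hd))) = (p + 1) • P := by
          obtain ⟨m, hm⟩ : ∃ m, p + 1 = m * 2 := ⟨(p + 1) / 2, by omega⟩
          rw [smul_add, hm, mul_smul m 2 (T (nd_ne (Or.inl hd))), two_nsmul, T_add_T, smul_zero,
            add_zero]
        rwa [e] at h1
    · exact (unram h8 hd).2 P
  rw [mul_comm, mul_smul]
  exact fil_p_pow h3 hd key n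

/-- a topological generator of the whole group -/
theorem top_gen (h8 : p % 8 = 5) {d : ℚ_[p]} (hd : nd d) :
    ∃ g : E d, ∀ (P : E d) (n : ℕ), ∃ k : ℤ, fil n (P - k • g) := by
  have h3 : p ≠ 3 := by omega
  have h3' : 3 < p := by omega
  obtain ⟨h₀, hlev, -, -⟩ := exists_lev_zero h8 hd
  have hok := nd_okl hd
  have hd' := hd
  rcases hd' with hd' | hd'
  · -- ramified
    have hT2 : T (nd_ne hd) + T (nd_ne hd) = 0 := T_add_T _
    refine ⟨h₀ + T (nd_ne hd), ?_⟩
    have hpodd : ∀ n : ℕ, ∃ s : ℕ, p ^ n = 2 * s + 1 := by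
      intro n
      have : Odd (p ^ n) := Odd.pow (by rw [Nat.odd_iff]; omega)
      exact this
    have key : ∀ (P : E d) (n : ℕ), fil 0 P → ∃ k : ℤ, fil n (P - k • (h₀ + T (nd_ne hd))) := by
      intro P n hP
      obtain ⟨j, hj⟩ := lev_gen h3 n (hok 0) hlev hP
      rw [zero_add] at hj
      obtain ⟨s, hs⟩ := hpodd n
      refine ⟨2 * (j * (s + 1)), ?_⟩
      have e : P - (2 * ((j : ℤ) * (s + 1))) • (h₀ + T (nd_ne hd)) = (P - j • h₀)
          - j • (p ^ n • h₀) := by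
        have e1 : (2 * ((j : ℤ) * (s + 1))) • (h₀ + T (nd_ne hd))
            = (2 * ((j : ℤ) * (s + 1))) • h₀ := by
          rw [smul_add, mul_comm 2, mul_smul _ (2 : ℤ) (T (nd_ne hd)), two_smul, hT2, smul_zero,
            add_zero]
        have e2 : (2 * ((j : ℤ) * (s + 1))) • h₀ = j • h₀ + j • (p ^ n • h₀) := by
          rw [hs, ← natCast_zsmul, ← natCast_zsmul, ← natCast_zsmul, ← mul_smul, ← add_smul]
          congr 1
          push_cast; ring
        rw [e1, e2]; abel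
      rw [e]
      exact fil_sub (hok n) hj (fil_nsmul (hok n) (fil_p_pow h3' hd hlev.1 n) j)
    intro P n
    rcases ram_cases h8 hd' P with h | h
    · exact key P n h
    · obtain ⟨k, hk⟩ := key _ n h
      obtain ⟨s, hs⟩ := hpodd n
      refine ⟨k - p ^ n, ?_⟩
      have e1 : ((p : ℤ) ^ n) • (h₀ + T (nd_ne hd)) = p ^ n • h₀ + T (nd_ne hd) := by
        have : ((p : ℤ) ^ n) • T (nd_ne hd) = T (nd_ne hd) := by
          have e2 : ((p : ℤ) ^ n) = s * 2 + 1 := by
            have := congrArg (Nat.cast : ℕ → ℤ) hs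
            push_cast at this
            linarith
          rw [e2, add_smul, one_smul, mul_smul, two_smul, hT2, smul_zero, zero_add]
        have e3 : ((p : ℤ) ^ n) • h₀ = p ^ n • h₀ := by
          rw [← natCast_zsmul]
          push_cast; rfl
        rw [smul_add, this, e3]
      have e : P - (k - (p : ℤ) ^ n) • (h₀ + T (nd_ne hd))
          = (P + T (nd_ne hd) - k • (h₀ + T (nd_ne hd))) + p ^ n • h₀ := by
        rw [sub_smul, e1]; abel
      rw [e]
      exact fil_add (hok n) hk (fil_p_pow h3' hd hlev.1 n)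
  · -- unramified
    obtain ⟨⟨g₁, hg₁⟩, hexp⟩ := unram h8 hd'
    -- choose `g` with `(p + 1) g` of exact level zero
    obtain ⟨g, hg, hglev⟩ : ∃ g : E d, (∀ P : E d, ∃ k : ℤ, fil 0 (P - k • g)) ∧
        lev 0 ((p + 1) • g) := by
      by_cases hl : lev 0 ((p + 1) • g₁)
      · exact ⟨g₁, hg₁, hl⟩
      · refine ⟨g₁ + h₀, fun P => ?_, ?_, ?_⟩
        · obtain ⟨k, hk⟩ := hg₁ P
          refine ⟨k, ?_⟩
          have e : P - k • (g₁ + h₀) = (P - k • g₁) - k • h₀ := by rw [smul_add]; abel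
          rw [e]
          exact fil_sub (hok 0) hk (fil_zsmul (hok 0) hlev.1 k)
        · exact hexp _
        · have b1 := norm_tt_le (hok 0) (hexp g₁)
          have b2 : ‖tt ((p + 1) • g₁)‖ < 1 := by
            rw [pow_zero, inv_one] at b1
            refine lt_of_le_of_ne b1 ?_
            intro h
            exact hl ⟨hexp g₁, by rw [h, pow_zero, inv_one]⟩
          have b3 := tt_nsmul_rough (hok 0) hlev.1 (p + 1)
          rw [zero_add, pow_one] at b3
          have hp1 := inv_lt_one_of_one_lt₀ (one_lt_p (p := p))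
          have hl0 : ‖tt h₀‖ = 1 := by rw [hlev.2, pow_zero, inv_one]
          have b4 : ‖((p + 1 : ℕ) : ℚ_[p])‖ = 1 := by
            apply norm_natCast_eq_one
            intro h
            have := (Nat.dvd_add_right (dvd_refl p)).1 h
            have := Nat.dvd_one.1 this
            omega
          have b5 : ‖tt ((p + 1) • h₀)‖ = 1 := by
            rw [neq_of_sub_lt (y := ((p + 1 : ℕ) : ℚ_[p]) * tt h₀)]
            · rw [norm_mul, b4, hl0, one_mul]
            · rw [norm_mul, b4, hl0, one_mul]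
              exact lt_of_le_of_lt b3 hp1
          have b6 := tt_add' (hok 0) (hexp g₁) (fil_nsmul (hok 0) hlev.1 (p + 1))
          rw [zero_add, pow_one] at b6
          have b7 : ‖tt ((p + 1) • g₁) + tt ((p + 1) • h₀)‖ = 1 := by
            rw [add_comm, nadd_eq (by rw [b5]; exact b2), b5]
          rw [smul_add, pow_zero, inv_one, neq_of_sub_lt (y := tt ((p + 1) • g₁) + tt ((p + 1) • h₀)), b7]
          rw [b7]
          exact lt_of_le_of_lt b6 hp1
    refine ⟨g, fun P n => ?_⟩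
    obtain ⟨k, hk⟩ := hg P
    obtain ⟨j, hj⟩ := lev_gen h3 n (hok 0) hglev hk
    rw [zero_add] at hj
    refine ⟨k + j * (p + 1 : ℕ), ?_⟩
    have e : P - (k + j * ((p + 1 : ℕ) : ℤ)) • g = P - k • g - j • ((p + 1) • g) := by
      rw [add_smul, mul_smul, natCast_zsmul, natCast_zsmul]; abel
    rw [e]
    exact hj

theorem Gen.ne (h8 : p % 8 = 5) {d : ℚ_[p]} (hd : nd d) {Q : E d} (hQ : Gen Q) :
    Q ≠ 0 ∧ yc Q ≠ 0 := by
  obtain ⟨h₀, hlev, h0, hx⟩ := exists_lev_zero h8 hd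
  obtain ⟨j, hj⟩ := hQ 1 h₀ (par_of_fil h8 hd hlev.1)
  have key : Q + Q ≠ 0 := by
    intro h
    have e : (2 * j) • Q = 0 := by rw [mul_comm, mul_smul, two_smul, h, smul_zero]
    rw [e, sub_zero] at hj
    rcases hj with hj | hj
    · exact h0 hj
    · rw [hx, norm_one] at hj
      have : (1 : ℝ) < (p : ℝ) ^ (2 * 1) := one_lt_pow₀ (one_lt_p (p := p)) (by norm_num)
      linarith
  constructor
  · rintro rfl
    exact key (add_zero _)
  · intro h
    exact key (add_self_of_yc h)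

/-- L2 : topological generators of both colours -/
theorem loc_gen (h8 : p % 8 = 5) {d : ℚ_[p]} (hd : nd d) (c : Prop) :
    ∃ Q : E d, Gen Q ∧ (par Q ↔ c) ∧ Q ≠ 0 ∧ yc Q ≠ 0 := by
  have hK := kHyp_padic h8
  have hd0 := nd_ne hd
  have hok := nd_okl hd
  obtain ⟨g, hg⟩ := top_gen h8 hd
  have hgp : ¬ par g := by
    intro hpar
    obtain ⟨k, hk⟩ := hg (T hd0) 0
    have h1 := par_of_fil h8 hd hk
    rw [par_sub_iff hK hd0] at h1
    have h2 : par (k • g) := (Par hK hd0).zsmul_mem hpar k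
    exact not_par_T hd0 (h1.2 h2)
  have hGg : ∀ (n : ℕ) (R : E d), par R → ∃ j : ℤ, fil n (R - (2 * j) • g) := by
    intro n R hR
    obtain ⟨k, hk⟩ := hg R n
    have h1 := par_of_fil h8 hd (fil_mono (Nat.zero_le n) hk)
    rw [par_sub_iff hK hd0] at h1
    have h2 : par (k • g) := h1.1 hR
    rcases Int.even_or_odd k with he | ho
    · obtain ⟨j, rfl⟩ := he
      refine ⟨j, ?_⟩
      rwa [two_mul]
    · rw [par_zsmul_odd hK hd0 g ho] at h2
      exact absurd h2 hgp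
  by_cases hc : c
  · have hG2 : Gen (2 • g) := by
      intro n R hR
      obtain ⟨j, hj⟩ := hGg n R hR
      obtain ⟨m, hm⟩ : ∃ m : ℕ, p + 1 = 2 * (2 * m + 1) := ⟨(p - 1) / 4, by omega⟩
      obtain ⟨s, hs⟩ : ∃ s : ℕ, p ^ n = 2 * s + 1 := by
        have : Odd (p ^ n) := Odd.pow (by rw [Nat.odd_iff]; omega)
        exact this
      -- `(2m+1) p^n + 1 = 2 t`
      obtain ⟨t, ht⟩ : ∃ t : ℕ, (2 * m + 1) * p ^ n + 1 = 2 * t :=
        ⟨2 * m * s + m + s + 1, by rw [hs]; ring⟩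
      refine ⟨j * t, ?_⟩
      have e : R - (2 * (j * (t : ℤ))) • (2 • g) = (R - (2 * j) • g)
          - j • (((p + 1) * p ^ n) • g) := by
        have e1 : (2 * (j * (t : ℤ))) • (2 • g) = (2 * j) • g + j • (((p + 1) * p ^ n) • g) := by
          rw [← natCast_zsmul, ← natCast_zsmul, ← mul_smul, ← mul_smul, ← add_smul]
          congr 1
          have ht' : ((2 * m + 1) * p ^ n + 1 : ℤ) = 2 * t := by exact_mod_cast ht
          have hm' : ((p + 1 : ℕ) : ℤ) = 2 * (2 * m + 1) := by exact_mod_cast hm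
          rw [Nat.cast_mul, hm']
          push_cast
          linear_combination (-2 * j) * ht'
        rw [e1]; abel
      rw [e]
      exact fil_sub (hok n) hj (fil_zsmul (hok n) (loc_exp h8 hd g n) j)
    refine ⟨2 • g, hG2, ?_, hG2.ne h8 hd⟩
    have : par (2 • g) := by
      rw [two_nsmul, par_add_iff hK hd0]
    exact ⟨fun _ => hc, fun _ => this⟩
  · have hG1 : Gen g := hGg
    exact ⟨g, hG1, ⟨fun h => absurd h hgp, fun h => absurd h hc⟩, hG1.ne h8 hd⟩

end KumWA
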