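import Pool.Agent.Helper10.K3.Basic
import Pool.Agent.Helper10.K3.XRep

/-!
# The neighbourhood of the origin of a twist over the `p`-adic numbers
-/

namespace Pool.Agent.Helper10.K3

open WeierstrassCurve

variable {p : ℕ} [Fact p.Prime]

noncomputable scoped instance instDecEqPadic : DecidableEq ℚ_[p] := Classical.decEq _

/-- `(Z, w) = (X / Y, 1 / Y)` parametrise the point `P` near the origin. -/
def Par (a b δ : ℤ_[p]) (P : (TW (a : ℚ_[p]) b δ).Point) (Z w : ℤ_[p]) : Prop :=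
  w = Z ^ 3 + a * δ * Z ^ 2 * w + b * δ ^ 2 * Z * w ^ 2 ∧
    ((w = 0 ∧ P = 0) ∨ (w ≠ 0 ∧ ∃ X Y, ∃ h : (TW (a : ℚ_[p]) b δ).Nonsingular X Y,
      P = Affine.Point.some X Y h ∧ Y * w = 1 ∧ X = Z * Y))

theorem coe_inj {x y : ℤ_[p]} (h : (x : ℚ_[p]) = y) : x = y := Subtype.ext h

theorem coe_two : ((2 : ℤ_[p]) : ℚ_[p]) = 2 := rfl

theorem coe_ne {x : ℤ_[p]} (h : x ≠ 0) : (x : ℚ_[p]) ≠ 0 := fun h' => h (coe_inj (by simpa using h'))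

theorem isUnit_one_add {δ : ℤ_[p]} (hδ : (p : ℤ_[p]) ∣ δ) (x : ℤ_[p]) : IsUnit (1 + δ * x) := by
  have h : -(δ * x) ∈ nonunits ℤ_[p] := by
    rw [PadicInt.mem_nonunits, norm_neg]
    obtain ⟨y, rfl⟩ := hδ
    rw [PadicInt.norm_lt_one_iff_dvd]
    exact ⟨y * x, by ring⟩
  have := IsLocalRing.isUnit_one_sub_self_of_mem_nonunits _ h
  rwa [sub_neg_eq_add] at this

section

variable {a b δ : ℤ_[p]}

theorem Par.zero : Par a b δ 0 0 0 := by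
  refine ⟨by ring, Or.inl ⟨rfl, rfl⟩⟩

theorem Par.neg {P : (TW (a : ℚ_[p]) b δ).Point} {Z w : ℤ_[p]} (h : Par a b δ P Z w) :
    Par a b δ (-P) (-Z) (-w) := by
  obtain ⟨h1, h2⟩ := h
  refine ⟨by linear_combination -h1, ?_⟩
  rcases h2 with ⟨h3, h4⟩ | ⟨h3, X, Y, hn, h4, h5, h6⟩
  · left
    exact ⟨by rw [h3, neg_zero], by rw [h4]; rfl⟩
  · right
    subst h4
    refine ⟨neg_ne_zero.2 h3, _, _, _, Affine.Point.neg_some hn, ?_, ?_⟩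
    · rw [tw_negY]; push_cast; linear_combination h5
    · rw [tw_negY]; push_cast; linear_combination h6

theorem Par.w_eq_zero_iff {P : (TW (a : ℚ_[p]) b δ).Point} {Z w : ℤ_[p]}
    (h : Par a b δ P Z w) : w = 0 ↔ Z = 0 := by
  constructor
  · intro hw
    have := h.1
    rw [hw] at this
    have h3 : Z ^ 3 = 0 := by linear_combination -this
    exact pow_eq_zero_iff (three_ne_zero) |>.1 h3
  · intro hZ
    have := h.1
    rw [hZ] at this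
    linear_combination this

theorem Par.w_unique (hδ : (p : ℤ_[p]) ∣ δ) {P P' : (TW (a : ℚ_[p]) b δ).Point} {Z w w' : ℤ_[p]}
    (h : Par a b δ P Z w) (h' : Par a b δ P' Z w') : w = w' := by
  have hu := isUnit_one_add hδ (-(a * Z ^ 2 + b * δ * Z * (w + w')))
  have e : (w - w') * (1 + δ * (-(a * Z ^ 2 + b * δ * Z * (w + w')))) = 0 := by
    linear_combination h.1 - h'.1
  rcases mul_eq_zero.1 e with h | h
  · exact sub_eq_zero.1 h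
  · exact absurd h hu.ne_zero

theorem Par.inj (hδ : (p : ℤ_[p]) ∣ δ) {P P' : (TW (a : ℚ_[p]) b δ).Point} {Z w w' : ℤ_[p]}
    (h : Par a b δ P Z w) (h' : Par a b δ P' Z w') : P = P' := by
  have hw := Par.w_unique hδ h h'
  subst hw
  rcases h.2 with ⟨h3, h4⟩ | ⟨h3, X, Y, hn, h4, h5, h6⟩
  · rcases h'.2 with ⟨k3, k4⟩ | ⟨k3, _⟩
    · rw [h4, k4]
    · exact absurd h3 k3
  · rcases h'.2 with ⟨k3, k4⟩ | ⟨k3, X', Y', hn', k4, k5, k6⟩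
    · exact absurd k3 h3
    · have hw : (w : ℚ_[p]) ≠ 0 := fun h => h3 (coe_inj (by simpa using h))
      have hY : Y = Y' := mul_right_cancel₀ hw (h5.trans k5.symm)
      have hX : X = X' := by rw [h6, k6, hY]
      subst hY
      subst hX
      rw [h4, k4]

theorem Par.unique {P : (TW (a : ℚ_[p]) b δ).Point} {Z w Z' w' : ℤ_[p]}
    (h : Par a b δ P Z w) (h' : Par a b δ P Z' w') : Z = Z' ∧ w = w' := by
  rcases h.2 with ⟨h3, h4⟩ | ⟨h3, X, Y, hn, h4, h5, h6⟩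
  · rcases h'.2 with ⟨k3, k4⟩ | ⟨k3, X', Y', hn', k4, k5, k6⟩
    · exact ⟨by rw [(h.w_eq_zero_iff).1 h3, (h'.w_eq_zero_iff).1 k3], by rw [h3, k3]⟩
    · rw [h4] at k4
      exact absurd k4.symm (Affine.Point.some_ne_zero _)
  · rcases h'.2 with ⟨k3, k4⟩ | ⟨k3, X', Y', hn', k4, k5, k6⟩
    · rw [h4] at k4
      exact absurd k4 (Affine.Point.some_ne_zero _)
    · rw [h4] at k4
      injection k4 with hX hY
      subst hX
      subst hY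
      have hY0 : Y ≠ 0 := by
        rintro rfl
        rw [zero_mul] at h5
        exact zero_ne_one h5
      constructor
      · exact coe_inj (mul_right_cancel₀ hY0 (h6.symm.trans k6))
      · exact coe_inj (mul_left_cancel₀ hY0 (h5.trans k5.symm))


/-- the algebra behind the addition law. -/
theorem add_alg {R : Type*} [CommRing R] {A B Z₁ Z₂ w₁ w₂ l ν : R}
    (c₁ : w₁ = Z₁ ^ 3 + A * Z₁ ^ 2 * w₁ + B * Z₁ * w₁ ^ 2)
    (hw1 : w₁ = l * Z₁ + ν) (hw2 : w₂ = l * Z₂ + ν)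
    (hl : (1 - A * Z₁ ^ 2 - B * Z₁ * (w₁ + w₂)) * l
      = Z₁ ^ 2 + Z₁ * Z₂ + Z₂ ^ 2 + A * w₂ * (Z₁ + Z₂) + B * w₂ ^ 2) :
    (1 + A * l + B * l ^ 2) * (Z₁ ^ 2 + Z₁ * Z₂ + Z₂ ^ 2) + (A * ν + 2 * B * l * ν) * (Z₁ + Z₂)
      + (B * ν ^ 2 - l) = 0 ∧
    ∀ z : R, (1 + A * l + B * l ^ 2) * z ^ 3 + (A * ν + 2 * B * l * ν) * z ^ 2
      + (B * ν ^ 2 - l) * z - ν
      = (z - Z₁) * (z - Z₂) * ((1 + A * l + B * l ^ 2) * (z + Z₁ + Z₂)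
        + (A * ν + 2 * B * l * ν)) := by
  subst hw1
  subst hw2
  have h1 : (1 + A * l + B * l ^ 2) * (Z₁ ^ 2 + Z₁ * Z₂ + Z₂ ^ 2)
      + (A * ν + 2 * B * l * ν) * (Z₁ + Z₂) + (B * ν ^ 2 - l) = 0 := by
    linear_combination (-1 : R) * hl
  refine ⟨h1, fun z => ?_⟩
  linear_combination (z - Z₁) * h1 - c₁

/-- The addition law near the origin, integral part. -/
theorem add_alg2 {R : Type*} [CommRing R] [IsDomain R] {A B Z₁ Z₂ w₁ w₂ l ν D' : R}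
    (c₁ : w₁ = Z₁ ^ 3 + A * Z₁ ^ 2 * w₁ + B * Z₁ * w₁ ^ 2)
    (hw1 : w₁ = l * Z₁ + ν) (hw2 : w₂ = l * Z₂ + ν)
    (hl : (1 - A * Z₁ ^ 2 - B * Z₁ * (w₁ + w₂)) * l
      = Z₁ ^ 2 + Z₁ * Z₂ + Z₂ ^ 2 + A * w₂ * (Z₁ + Z₂) + B * w₂ ^ 2)
    (hD : (1 + A * l + B * l ^ 2) * D' = 1) :
    ∃ Z₃ : R, (1 + (A + 2 * B * l) * Z₁ * Z₂) * Z₃ = Z₁ + Z₂ ∧
      ν = -((1 + A * l + B * l ^ 2) * Z₁ * Z₂ * Z₃) ∧
      (l * Z₃ - ν) = Z₃ ^ 3 + A * Z₃ ^ 2 * (l * Z₃ - ν) + B * Z₃ * (l * Z₃ - ν) ^ 2 := by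
  obtain ⟨hdd, hΦ⟩ := add_alg c₁ hw1 hw2 hl
  set D : R := 1 + A * l + B * l ^ 2 with hDd
  set E : R := A * ν + 2 * B * l * ν with hE
  set Z₃ : R := Z₁ + Z₂ + E * D' with hZ3
  have hDZ : D * Z₃ = D * (Z₁ + Z₂) + E := by
    rw [hZ3]
    linear_combination E * hD
  have hν3 : ν = -(D * Z₁ * Z₂ * Z₃) := by
    have := hΦ 0
    linear_combination (-1 : R) * this + Z₁ * Z₂ * hDZ
  have hD0 : D ≠ 0 := by
    intro h
    rw [h, zero_mul] at hD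
    exact zero_ne_one hD
  refine ⟨Z₃, ?_, hν3, ?_⟩
  · apply mul_left_cancel₀ hD0
    rw [hE] at hDZ
    linear_combination hDZ + (A + 2 * B * l) * hν3
  · have h3 := hΦ (-Z₃)
    have : D * (-Z₃ + Z₁ + Z₂) + E = 0 := by
      linear_combination (-1 : R) * hDZ
    rw [this, mul_zero] at h3
    clear_value Z₃
    rw [hDd, hE] at h3
    linear_combination h3

/-- The doubling slope. -/
theorem dbl_slope {K : Type*} [Field K] {A B X Y l ν : K}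
    (hq : Y ^ 2 = X ^ 3 + A * X ^ 2 + B * X) (hlin : (1 : K) = l * X + ν * Y) (hY : Y ≠ 0)
    (hdd : (1 + A * l + B * l ^ 2) * (X ^ 2 + X * X + X ^ 2)
      + (A * ν + 2 * B * l * ν) * (X + X) * Y + (B * ν ^ 2 - l) * Y ^ 2 = 0) :
    ν * (3 * X ^ 2 + 2 * A * X + B) = - (l * (2 * Y)) := by
  have hs : ν * Y = 1 - l * X := by linear_combination -hlin
  have h1 : 3 * (1 + A * l + B * l ^ 2) * X ^ 2 + 2 * (A + 2 * B * l) * X * (ν * Y)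
      + B * (ν * Y) ^ 2 - l * Y ^ 2 = 0 := by linear_combination hdd
  rw [hs, hq] at h1
  have hF : 3 * X ^ 2 + 2 * A * X + B = l * (X ^ 3 - B * X) := by linear_combination h1
  have h2 : Y * (ν * (X ^ 3 - B * X) + 2 * Y) = 0 := by
    have : Y * (ν * (X ^ 3 - B * X) + 2 * Y) = (ν * Y) * (X ^ 3 - B * X) + 2 * Y ^ 2 := by ring
    rw [this, hs, hq]
    linear_combination X * hF
  have h3 := (mul_eq_zero.1 h2).resolve_left hY
  rw [hF]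
  linear_combination l * h3

/-- The third point on the line `1 = l X + ν Y`. -/
theorem third_point {K : Type*} [Field K] {A B l ν X₁ X₂ X₃ Y₁ Y₂ Y₃ : K} (hν : ν ≠ 0)
    (hY1 : Y₁ ≠ 0) (hY2 : Y₂ ≠ 0) (hD : 1 + A * l + B * l ^ 2 ≠ 0)
    (hq : Y₁ ^ 2 = X₁ ^ 3 + A * X₁ ^ 2 + B * X₁)
    (h1 : (1 : K) = l * X₁ + ν * Y₁) (h2 : (1 : K) = l * X₂ + ν * Y₂)
    (h3 : (1 : K) = l * X₃ - ν * Y₃)
    (hs : ν ^ 2 * (X₁ + X₂ + X₃) = l ^ 2 - A * ν ^ 2)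
    (hs2 : ν ^ 2 * (X₁ ^ 2 + X₁ * X₂ + X₂ ^ 2 + A * (X₁ + X₂) + B) =
      l ^ 2 * (X₁ + X₂) - 2 * l) :
    Y₃ ≠ 0 ∧ (1 + (A + 2 * B * l) * (X₁ / Y₁) * (X₂ / Y₂)) * (X₃ / Y₃) = X₁ / Y₁ + X₂ / Y₂ := by
  have e2 : ν ^ 2 * (X₁ * X₂ + X₁ * X₃ + X₂ * X₃) = B * ν ^ 2 + 2 * l := by
    linear_combination (X₁ + X₂) * hs - hs2
  have e3 : ν ^ 2 * (X₁ * X₂ * X₃) = 1 := by
    have hq' : ν ^ 2 * (X₁ ^ 3 + A * X₁ ^ 2 + B * X₁) = (1 - l * X₁) ^ 2 := by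
      rw [← hq]
      have : ν * Y₁ = 1 - l * X₁ := by linear_combination -h1
      rw [← this]; ring
    linear_combination X₁ * e2 - X₁ ^ 2 * hs + hq'
  have u1 : ν * Y₁ = 1 - l * X₁ := by linear_combination -h1
  have u2 : ν * Y₂ = 1 - l * X₂ := by linear_combination -h2
  have u3 : ν * Y₃ = -(1 - l * X₃) := by linear_combination h3
  have hprod : ν ^ 2 * ((1 - l * X₁) * (1 - l * X₂) * (1 - l * X₃))
      = ν ^ 2 * (1 + A * l + B * l ^ 2) := by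
    linear_combination (-l) * hs + l ^ 2 * e2 - l ^ 3 * e3
  have hY3 : Y₃ ≠ 0 := by
    intro h
    rw [h, mul_zero] at u3
    have : 1 - l * X₃ = 0 := by linear_combination u3
    rw [this, mul_zero, mul_zero] at hprod
    exact (mul_ne_zero (pow_ne_zero 2 hν) hD) hprod.symm
  refine ⟨hY3, ?_⟩
  have key : X₁ * ((1 - l * X₂) * (1 - l * X₃)) + X₂ * ((1 - l * X₁) * (1 - l * X₃))
      + X₃ * ((1 - l * X₁) * (1 - l * X₂)) + (A + 2 * B * l) * ν ^ 2 * (X₁ * X₂ * X₃) = 0 := by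
    apply mul_left_cancel₀ (pow_ne_zero 2 hν)
    linear_combination hs - 2 * l * e2 + 3 * l ^ 2 * e3 + (A + 2 * B * l) * ν ^ 2 * e3
  rw [← u1, ← u2] at key
  have u3' : 1 - l * X₃ = -(ν * Y₃) := by linear_combination u3
  rw [u3'] at key
  have key2 : ν ^ 2 * (-(X₁ * Y₂ * Y₃) - X₂ * Y₁ * Y₃ + X₃ * Y₁ * Y₂
      + (A + 2 * B * l) * (X₁ * X₂ * X₃)) = 0 := by linear_combination key
  have key3 := (mul_eq_zero.1 key2).resolve_left (pow_ne_zero 2 hν)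
  field_simp
  linear_combination key3

/-- The addition law near the origin. -/
theorem Par.add (hδ : (p : ℤ_[p]) ∣ δ) (hp2 : (2 : ℤ_[p]) ≠ 0)
    {P₁ P₂ : (TW (a : ℚ_[p]) b δ).Point}
    {Z₁ w₁ Z₂ w₂ : ℤ_[p]} (h₁ : Par a b δ P₁ Z₁ w₁) (h₂ : Par a b δ P₂ Z₂ w₂) :
    ∃ Z₃ w₃ g : ℤ_[p], Par a b δ (P₁ + P₂) Z₃ w₃ ∧ (1 + δ * g * Z₁ * Z₂) * Z₃ = Z₁ + Z₂ ∧
      δ ∣ g - a := by
  -- the line `w = l Z + ν`
  obtain ⟨N, hN⟩ := isUnit_one_add hδ (-(a * Z₁ ^ 2 + b * δ * Z₁ * (w₁ + w₂)))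
  obtain ⟨l, hl⟩ : ∃ l : ℤ_[p], (1 - (a * δ) * Z₁ ^ 2 - (b * δ ^ 2) * Z₁ * (w₁ + w₂)) * l
      = Z₁ ^ 2 + Z₁ * Z₂ + Z₂ ^ 2 + (a * δ) * w₂ * (Z₁ + Z₂) + (b * δ ^ 2) * w₂ ^ 2 := by
    refine ⟨(↑N⁻¹ : ℤ_[p]) * (Z₁ ^ 2 + Z₁ * Z₂ + Z₂ ^ 2 + (a * δ) * w₂ * (Z₁ + Z₂)
      + (b * δ ^ 2) * w₂ ^ 2), ?_⟩
    have : (1 - (a * δ) * Z₁ ^ 2 - (b * δ ^ 2) * Z₁ * (w₁ + w₂)) = (N : ℤ_[p]) := by
      rw [hN]; ring
    rw [this, ← mul_assoc, Units.mul_inv, one_mul]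
  obtain ⟨ν, hν⟩ : ∃ ν : ℤ_[p], ν = w₁ - l * Z₁ := ⟨_, rfl⟩
  have hw1 : w₁ = l * Z₁ + ν := by rw [hν]; ring
  have hw2 : w₂ = l * Z₂ + ν := by
    have hu := isUnit_one_add hδ (-(a * Z₁ ^ 2 + b * δ * Z₁ * (w₁ + w₂)))
    have e : (1 + δ * (-(a * Z₁ ^ 2 + b * δ * Z₁ * (w₁ + w₂)))) * ((w₁ - w₂) - (Z₁ - Z₂) * l)
        = 0 := by
      linear_combination h₁.1 - h₂.1 - (Z₁ - Z₂) * hl
    have e2 := (mul_eq_zero.1 e).resolve_left hu.ne_zero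
    linear_combination (-1 : ℤ_[p]) * e2 + hw1
  obtain ⟨D, hD⟩ := isUnit_one_add hδ (a * l + b * δ * l ^ 2)
  have hD' : (1 + (a * δ) * l + (b * δ ^ 2) * l ^ 2) * (↑D⁻¹ : ℤ_[p]) = 1 := by
    have : (1 + (a * δ) * l + (b * δ ^ 2) * l ^ 2) = (D : ℤ_[p]) := by rw [hD]; ring
    rw [this, Units.mul_inv]
  have c₁ : w₁ = Z₁ ^ 3 + (a * δ) * Z₁ ^ 2 * w₁ + (b * δ ^ 2) * Z₁ * w₁ ^ 2 := h₁.1
  obtain ⟨Z₃, hmain, hν3, hc3⟩ := add_alg2 c₁ hw1 hw2 hl hD'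
  obtain ⟨hdd, -⟩ := add_alg c₁ hw1 hw2 hl
  have hDu : IsUnit (1 + (a * δ) * l + (b * δ ^ 2) * l ^ 2) := by
    have : (1 + (a * δ) * l + (b * δ ^ 2) * l ^ 2) = (D : ℤ_[p]) := by rw [hD]; ring
    rw [this]; exact D.isUnit
  refine ⟨Z₃, l * Z₃ - ν, a + 2 * b * δ * l, ?_, by linear_combination hmain, ⟨2 * b * l, by ring⟩⟩
  refine ⟨hc3, ?_⟩
  -- identify the sum
  rcases h₁.2 with ⟨k1, k2⟩ | ⟨k1, X₁, Y₁, g₁, k2, k3, k4⟩
  · -- `P₁ = 0`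
    have hZ1 := h₁.w_eq_zero_iff.1 k1
    have hν0 : ν = 0 := by rw [hν, k1, hZ1]; ring
    have hZ32 : Z₃ = Z₂ := by
      have := hmain
      rw [hZ1] at this
      linear_combination this
    have e : l * Z₃ - ν = w₂ := by rw [hZ32, hν0, hw2, hν0]; ring
    rw [e, k2, zero_add, hZ32]
    exact h₂.2
  rcases h₂.2 with ⟨m1, m2⟩ | ⟨m1, X₂, Y₂, g₂, m2, m3, m4⟩
  · have hZ2 := h₂.w_eq_zero_iff.1 m1
    have hν0 : ν = 0 := by rw [m1, hZ2] at hw2; linear_combination -hw2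
    have hZ31 : Z₃ = Z₁ := by
      have := hmain
      rw [hZ2] at this
      linear_combination this
    have e : l * Z₃ - ν = w₁ := by rw [hZ31, hν0, hw1, hν0]; ring
    rw [e, m2, add_zero, hZ31]
    exact h₁.2
  -- both affine
  have hZ1 : Z₁ ≠ 0 := fun h => k1 (h₁.w_eq_zero_iff.2 h)
  have hZ2 : Z₂ ≠ 0 := fun h => m1 (h₂.w_eq_zero_iff.2 h)
  have hY1 : Y₁ ≠ 0 := by rintro rfl; rw [zero_mul] at k3; exact zero_ne_one k3
  have hY2 : Y₂ ≠ 0 := by rintro rfl; rw [zero_mul] at m3; exact zero_ne_one m3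
  have hlin1 : (1 : ℚ_[p]) = l * X₁ + ν * Y₁ := by
    have : ((w₁ : ℤ_[p]) : ℚ_[p]) = l * Z₁ + ν := by rw [hw1]; push_cast; ring
    rw [k4]
    calc (1 : ℚ_[p]) = Y₁ * w₁ := k3.symm
      _ = _ := by rw [this]; ring
  have hlin2 : (1 : ℚ_[p]) = l * X₂ + ν * Y₂ := by
    have : ((w₂ : ℤ_[p]) : ℚ_[p]) = l * Z₂ + ν := by rw [hw2]; push_cast; ring
    rw [m4]
    calc (1 : ℚ_[p]) = Y₂ * w₂ := m3.symm
      _ = _ := by rw [this]; ring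
  have q₁ := (tw_equation _ _ _ X₁ Y₁).1 g₁.1
  have q₂ := (tw_equation _ _ _ X₂ Y₂).1 g₂.1
  by_cases hν0 : ν = 0
  · -- sum is zero
    have hZ30 : Z₃ = 0 := by
      rw [hν0] at hν3
      have e : (1 + (a * δ) * l + (b * δ ^ 2) * l ^ 2) * (Z₁ * Z₂ * Z₃) = 0 := by
        linear_combination hν3
      have e2 := (mul_eq_zero.1 e).resolve_left hDu.ne_zero
      exact (mul_eq_zero.1 e2).resolve_left (mul_ne_zero hZ1 hZ2)
    left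
    refine ⟨by rw [hZ30, hν0]; ring, ?_⟩
    have hZ12 : Z₁ = -Z₂ := by
      rw [hZ30, mul_zero] at hmain
      linear_combination -hmain
    have hP : P₁ = -P₂ := by
      have h2' := h₂.neg
      rw [← hZ12] at h2'
      exact Par.inj hδ h₁ h2'
    rw [hP, neg_add_cancel]
  · have hν0' : (ν : ℚ_[p]) ≠ 0 := coe_ne hν0
    have hD0 : (1 + (a * δ) * l + (b * δ ^ 2) * l ^ 2 : ℚ_[p]) ≠ 0 := by
      have := coe_ne hDu.ne_zero
      push_cast at this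
      exact this
    -- `P₁ + P₂` is affine with coordinates on the line
    have key : ∃ X₃ Y₃, ∃ g₃ : (TW (a : ℚ_[p]) b δ).Nonsingular X₃ Y₃,
        P₁ + P₂ = Affine.Point.some X₃ Y₃ g₃ ∧ (1 : ℚ_[p]) = l * X₃ - ν * Y₃ ∧
        (ν : ℚ_[p]) ^ 2 * (X₁ + X₂ + X₃) = l ^ 2 - (a * δ) * ν ^ 2 ∧
        (ν : ℚ_[p]) ^ 2 * (X₁ ^ 2 + X₁ * X₂ + X₂ ^ 2 + (a * δ) * (X₁ + X₂) + b * δ ^ 2) =
          l ^ 2 * (X₁ + X₂) - 2 * l := by
      rw [k2, m2]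
      by_cases hX : X₁ = X₂
      · -- doubling
        have hYY : Y₁ = Y₂ := by
          have : (ν : ℚ_[p]) * (Y₁ - Y₂) = 0 := by
            rw [hX] at hlin1
            linear_combination hlin2 - hlin1
          exact sub_eq_zero.1 ((mul_eq_zero.1 this).resolve_left hν0')
        subst hX
        subst hYY
        have h2 : (2 : ℚ_[p]) ≠ 0 := by
          have := coe_ne hp2
          rwa [coe_two] at this
        obtain ⟨X₃, Y₃, g₃, e1, e2, e3⟩ := tw_dbl g₁ (mul_ne_zero h2 hY1)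
        refine ⟨X₃, Y₃, g₃, e1, ?_⟩
        have hZ12 : Z₁ = Z₂ := coe_inj (mul_right_cancel₀ hY1 (k4.symm.trans m4))
        have hsl : (ν : ℚ_[p]) * (3 * X₁ ^ 2 + 2 * (a * δ) * X₁ + b * δ ^ 2) = - (l * (2 * Y₁)) := by
          apply dbl_slope q₁ hlin1 hY1
          have hddc := congrArg (fun x : ℤ_[p] => (x : ℚ_[p])) hdd
          simp only [← hZ12] at hddc
          push_cast [coe_two] at hddc
          have hZX : (Z₁ : ℚ_[p]) * Y₁ = X₁ := k4.symm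
          rw [← hZX]
          linear_combination Y₁ ^ 2 * hddc
        have h2Y : (2 * Y₁ : ℚ_[p]) ≠ 0 := mul_ne_zero h2 hY1
        refine ⟨?_, ?_, ?_⟩
        · apply mul_right_cancel₀ h2Y
          linear_combination (ν : ℚ_[p]) * e3 - (X₃ - X₁) * hsl + (2 * Y₁) * hlin1
        · apply mul_right_cancel₀ (pow_ne_zero 2 h2Y)
          have e2' : X₃ * (2 * Y₁) ^ 2 = (3 * X₁ ^ 2 + 2 * (a * δ) * X₁ + b * δ ^ 2) ^ 2
              - (a * δ + X₁ + X₁) * (2 * Y₁) ^ 2 := by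
            linear_combination e2 + 4 * (a * δ + 2 * X₁) * q₁
          linear_combination (ν : ℚ_[p]) ^ 2 * e2' +
            ((ν : ℚ_[p]) * (3 * X₁ ^ 2 + 2 * (a * δ) * X₁ + b * δ ^ 2) - (l * (2 * Y₁))) * hsl
        · linear_combination (ν : ℚ_[p]) * hsl + (2 * l : ℚ_[p]) * hlin1
      · obtain ⟨X₃, Y₃, g₃, e1, e2, e3⟩ := tw_add_X_ne g₁ g₂ hX
        refine ⟨X₃, Y₃, g₃, e1, ?_⟩
        have hs : X₁ - X₂ ≠ 0 := sub_ne_zero.2 hX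
        have hsl : (ν : ℚ_[p]) * (Y₁ - Y₂) = - (l * (X₁ - X₂)) := by
          linear_combination hlin2 - hlin1
        refine ⟨?_, ?_, ?_⟩
        · apply mul_right_cancel₀ hs
          linear_combination (ν : ℚ_[p]) * e3 - (X₃ - X₁) * hsl + (X₁ - X₂) * hlin1
        · apply mul_right_cancel₀ (pow_ne_zero 2 hs)
          linear_combination (ν : ℚ_[p]) ^ 2 * e2 +
            ((ν : ℚ_[p]) * (Y₁ - Y₂) - (l * (X₁ - X₂))) * hsl
        · apply mul_right_cancel₀ hs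
          have y1 : (ν : ℚ_[p]) * Y₁ = 1 - l * X₁ := by linear_combination -hlin1
          have y2 : (ν : ℚ_[p]) * Y₂ = 1 - l * X₂ := by linear_combination -hlin2
          have s1 : ((ν : ℚ_[p]) * Y₁) ^ 2 = (1 - l * X₁) ^ 2 := by rw [y1]
          have s2 : ((ν : ℚ_[p]) * Y₂) ^ 2 = (1 - l * X₂) ^ 2 := by rw [y2]
          linear_combination (-(ν : ℚ_[p]) ^ 2) * q₁ + (ν : ℚ_[p]) ^ 2 * q₂ + s1 - s2
    obtain ⟨X₃, Y₃, g₃, e1, e2, e3, e4⟩ := key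
    obtain ⟨hY3, hid⟩ := third_point hν0' hY1 hY2 hD0 q₁ hlin1 hlin2 e2 e3 e4
    have hz1 : X₁ / Y₁ = Z₁ := by rw [k4]; field_simp
    have hz2 : X₂ / Y₂ = Z₂ := by rw [m4]; field_simp
    rw [hz1, hz2] at hid
    have hmc := congrArg (fun x : ℤ_[p] => (x : ℚ_[p])) hmain
    push_cast [coe_two] at hmc
    have hu0 : (1 + (a * δ + 2 * (b * δ ^ 2) * l) * Z₁ * Z₂ : ℚ_[p]) ≠ 0 := by
      have := coe_ne (isUnit_one_add hδ ((a + 2 * b * δ * l) * Z₁ * Z₂)).ne_zero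
      push_cast [coe_two] at this
      intro h
      apply this
      linear_combination h
    have hZX : X₃ / Y₃ = Z₃ := by
      apply mul_left_cancel₀ hu0
      rw [hid]
      exact hmc.symm
    right
    have hYw : Y₃ * ((l * Z₃ - ν : ℤ_[p]) : ℚ_[p]) = 1 := by
      push_cast
      rw [← hZX]
      field_simp
      linear_combination -e2
    refine ⟨?_, X₃, Y₃, g₃, e1, hYw, ?_⟩
    · intro h
      rw [h] at hYw
      simp at hYw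
    · rw [← hZX]; field_simp

end

end Pool.Agent.Helper10.K3
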