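import Pool.Agent.Helper10.K3.Padic

/-!
# Multiples of points near the origin and the filtration
-/

namespace Pool.Agent.Helper10.K3

open WeierstrassCurve

variable {p : ℕ} [Fact p.Prime]

section

variable {a b δ : ℤ_[p]}

theorem Par.nsmul (hδ : (p : ℤ_[p]) ∣ δ) (hp2 : (2 : ℤ_[p]) ≠ 0)
    {P : (TW (a : ℚ_[p]) b δ).Point} {Z w : ℤ_[p]} (h : Par a b δ P Z w) (k : ℕ) :
    ∃ (s w' e : ℤ_[p]) (c : ℤ), Par a b δ (k • P) (Z * s) w' ∧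
      s = k + a * δ * c * Z ^ 2 + δ ^ 2 * Z ^ 2 * e ∧ 3 * c = k - (k : ℤ) ^ 3 := by
  induction k with
  | zero =>
    refine ⟨0, 0, 0, 0, ?_, by push_cast; ring, by norm_num⟩
    have e0 : (0 : ℕ) • P = 0 := zero_nsmul P
    rw [e0, mul_zero]
    exact Par.zero
  | succ k ih =>
    obtain ⟨s, w', e, c, h1, h2, h3⟩ := ih
    obtain ⟨Z₃, w₃, g, k1, k2, ⟨g', hg'⟩⟩ := Par.add hδ hp2 h1 h
    obtain ⟨U, hU⟩ := isUnit_one_add hδ (g * Z ^ 2 * s)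
    -- `Z₃ = Z * s'`
    obtain ⟨s', hs'⟩ : ∃ s' : ℤ_[p], s' = (↑U⁻¹ : ℤ_[p]) * (s + 1) := ⟨_, rfl⟩
    have hUs : (1 + δ * (g * Z ^ 2 * s)) * s' = s + 1 := by
      rw [← hU, hs', ← mul_assoc, Units.mul_inv, one_mul]
    have hZ3 : Z₃ = Z * s' := by
      have hu := isUnit_one_add hδ (g * Z ^ 2 * s)
      apply hu.mul_left_cancel
      linear_combination k2 - Z * hUs
    have hg : g = a + δ * g' := by linear_combination hg'
    obtain ⟨t, ht⟩ : ∃ t : ℤ_[p], t = a * c + δ * e := ⟨_, rfl⟩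
    have hs : s = k + δ * Z ^ 2 * t := by rw [h2, ht]; ring
    obtain ⟨t', ht'⟩ : ∃ t' : ℤ_[p], t' = t - g * s * s' := ⟨_, rfl⟩
    have hs'' : s' = (k + 1) + δ * Z ^ 2 * t' := by
      rw [ht']
      linear_combination hUs + hs
    refine ⟨s', w₃, e - g' * s * s' - a * (k * Z ^ 2 * t' + (k + 1) * Z ^ 2 * t
      + δ * Z ^ 4 * t * t'), c - k ^ 2 - k, ?_, ?_, ?_⟩
    · rw [add_smul, one_smul, ← hZ3]
      exact k1
    · have e1 : s' = s + 1 - δ * g * Z ^ 2 * (s * s') := by linear_combination hUs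
      have e2 : s * s' = k * (k + 1) + δ * (k * Z ^ 2 * t' + (k + 1) * Z ^ 2 * t
          + δ * Z ^ 4 * t * t') := by
        rw [hs'', hs]; ring
      have e3 : δ * g * Z ^ 2 * (s * s') = δ * a * Z ^ 2 * (s * s') + δ ^ 2 * Z ^ 2 * (g' * s * s') := by
        rw [hg]; ring
      rw [e3] at e1
      push_cast
      linear_combination e1 + h2 - δ * a * Z ^ 2 * e2
    · push_cast
      linear_combination h3

/-- multiplication by `p`. -/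
theorem Par.p_smul (hδ : (p : ℤ_[p]) ∣ δ) (hp : 3 < p)
    {P : (TW (a : ℚ_[p]) b δ).Point} {Z w : ℤ_[p]} (h : Par a b δ P Z w) :
    ∃ (u : ℤ_[p]ˣ) (w' : ℤ_[p]), Par a b δ (p • P) (p * u * Z) w' := by
  have hpp : p.Prime := Fact.out
  have hp2 : (2 : ℤ_[p]) ≠ 0 := two_ne_zero
  obtain ⟨s, w', e, c, h1, h2, h3⟩ := Par.nsmul hδ hp2 h p
  have hc : (p : ℤ) ∣ c := by
    have h4 : (p : ℤ) ∣ 3 * c := ⟨1 - (p : ℤ) ^ 2, by rw [h3]; ring⟩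
    have hcop : IsCoprime (p : ℤ) 3 := by
      have : Nat.Coprime p 3 := (Nat.coprime_primes hpp Nat.prime_three).2 (by omega)
      exact_mod_cast this.isCoprime
    exact hcop.dvd_of_dvd_mul_left h4
  obtain ⟨c', hc'⟩ := hc
  obtain ⟨δ', hδ'⟩ := hδ
  obtain ⟨u, hu⟩ := isUnit_one_add (δ := δ) ⟨δ', hδ'⟩ (a * c' * Z ^ 2 + δ' * Z ^ 2 * e)
  refine ⟨u, w', ?_⟩
  have : (p * u * Z : ℤ_[p]) = Z * s := by
    rw [h2, hu, hc']
    push_cast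
    rw [hδ']
    ring
  rw [this]
  exact h1

theorem Par.p_pow_smul (hδ : (p : ℤ_[p]) ∣ δ) (hp : 3 < p)
    {P : (TW (a : ℚ_[p]) b δ).Point} {Z w : ℤ_[p]} (h : Par a b δ P Z w) (n : ℕ) :
    ∃ (u : ℤ_[p]ˣ) (w' : ℤ_[p]), Par a b δ (p ^ n • P) (p ^ n * u * Z) w' := by
  induction n with
  | zero => exact ⟨1, w, by simpa using h⟩
  | succ n ih =>
    obtain ⟨u, w', h1⟩ := ih
    obtain ⟨u', w'', h2⟩ := Par.p_smul hδ hp h1
    refine ⟨u' * u, w'', ?_⟩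
    have e1 : p ^ (n + 1) • P = p • (p ^ n • P) := by
      rw [pow_succ, mul_comm, mul_nsmul']
    have e2 : (p ^ (n + 1) * ((u' * u : ℤ_[p]ˣ) : ℤ_[p]) * Z : ℤ_[p])
        = p * u' * (p ^ n * u * Z) := by
      rw [Units.val_mul]; ring
    rw [e1, e2]
    exact h2

/-- The filtration of the neighbourhood of the origin. -/
def Fil (a b δ : ℤ_[p]) (n : ℕ) : Set (TW (a : ℚ_[p]) b δ).Point :=
  {P | ∃ Z w, Par a b δ P Z w ∧ (p : ℤ_[p]) ^ n ∣ Z}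

theorem Fil.zero_mem (n : ℕ) : (0 : (TW (a : ℚ_[p]) b δ).Point) ∈ Fil a b δ n :=
  ⟨0, 0, Par.zero, dvd_zero _⟩

theorem Fil.neg_mem {n : ℕ} {P : (TW (a : ℚ_[p]) b δ).Point} (h : P ∈ Fil a b δ n) :
    -P ∈ Fil a b δ n := by
  obtain ⟨Z, w, h1, h2⟩ := h
  exact ⟨-Z, -w, h1.neg, (dvd_neg).2 h2⟩

theorem Fil.add_mem (hδ : (p : ℤ_[p]) ∣ δ) {n : ℕ} {P Q : (TW (a : ℚ_[p]) b δ).Point}
    (h : P ∈ Fil a b δ n) (h' : Q ∈ Fil a b δ n) : P + Q ∈ Fil a b δ n := by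
  obtain ⟨Z₁, w₁, h1, h2⟩ := h
  obtain ⟨Z₂, w₂, k1, k2⟩ := h'
  obtain ⟨Z₃, w₃, g, m1, m2, -⟩ := Par.add hδ two_ne_zero h1 k1
  refine ⟨Z₃, w₃, m1, ?_⟩
  have hu := isUnit_one_add hδ (g * Z₁ * Z₂)
  have : (p : ℤ_[p]) ^ n ∣ (1 + δ * (g * Z₁ * Z₂)) * Z₃ := by
    have e : (1 + δ * (g * Z₁ * Z₂)) * Z₃ = Z₁ + Z₂ := by linear_combination m2
    rw [e]
    exact dvd_add h2 k2
  exact (hu.dvd_mul_left).1 this

theorem Fil.mono {m n : ℕ} (hmn : m ≤ n) : Fil a b δ n ⊆ Fil a b δ m := by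
  rintro P ⟨Z, w, h1, h2⟩
  exact ⟨Z, w, h1, (pow_dvd_pow _ hmn).trans h2⟩

/-- The filtration as a subgroup. -/
def FilG (a b δ : ℤ_[p]) (hδ : (p : ℤ_[p]) ∣ δ) (n : ℕ) : AddSubgroup (TW (a : ℚ_[p]) b δ).Point where
  carrier := Fil a b δ n
  zero_mem' := Fil.zero_mem n
  add_mem' := Fil.add_mem hδ
  neg_mem' := Fil.neg_mem

theorem Fil.p_pow_smul_mem (hδ : (p : ℤ_[p]) ∣ δ) (hp : 3 < p) {m : ℕ} (n : ℕ)
    {P : (TW (a : ℚ_[p]) b δ).Point}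
    (h : P ∈ Fil a b δ m) : p ^ n • P ∈ Fil a b δ (m + n) := by
  obtain ⟨Z, w, h1, ⟨z, hz⟩⟩ := h
  obtain ⟨u, w', h2⟩ := Par.p_pow_smul hδ hp h1 n
  exact ⟨_, _, h2, ⟨u * z, by rw [hz]; ring⟩⟩

/-- The neighbourhood of the origin is procyclic, generated by any point with `Z` a unit. -/
theorem Fil.exists_zsmul (hδ : (p : ℤ_[p]) ∣ δ) (hp : 3 < p)
    {P Q : (TW (a : ℚ_[p]) b δ).Point} {Z w : ℤ_[p]} (h : Par a b δ P Z w) (hZ : IsUnit Z)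
    (hQ : Q ∈ Fil a b δ 0) (n : ℕ) : ∃ k : ℕ, Q - k • P ∈ Fil a b δ n := by
  induction n with
  | zero => exact ⟨0, by simpa using hQ⟩
  | succ n ih =>
    obtain ⟨k, Z', w', h1, ⟨z', hz'⟩⟩ := ih
    obtain ⟨u, w'', h2⟩ := Par.p_pow_smul hδ hp h n
    -- choose `c` with `c u Z ≡ z'` modulo `p`
    obtain ⟨v, hv⟩ := hZ
    obtain ⟨c, hc⟩ : ∃ c : ℕ, (p : ℤ_[p]) ∣ z' - u * Z * c := by
      set x : ℤ_[p] := (↑(u * v)⁻¹ : ℤ_[p]) * z' with hx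
      obtain ⟨c, -, hc⟩ := PadicInt.exists_mem_range (x := x)
      refine ⟨c, ?_⟩
      have hxx : u * Z * x = z' := by
        rw [hx, ← hv, ← Units.val_mul, ← mul_assoc, Units.mul_inv, one_mul]
      have : z' - u * Z * c = u * Z * (x - c) := by rw [mul_sub, hxx]
      rw [this]
      refine Dvd.dvd.mul_left ?_ _
      rw [PadicInt.maximalIdeal_eq_span_p, Ideal.mem_span_singleton] at hc
      exact hc
    obtain ⟨s, w₃, e, c', h3, h4, -⟩ := Par.nsmul hδ two_ne_zero h2 c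
    obtain ⟨Z₃, w₄, g, m1, m2, -⟩ := Par.add hδ two_ne_zero h1 h3.neg
    refine ⟨k + c * p ^ n, Z₃, w₄, ?_, ?_⟩
    · have e1 : Q - (k + c * p ^ n) • P = Q - k • P + -(c • p ^ n • P) := by
        rw [add_smul, mul_nsmul']
        abel
      rw [e1]
      exact m1
    · have hu := isUnit_one_add hδ (g * Z' * -(p ^ n * u * Z * s))
      have hdiv : (p : ℤ_[p]) ^ (n + 1) ∣ (1 + δ * (g * Z' * -(p ^ n * u * Z * s))) * Z₃ := by
        have e2 : (1 + δ * (g * Z' * -(p ^ n * u * Z * s))) * Z₃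
            = p ^ n * (z' - u * Z * s) := by
          rw [hz'] at m2 ⊢
          linear_combination m2
        rw [e2, pow_succ]
        apply mul_dvd_mul_left
        obtain ⟨δ', hδ'⟩ := hδ
        have e3 : z' - u * Z * s = (z' - u * Z * c)
            + p * (-(u * Z * (a * δ' * c' * (p ^ n * u * Z) ^ 2
              + δ' * δ * (p ^ n * u * Z) ^ 2 * e))) := by
          rw [h4, hδ']; ring
        rw [e3]
        exact dvd_add hc (dvd_mul_right _ _)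
      exact (hu.dvd_mul_left).1 hdiv

end

end Pool.Agent.Helper10.K3
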