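import Pool.Agent.Helper10.K3.Inst

/-!
# Transitivity at a place `p = 5 mod 8`
-/

namespace KumWA

open Classical

variable {p : ℕ} [hp : Fact p.Prime]

/-- concrete closed and stable predicates containing the data near the nodes -/
structure GS (G : Loc p → Prop) : Prop where
  cl : ∀ l, (∀ n, ∃ l', G l' ∧ LNear n l' l) → G l
  sh1 : ∀ (d : ℚ_[p]) (hd : nd d) (Q R : E d) (a : ℤ), G ⟨d, hd, Q, R⟩ → G ⟨d, hd, Q + a • R, R⟩
  sh2 : ∀ (d : ℚ_[p]) (hd : nd d) (Q R : E d) (a : ℤ), G ⟨d, hd, Q, R⟩ → G ⟨d, hd, Q, R + a • Q⟩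
  tr2 : ∀ (d : ℚ_[p]) (hd : nd d) (Q R : E d), G ⟨d, hd, Q, R⟩ → G ⟨d, hd, Q, R + T (nd_ne hd)⟩
  neg1 : ∀ (d : ℚ_[p]) (hd : nd d) (Q R : E d), G ⟨d, hd, Q, R⟩ → G ⟨d, hd, -Q, R⟩
  sig : ∀ l l', G l → SigL l l' → G l'
  nn : ∀ l, NN l → G l

/-- the data with `R` near `T` and `Q` of normalised coordinate congruent to `c` -/
def RC (G : Loc p → Prop) (c : ℤ) : Prop :=
  ∀ (d : ℚ_[p]) (hd : nd d) (Q R : E d), ‖xc Q / d - c‖ < 1 → fil 0 (R + T (nd_ne hd)) →
    G ⟨d, hd, Q, R⟩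

theorem le_nd {d : ℚ_[p]} (hd : nd d) : ((p : ℝ) ^ 2)⁻¹ ≤ ‖d‖ := by
  have hp1 := one_lt_p (p := p)
  rcases hd with h | h
  · rw [h]
    apply inv_anti₀ (by positivity)
    nlinarith
  · exact h.ge

theorem fil_zero_of_lt (h8 : p % 8 = 5) {d : ℚ_[p]} (hd : nd d) {P : E d} (h : ‖d‖ < ‖xc P‖) :
    fil 0 P := by
  have hK := kHyp_padic h8
  have hp1 := one_lt_p (p := p)
  have h2 : xc P ≠ 0 := by
    intro h0
    rw [h0, norm_zero] at h
    exact absurd h (not_lt.2 (norm_nonneg _))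
  obtain ⟨k, hk⟩ : ∃ k : ℤ, ‖xc P‖ = (p : ℝ) ^ (2 * k) := by
    rcases hK.xc_cases (P := P) (nd_ne hd) with h | h
    · exact norm_of_isSquare h2 h
    · obtain ⟨k, hk⟩ := norm_of_isSquare (mul_ne_zero two_ne_zero h2) h
      rw [norm_mul, norm_two (p_ne_two h8), one_mul] at hk
      exact ⟨k, hk⟩
  right
  rw [mul_zero, pow_zero, hk]
  have h3 := (le_nd hd).trans_lt h
  rw [hk] at h3
  have h4 : (p : ℝ) ^ (-2 : ℤ) < (p : ℝ) ^ (2 * k) := by
    rw [zpow_neg]
    exact_mod_cast h3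
  have h5 := (zpow_lt_zpow_iff_right₀ hp1).1 h4
  exact one_le_zpow₀ hp1.le (by omega)

/-- a point whose normalised coordinate is small -/
theorem nk_of_small (h8 : p % 8 = 5) {d : ℚ_[p]} (hd : nd d) {Q : E d} (h : ‖xc Q / d‖ < 1) :
    nk hd Q := by
  have h2 := p_ne_two h8
  have hd0 := nd_ne hd
  have hdn : 0 < ‖d‖ := norm_pos_iff.2 hd0
  by_cases hQ : Q = 0
  · left; rw [hQ]; exact fil_zero' 0
  by_cases hT : Q = T hd0
  · right; rw [hT, T_add_T]; exact fil_zero' 0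
  obtain ⟨h1, h3, h4, h5⟩ := add_T hd0 hQ hT
  right
  rw [norm_div, div_lt_one hdn] at h
  have hxn : 0 < ‖xc Q‖ := norm_pos_iff.2 h3
  have h6 : ‖xc (Q + T hd0)‖ * ‖xc Q‖ = ‖d‖ ^ 2 := by
    rw [← norm_mul, h4, div_mul_cancel₀ _ h3, norm_mul, norm_two h2, one_mul, norm_pow]
  have h7 : ‖d‖ < ‖xc (Q + T hd0)‖ := by
    by_contra hcon
    push Not at hcon
    have : ‖xc (Q + T hd0)‖ * ‖xc Q‖ < ‖d‖ * ‖d‖ :=
      mul_lt_mul' hcon h hxn.le hdn
    rw [h6] at this
    nlinarith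
  exact fil_zero_of_lt h8 hd h7

theorem RC_zero (h8 : p % 8 = 5) {G : Loc p → Prop} (hG : GS G) {c : ℤ} (hc : (p : ℤ) ∣ c) :
    RC G c := by
  intro d hd Q R hx hR
  apply hG.nn
  refine ⟨nk_of_small h8 hd ?_, Or.inr hR⟩
  have h1 : ‖(c : ℚ_[p])‖ < 1 := (Padic.norm_intCast_lt_one_iff (k := c)).2 hc
  have e : xc Q / d = (xc Q / d - c) + c := by ring
  rw [e]
  exact nadd_lt hx h1

theorem RC_congr {G : Loc p → Prop} {c c' : ℤ} (hc : (p : ℤ) ∣ c - c') (h : RC G c) : RC G c' := by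
  intro d hd Q R hx hR
  refine h d hd Q R ?_ hR
  have h1 : ‖((c - c' : ℤ) : ℚ_[p])‖ < 1 := (Padic.norm_intCast_lt_one_iff (k := c - c')).2 hc
  have e : xc Q / d - c = (xc Q / d - c') - ((c - c' : ℤ) : ℚ_[p]) := by push_cast; ring
  rw [e]
  exact nsub_lt hx h1

theorem RC_D (h8 : p % 8 = 5) {G : Loc p → Prop} (hG : GS G) {c : ℤ} (hc : ¬ (p : ℤ) ∣ c)
    (h : RC G (-c - 4)) : RC G c := by
  intro d hd Q R hx hR
  apply hG.cl
  intro n
  obtain ⟨l₀, l', h1, h2, h3, h4⟩ := sig_RT h8 hd Q R c hx hc hR n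
  exact ⟨l', hG.sig _ _ (h l₀.d l₀.hd l₀.Q l₀.R h3 h4) h1, h2⟩

theorem RC_E (h8 : p % 8 = 5) {G : Loc p → Prop} (hG : GS G) {c : ℤ} (hc : ¬ (p : ℤ) ∣ c)
    (h : RC G (-c)) : RC G c := by
  intro d hd Q R hx hR
  have key : G ⟨d, hd, Q, R + (1 : ℤ) • Q⟩ := by
    apply hG.cl
    intro n
    obtain ⟨l₀, l', h1, h2, h3, h4⟩ := sig_RQT h8 hd Q (R + (1 : ℤ) • Q) c hx hc (by
      rw [one_zsmul, add_sub_cancel_right]; exact hR) n
    refine ⟨l', hG.sig _ _ ?_ h1, h2⟩
    have h5 := h l₀.d l₀.hd l₀.Q (l₀.R - l₀.Q) h3 h4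
    have h6 := hG.sh2 _ _ _ _ 1 h5
    rwa [one_zsmul, sub_add_cancel] at h6
  have h6 := hG.sh2 _ _ _ _ (-1) key
  rwa [neg_one_zsmul, one_zsmul, add_neg_cancel_right] at h6

theorem RC_step (h8 : p % 8 = 5) {G : Loc p → Prop} (hG : GS G) {c : ℤ} (h : RC G c) :
    RC G (c - 4) := by
  by_cases h0 : (p : ℤ) ∣ c - 4
  · exact RC_zero h8 hG h0
  · apply RC_D h8 hG h0
    have e : -(c - 4) - 4 = -c := by ring
    rw [e]
    by_cases h1 : (p : ℤ) ∣ c
    · exact RC_zero h8 hG ((dvd_neg).2 h1)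
    · apply RC_E h8 hG (by rwa [dvd_neg])
      rwa [neg_neg]

theorem RC_all (h8 : p % 8 = 5) {G : Loc p → Prop} (hG : GS G) (c : ℤ) : RC G c := by
  have h1 : ∀ k : ℕ, RC G (0 - 4 * k) := by
    intro k
    induction k with
    | zero => exact RC_zero h8 hG (by simp)
    | succ k ih =>
      have := RC_step h8 hG ih
      have e : (0 : ℤ) - 4 * k - 4 = 0 - 4 * ((k + 1 : ℕ) : ℤ) := by push_cast; ring
      rwa [e] at this
  -- choose `k` with `- 4 k = c` modulo `p`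
  have hcop : IsCoprime (4 : ℤ) (p : ℤ) := by
    have h3 : Nat.Coprime 4 p := by
      have h5 : Nat.Coprime 2 p := (Nat.coprime_primes Nat.prime_two hp.1).2 (by omega)
      exact Nat.Coprime.pow_left 2 h5
    exact Nat.isCoprime_iff_coprime.2 h3
  obtain ⟨a, b, hab⟩ := hcop
  -- 4 a + p b = 1
  have h5 : 0 < (p : ℤ) := by exact_mod_cast hp.1.pos
  obtain ⟨k, hk⟩ := Int.eq_ofNat_of_zero_le (Int.emod_nonneg (-(c * a)) h5.ne')
  apply RC_congr _ (h1 k)
  obtain ⟨m, hm⟩ : (p : ℤ) ∣ -(c * a) - (k : ℤ) := by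
    rw [← hk]; exact Int.dvd_self_sub_emod
  refine ⟨4 * m - c * b, ?_⟩
  linear_combination 4 * hm + c * hab

/-- all data with `R` near `T` -/
theorem near_T_all (h8 : p % 8 = 5) {G : Loc p → Prop} (hG : GS G) (d : ℚ_[p]) (hd : nd d)
    (Q R : E d) (hR : fil 0 (R + T (nd_ne hd))) : G ⟨d, hd, Q, R⟩ := by
  have hdn : 0 < ‖d‖ := norm_pos_iff.2 (nd_ne hd)
  by_cases h : ‖xc Q / d‖ ≤ 1
  · obtain ⟨x₀, hx₀⟩ : ∃ x₀ : ℤ_[p], (x₀ : ℚ_[p]) = xc Q / d := ⟨⟨_, h⟩, rfl⟩
    obtain ⟨c, hc⟩ : ∃ c : ℤ, ‖x₀ - (c : ℤ_[p])‖ < 1 := by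
      obtain ⟨n, -, hn⟩ := PadicInt.exists_mem_range x₀
      refine ⟨n, ?_⟩
      have := PadicInt.mem_nonunits.1 ((IsLocalRing.mem_maximalIdeal _).1 hn)
      exact_mod_cast this
    refine RC_all h8 hG c d hd Q R ?_ hR
    rw [← hx₀]
    exact_mod_cast hc
  · push Not at h
    rw [norm_div, one_lt_div hdn] at h
    exact hG.nn _ ⟨Or.inl (fil_zero_of_lt h8 hd h), Or.inr hR⟩

theorem near_0_all (h8 : p % 8 = 5) {G : Loc p → Prop} (hG : GS G) (d : ℚ_[p]) (hd : nd d)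
    (Q R : E d) (hR : fil 0 R) : G ⟨d, hd, Q, R⟩ := by
  have h1 := near_T_all h8 hG d hd Q (R + T (nd_ne hd)) (by
    rw [add_assoc, T_add_T, add_zero]; exact hR)
  have h2 := hG.tr2 _ _ _ _ h1
  rwa [add_assoc, T_add_T, add_zero] at h2

theorem GS.swap {G : Loc p → Prop} (hG : GS G) {d : ℚ_[p]} {hd : nd d} {Q R : E d}
    (h : G ⟨d, hd, Q, R⟩) : G ⟨d, hd, R, Q⟩ := by
  have h1 := hG.sh2 _ _ _ _ 1 h
  have h2 := hG.sh1 _ _ _ _ (-1) h1
  have e1 : Q + (-1 : ℤ) • (R + (1 : ℤ) • Q) = -R := by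
    rw [one_zsmul, neg_one_zsmul]; abel
  rw [e1] at h2
  have h3 := hG.sh2 _ _ _ _ 1 h2
  have e2 : R + (1 : ℤ) • Q + (1 : ℤ) • -R = Q := by
    rw [one_zsmul, one_zsmul]; abel
  rw [e2] at h3
  have h4 := hG.neg1 _ _ _ _ h3
  rwa [neg_neg] at h4

/-- all data for unramified twists -/
theorem unram_all (h8 : p % 8 = 5) {G : Loc p → Prop} (hG : GS G) (d : ℚ_[p]) (hd : nd d)
    {g₁ : E d} : ∀ (n : ℕ) (k l : ℤ), k.natAbs + l.natAbs ≤ n → ∀ Q R : E d,
      fil 0 (Q - k • g₁) → fil 0 (R - l • g₁) → G ⟨d, hd, Q, R⟩ := by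
  intro n
  have hok := nd_okl hd 0
  induction n with
  | zero =>
    intro k l hkl Q R hQ hR
    have hl : l = 0 := by omega
    rw [hl, zero_zsmul, sub_zero] at hR
    exact near_0_all h8 hG d hd Q R hR
  | succ n ih =>
    intro k l hkl Q R hQ hR
    by_cases hl : l = 0
    · rw [hl, zero_zsmul, sub_zero] at hR
      exact near_0_all h8 hG d hd Q R hR
    by_cases hk : k = 0
    · rw [hk, zero_zsmul, sub_zero] at hQ
      exact hG.swap (near_0_all h8 hG d hd R Q hQ)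
    -- Euclid
    have red1 : ∀ s : ℤ, (k + s * l).natAbs + l.natAbs ≤ n → G ⟨d, hd, Q, R⟩ := by
      intro s hs
      have h1 := ih (k + s * l) l hs (Q + s • R) R (by
        have e : Q + s • R - (k + s * l) • g₁ = (Q - k • g₁) + s • (R - l • g₁) := by
          rw [add_zsmul, mul_zsmul, zsmul_sub]; abel
        rw [e]
        exact fil_add hok hQ (fil_zsmul hok hR s)) hR
      have h2 := hG.sh1 _ _ _ _ (-s) h1
      rwa [neg_zsmul, add_neg_cancel_right] at h2
    have red2 : ∀ s : ℤ, k.natAbs + (l + s * k).natAbs ≤ n → G ⟨d, hd, Q, R⟩ := by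
      intro s hs
      have h1 := ih k (l + s * k) hs Q (R + s • Q) hQ (by
        have e : R + s • Q - (l + s * k) • g₁ = (R - l • g₁) + s • (Q - k • g₁) := by
          rw [add_zsmul, mul_zsmul, zsmul_sub]; abel
        rw [e]
        exact fil_add hok hR (fil_zsmul hok hQ s))
      have h2 := hG.sh2 _ _ _ _ (-s) h1
      rwa [neg_zsmul, add_neg_cancel_right] at h2
    rcases le_total k.natAbs l.natAbs with h | h
    · by_cases hs : 0 ≤ k * l
      · apply red2 (-1)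
        rcases le_or_gt 0 k with h1 | h1
        · have h2 : 0 ≤ l := by
            by_contra hcon
            push Not at hcon
            have : k * l < 0 := mul_neg_of_pos_of_neg (by omega) hcon
            omega
          omega
        · have h2 : l ≤ 0 := by
            by_contra hcon
            push Not at hcon
            have : k * l < 0 := mul_neg_of_neg_of_pos h1 hcon
            omega
          omega
      · push Not at hs
        apply red2 1
        rcases le_or_gt 0 k with h1 | h1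
        · have h2 : l < 0 := by
            by_contra hcon
            push Not at hcon
            have : 0 ≤ k * l := mul_nonneg h1 hcon
            omega
          omega
        · have h2 : 0 < l := by
            by_contra hcon
            push Not at hcon
            have : 0 ≤ k * l := mul_nonneg_of_nonpos_of_nonpos h1.le hcon
            omega
          omega
    · by_cases hs : 0 ≤ k * l
      · apply red1 (-1)
        rcases le_or_gt 0 k with h1 | h1
        · have h2 : 0 ≤ l := by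
            by_contra hcon
            push Not at hcon
            have : k * l < 0 := mul_neg_of_pos_of_neg (by omega) hcon
            omega
          omega
        · have h2 : l ≤ 0 := by
            by_contra hcon
            push Not at hcon
            have : k * l < 0 := mul_neg_of_neg_of_pos h1 hcon
            omega
          omega
      · push Not at hs
        apply red1 1
        rcases le_or_gt 0 k with h1 | h1
        · have h2 : l < 0 := by
            by_contra hcon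
            push Not at hcon
            have : 0 ≤ k * l := mul_nonneg h1 hcon
            omega
          omega
        · have h2 : 0 < l := by
            by_contra hcon
            push Not at hcon
            have : 0 ≤ k * l := mul_nonneg_of_nonpos_of_nonpos h1.le hcon
            omega
          omega

theorem GS.all (h8 : p % 8 = 5) {G : Loc p → Prop} (hG : GS G) (l : Loc p) : G l := by
  obtain ⟨d, hd, Q, R⟩ := l
  have hd' := hd
  rcases hd' with h | h
  · exact hG.nn _ ⟨ram_cases h8 h Q, ram_cases h8 h R⟩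
  · obtain ⟨g₁, hg⟩ := (unram h8 h).1
    obtain ⟨k, hk⟩ := hg Q
    obtain ⟨l, hl⟩ := hg R
    exact unram_all h8 hG d hd _ k l le_rfl Q R hk hl

/-! ### strong axioms -/

theorem nk_of_sub {d : ℚ_[p]} (hd : nd d) {Q : E d} {i : ZMod 2}
    (h : fil 0 (Q - torHom p ⟨d, hd⟩ i)) : nk hd Q := by
  rcases zmod2_cases i with rfl | rfl
  · rw [tor_zero, sub_zero] at h
    exact Or.inl h
  · rw [tor_one] at h
    right
    have : Q - T (nd_ne hd) = Q + T (nd_ne hd) := by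
      rw [sub_eq_add_neg, neg_T]
    rwa [this] at h

theorem sub_of_nk {d : ℚ_[p]} (hd : nd d) {Q : E d} (h : nk hd Q) :
    ∃ i : ZMod 2, fil 0 (Q - torHom p ⟨d, hd⟩ i) := by
  rcases h with h | h
  · exact ⟨0, by rw [tor_zero, sub_zero]; exact h⟩
  · refine ⟨1, ?_⟩
    rw [tor_one]
    have : Q - T (nd_ne hd) = Q + T (nd_ne hd) := by
      rw [sub_eq_add_neg, neg_T]
    change fil 0 (Q - T (nd_ne hd))
    rw [this]
    exact h

theorem trans_all (h8 : p % 8 = 5) (H : Abs.Loc (prePl p) → Prop) (hH : Abs.Stable1 (pl p) H)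
    (hN : ∀ l, Abs.Loc.NN l → H l) : ∀ l, H l := by
  have hG : GS (fun l : Loc p => H (ofL p l)) := by
    refine ⟨?_, ?_, ?_, ?_, ?_, ?_, ?_⟩
    · intro l hl
      apply hH.cl
      intro n
      obtain ⟨l', h1, h2⟩ := hl n
      exact ⟨ofL p l', h1, near_iff.2 h2⟩
    · intro d hd Q R a h
      exact hH.sh1 _ a h
    · intro d hd Q R a h
      exact hH.sh2 _ a h
    · intro d hd Q R h
      have h1 : H ((ofL p ⟨d, hd, Q, R⟩).tr2 1) := hH.tr2 _ 1 h
      have e : (ofL p ⟨d, hd, Q, R⟩).tr2 1 = ofL p ⟨d, hd, Q, R + T (nd_ne hd)⟩ := by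
        change (⟨⟨d, hd⟩, Q, R + torHom p ⟨d, hd⟩ 1⟩ : Abs.Loc (prePl p)) = _
        rw [tor_one]
        rfl
      rwa [e] at h1
    · intro d hd Q R h
      have h1 : H ((ofL p ⟨d, hd, Q, R⟩).un1 (-1)) := hH.un1 _ (-1) h
      have e : (ofL p ⟨d, hd, Q, R⟩).un1 (-1) = ofL p ⟨d, hd, -Q, R⟩ := by
        change (⟨⟨d, hd⟩, ((-1 : ℤˣ) : ℤ) • Q, R⟩ : Abs.Loc (prePl p)) = _
        rw [Units.val_neg, Units.val_one]
        change (⟨⟨d, hd⟩, (-1 : ℤ) • Q, R⟩ : Abs.Loc (prePl p)) = _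
        have : (-1 : ℤ) • Q = -Q := neg_one_zsmul Q
        change (⟨⟨d, hd⟩, ((-1 : ℤ) • Q : E d), R⟩ : Abs.Loc (prePl p)) = ⟨⟨d, hd⟩, (-Q : E d), R⟩
        rw [this]
      rwa [e] at h1
    · intro l l' h h1
      exact hH.sig _ _ h h1
    · intro l h
      obtain ⟨i, hi⟩ := sub_of_nk l.hd h.1
      obtain ⟨j, hj⟩ := sub_of_nk l.hd h.2
      exact hN _ ⟨i, j, hi, hj⟩
  intro l
  exact hG.all h8 (toL p l)

theorem strong (h8 : p % 8 = 5) : Abs.Strong (pl p) ((p : ℤ) + 1) p where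
  toWeak := weak h8
  content := content h8
  lev d c := by
    obtain ⟨R, hR⟩ := exists_lev h8 d.2 c
    exact ⟨R, Lev_of_lev h8 hR⟩
  fil_pow d x n hx := by
    have h := fil_p_pow (three_lt h8) d.2 hx n
    change fil n (((p : ℤ) ^ n) • (x : E d.1))
    have e : ((p : ℤ) ^ n) • (x : E d.1) = (p ^ n) • (x : E d.1) := by
      rw [← natCast_zsmul]; push_cast; rfl
    rw [e]
    exact h
  nlink := nlink_all h8
  nodes H h0 h1 _ h2 := nodes_all h8 H h0 h1 h2
  trans := trans_all h8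

end KumWA
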